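import Pool.Agent.H73G.Segre

/-!
# The conic through the good points
-/

set_option autoImplicit false
set_option linter.unusedSectionVars false

namespace Pool.Agent.H73G

variable {F : Type} [Field F]

/-- the quadratic form in the coordinates with respect to `X, Y, Z` -/
def Q (X Y Z : Fin 3 → F) (a b c : F) (v : Fin 3 → F) : F :=
  a * det3 v Y Z * det3 X v Z + b * det3 X v Z * det3 X Y v + c * det3 X Y v * det3 v Y Z

/-- its polar form -/
def B (X Y Z : Fin 3 → F) (a b c : F) (u v : Fin 3 → F) : F :=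
  a * (det3 u Y Z * det3 X v Z + det3 v Y Z * det3 X u Z) +
  b * (det3 X u Z * det3 X Y v + det3 X v Z * det3 X Y u) +
  c * (det3 X Y u * det3 v Y Z + det3 X Y v * det3 u Y Z)

theorem det3_lin1 (s t : F) (u v b c : Fin 3 → F) :
    det3 (fun i => s * u i - t * v i) b c = s * det3 u b c - t * det3 v b c := by
  unfold det3; ring

theorem det3_lin2 (s t : F) (u v a c : Fin 3 → F) :
    det3 a (fun i => s * u i - t * v i) c = s * det3 a u c - t * det3 a v c := by
  unfold det3; ring

theorem det3_lin3 (s t : F) (u v a b : Fin 3 → F) :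
    det3 a b (fun i => s * u i - t * v i) = s * det3 a b u - t * det3 a b v := by
  unfold det3; ring

theorem det3_same12 (a b : Fin 3 → F) : det3 a a b = 0 := by unfold det3; ring
theorem det3_same13 (a b : Fin 3 → F) : det3 a b a = 0 := by unfold det3; ring
theorem det3_same23 (a b : Fin 3 → F) : det3 a b b = 0 := by unfold det3; ring

theorem Q_comb (X Y Z : Fin 3 → F) (a b c s t : F) (u v : Fin 3 → F) :
    Q X Y Z a b c (fun i => s * u i - t * v i) =
      s ^ 2 * Q X Y Z a b c u - s * t * B X Y Z a b c u v + t ^ 2 * Q X Y Z a b c v := by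
  unfold Q B
  rw [det3_lin1, det3_lin2, det3_lin3]
  ring

/-- Cramer -/
theorem cramer (X Y Z v : Fin 3 → F) (i : Fin 3) :
    v i * det3 X Y Z = det3 v Y Z * X i + det3 X v Z * Y i + det3 X Y v * Z i := by
  unfold det3; fin_cases i <;> simp <;> ring

section

variable [Fintype F] [DecidableEq F] {ι : Type} {S : Finset ι} {w : ι → Fin 3 → F}

/-- a base triple of good points with tangents -/
structure Base (S : Finset ι) (w : ι → Fin 3 → F) (x y z : ι) (f g h : Fin 3 → F) : Prop where
  card : S.card = Fintype.card F + 1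
  two : (2 : F) ≠ 0
  hx : Good S w x
  hy : Good S w y
  hz : Good S w z
  hxy : x ≠ y
  hxz : x ≠ z
  hyz : y ≠ z
  hf : Tan S w x f
  hg : Tan S w y g
  hh : Tan S w z h

variable {x y z : ι} {f g h : Fin 3 → F}

theorem Base.D (H : Base S w x y z f g h) : det3 (w x) (w y) (w z) ≠ 0 :=
  H.hx.2 y H.hy.1 z H.hz.1 H.hxy.symm H.hxz.symm H.hyz

/-- the quadratic form of the base -/
def QQ (w : ι → Fin 3 → F) (x y z : ι) (f h : Fin 3 → F) (v : Fin 3 → F) : F :=
  Q (w x) (w y) (w z) (dot f (w y) * dot h (w x)) (dot f (w z) * dot h (w y))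
    (dot f (w z) * dot h (w x)) v

def BB (w : ι → Fin 3 → F) (x y z : ι) (f h : Fin 3 → F) (u v : Fin 3 → F) : F :=
  B (w x) (w y) (w z) (dot f (w y) * dot h (w x)) (dot f (w z) * dot h (w y))
    (dot f (w z) * dot h (w x)) u v

theorem Base.ff (H : Base S w x y z f g h) (v : Fin 3 → F) :
    dot f v * det3 (w x) (w y) (w z) = dot f (w y) * det3 (w x) v (w z) +
      dot f (w z) * det3 (w x) (w y) v := by
  rw [dot_expand, H.hf.1]; ring

theorem Base.gg (H : Base S w x y z f g h) (v : Fin 3 → F) :
    dot g v * det3 (w x) (w y) (w z) = dot g (w x) * det3 v (w y) (w z) +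
      dot g (w z) * det3 (w x) (w y) v := by
  rw [dot_expand, H.hg.1]; ring

theorem Base.hhh (H : Base S w x y z f g h) (v : Fin 3 → F) :
    dot h v * det3 (w x) (w y) (w z) = dot h (w x) * det3 v (w y) (w z) +
      dot h (w y) * det3 (w x) v (w z) := by
  rw [dot_expand, H.hh.1]; ring

theorem Base.BX (H : Base S w x y z f g h) (v : Fin 3 → F) :
    BB w x y z f h (w x) v = det3 (w x) (w y) (w z) ^ 2 * dot h (w x) * dot f v := by
  have h1 := H.ff v
  unfold BB B
  rw [det3_same12, det3_same13]
  linear_combination (-(det3 (w x) (w y) (w z)) * dot h (w x)) * h1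

theorem Base.BZ (H : Base S w x y z f g h) (v : Fin 3 → F) :
    BB w x y z f h (w z) v = det3 (w x) (w y) (w z) ^ 2 * dot f (w z) * dot h v := by
  have h1 := H.hhh v
  unfold BB B
  rw [det3_same13, det3_same23]
  linear_combination (-(det3 (w x) (w y) (w z)) * dot f (w z)) * h1

theorem Base.tan (H : Base S w x y z f g h) :
    dot f (w y) * dot g (w z) * dot h (w x) = dot f (w z) * dot g (w x) * dot h (w y) :=
  tangents H.hx H.hy H.hz H.hxy H.hxz H.hyz H.hf H.hg H.hh H.card

theorem Base.BY (H : Base S w x y z f g h) (v : Fin 3 → F) :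
    dot g (w x) * BB w x y z f h (w y) v =
      det3 (w x) (w y) (w z) ^ 2 * dot f (w y) * dot h (w x) * dot g v := by
  have h1 := H.gg v
  have h2 := H.tan
  unfold BB B
  rw [det3_same12, det3_same23]
  linear_combination (-(det3 (w x) (w y) (w z)) * dot f (w y) * dot h (w x)) * h1 -
    det3 (w x) (w y) (w z) * det3 (w x) (w y) v * h2

theorem Base.Qgood (H : Base S w x y z f g h) {p : ι} {k : Fin 3 → F} (hp : Good S w p)
    (hk : Tan S w p k) : QQ w x y z f h (w p) = 0 ∧
      ∀ o ∈ S, o ≠ p → BB w x y z f h (w p) (w o) ≠ 0 := by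
  have hD := H.D
  have h2 := H.two
  have f_y := H.hf.2 y H.hy.1 H.hxy.symm
  have f_z := H.hf.2 z H.hz.1 H.hxz.symm
  have g_x := H.hg.2 x H.hx.1 H.hxy
  have g_z := H.hg.2 z H.hz.1 H.hyz.symm
  have h_x := H.hh.2 x H.hx.1 H.hxz
  have h_y := H.hh.2 y H.hy.1 H.hyz
  by_cases hpx : p = x
  · subst hpx
    refine ⟨?_, ?_⟩
    · unfold QQ Q
      rw [det3_same12, det3_same13]
      ring
    · intro o ho hne
      rw [H.BX]
      have := H.hf.2 o ho hne
      positivity
  by_cases hpy : p = y
  · subst hpy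
    refine ⟨?_, ?_⟩
    · unfold QQ Q
      rw [det3_same12, det3_same23]
      ring
    · intro o ho hne hz0
      have h3 := H.BY (w o)
      rw [hz0, mul_zero] at h3
      have := H.hg.2 o ho hne
      have h4 : det3 (w x) (w p) (w z) ^ 2 * dot f (w p) * dot h (w x) * dot g (w o) ≠ 0 := by
        positivity
      exact h4 h3.symm
  by_cases hpz : p = z
  · subst hpz
    refine ⟨?_, ?_⟩
    · unfold QQ Q
      rw [det3_same13, det3_same23]
      ring
    · intro o ho hne
      rw [H.BZ]
      have := H.hh.2 o ho hne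
      positivity
  have t1 := H.tan
  have t2 := tangents H.hx H.hy hp H.hxy (Ne.symm hpx) (Ne.symm hpy) H.hf H.hg hk H.card
  have t3 := tangents H.hx H.hz hp H.hxz (Ne.symm hpx) (Ne.symm hpz) H.hf H.hh hk H.card
  have k_x := hk.2 x H.hx.1 (Ne.symm hpx)
  have f_p := H.hf.2 p hp.1 hpx
  have e1 := H.ff (w p)
  have e2 := H.gg (w p)
  have e3 := H.hhh (w p)
  have e4 := dot_expand k (w x) (w y) (w z) (w p)
  rw [hk.1, zero_mul] at e4
  set D := det3 (w x) (w y) (w z) with hDdef
  set A := det3 (w p) (w y) (w z) with hA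
  set Be := det3 (w x) (w p) (w z) with hBe
  set C := det3 (w x) (w y) (w p) with hC
  refine ⟨?_, ?_⟩
  · have h5 : 2 * dot g (w x) * dot k (w x) * QQ w x y z f h (w p) = 0 := by
      unfold QQ Q
      rw [← hA, ← hBe, ← hC]
      linear_combination (-(dot k (w x) * dot g (w x) * dot h (w x) * A)) * e1 -
        (Be * dot h (w x) * dot f (w y) * dot k (w x)) * e2 + (Be * dot h (w x) * D) * t2 -
        (C * dot g (w x) * dot f (w z) * dot k (w x)) * e3 + (C * dot g (w x) * D) * t3 -
        (dot k (w x) * Be * C) * t1 - (D * dot f (w p) * dot g (w x) * dot h (w x)) * e4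
    have h6 : 2 * dot g (w x) * dot k (w x) ≠ 0 := by positivity
    exact (mul_eq_zero.mp h5).resolve_left h6
  · intro o ho hne hz0
    have k_o := hk.2 o ho hne
    have h7 : dot k (w o) * (D ^ 2 * dot h (w x) * dot f (w p)) * dot g (w x) =
        dot k (w x) * BB w x y z f h (w p) (w o) * dot g (w x) := by
      have e5 := dot_expand k (w x) (w y) (w z) (w o)
      rw [← hDdef] at e5
      unfold BB B
      rw [← hA, ← hBe, ← hC]
      linear_combination (D * dot h (w x) * dot f (w p) * dot g (w x)) * e5 +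
        (dot k (w x) * det3 (w o) (w y) (w z) * dot h (w x) * dot g (w x)) * e1 -
        (det3 (w x) (w o) (w z) * D * dot h (w x)) * t2 +
        (det3 (w x) (w o) (w z) * dot h (w x) * dot f (w y) * dot k (w x)) * e2 -
        (det3 (w x) (w y) (w o) * D * dot g (w x)) * t3 +
        (det3 (w x) (w y) (w o) * dot g (w x) * dot f (w z) * dot k (w x)) * e3 +
        (dot k (w x) * det3 (w x) (w o) (w z) * C) * t1
    rw [hz0, mul_zero, zero_mul] at h7
    have h8 : dot k (w o) * (D ^ 2 * dot h (w x) * dot f (w p)) * dot g (w x) ≠ 0 := by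
      positivity
    exact h8 h7

end

end Pool.Agent.H73G
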