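import Pool.Agent.H73G.Half

/-!
# Counting in the projective plane
-/

set_option autoImplicit false
set_option linter.unusedSectionVars false

namespace Pool.Agent.H73G

open Configuration
open scoped LinearAlgebra.Projectivization

/-- the points of `PG(2, q)`, in homogeneous coordinates; the lines are given by the same type (dual
homogeneous coordinates), the point `P` is on the line `l` if `P.orthogonal l` -/
abbrev PG (F : Type) [Field F] := ℙ F (Fin 3 → F)

variable {F : Type} [Field F] [Fintype F] [DecidableEq F]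

theorem orth_iff (P l : PG F) : P.orthogonal l ↔ dot l.rep P.rep = 0 := by
  conv_lhs => rw [← P.mk_rep, ← l.mk_rep]
  rw [Projectivization.orthogonal_mk]
  unfold dot
  rw [dotProduct, Fin.sum_univ_three]
  constructor <;> intro h <;> linear_combination h

theorem coll_iff (P Q R : PG F) : det3 P.rep Q.rep R.rep = 0 ↔
    ∃ l : PG F, P.orthogonal l ∧ Q.orthogonal l ∧ R.orthogonal l := by
  have hdet : Matrix.det (Matrix.of ![P.rep, Q.rep, R.rep]) = det3 P.rep Q.rep R.rep := by
    rw [Matrix.det_fin_three]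
    unfold det3
    simp
    ring
  rw [← hdet, ← Matrix.exists_mulVec_eq_zero_iff]
  constructor
  · rintro ⟨v, hv, h0⟩
    refine ⟨Projectivization.mk F v hv, ?_, ?_, ?_⟩
    · conv_lhs => rw [← P.mk_rep]
      rw [Projectivization.orthogonal_mk]
      exact congrFun h0 0
    · conv_lhs => rw [← Q.mk_rep]
      rw [Projectivization.orthogonal_mk]
      exact congrFun h0 1
    · conv_lhs => rw [← R.mk_rep]
      rw [Projectivization.orthogonal_mk]
      exact congrFun h0 2
  · rintro ⟨l, h1, h2, h3⟩
    refine ⟨l.rep, l.rep_nonzero, ?_⟩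
    have e : ∀ P : PG F, P.orthogonal l → P.rep ⬝ᵥ l.rep = 0 := by
      intro P hP
      rw [← P.mk_rep, ← l.mk_rep, Projectivization.orthogonal_mk] at hP
      exact hP
    funext i
    fin_cases i
    · exact e P h1
    · exact e Q h2
    · exact e R h3

noncomputable instance : Fintype (PG F) := Fintype.ofFinite _
noncomputable instance : DecidableEq (PG F) := Classical.decEq _
noncomputable instance (P : PG F) : DecidablePred (fun l : PG F => P.orthogonal l) := Classical.decPred _
noncomputable instance (l : PG F) : DecidablePred (fun P : PG F => P.orthogonal l) := Classical.decPred _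

theorem card_PG : Fintype.card (PG F) = Fintype.card F ^ 2 + Fintype.card F + 1 := by
  have h := Projectivization.card_of_finrank F (Fin 3 → F) (n := 3) (by simp)
  rw [Nat.card_eq_fintype_card, Nat.card_eq_fintype_card] at h
  rw [h]
  simp [Finset.sum_range_succ]
  ring

theorem order_eq : ProjectivePlane.order (PG F) (PG F) = Fintype.card F := by
  have h := ProjectivePlane.card_points (PG F) (PG F)
  rw [card_PG] at h
  nlinarith

/-- number of lines through a point -/
theorem lines_pt (P : PG F) :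
    (Finset.univ.filter (fun l : PG F => P.orthogonal l)).card = Fintype.card F + 1 := by
  have h := ProjectivePlane.lineCount_eq (PG F) P
  rw [order_eq] at h
  rw [← h]
  unfold lineCount
  change _ = Nat.card {l : PG F // P.orthogonal l}
  rw [Nat.card_eq_fintype_card, Fintype.card_subtype]

/-- number of lines through two points -/
theorem lines_two (P R : PG F) (h : P ≠ R) :
    (Finset.univ.filter (fun l : PG F => P.orthogonal l ∧ R.orthogonal l)).card = 1 := by
  obtain ⟨l, hl, hu⟩ := HasLines.existsUnique_line (PG F) (PG F) P R h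
  rw [Finset.card_eq_one]
  refine ⟨l, ?_⟩
  ext m
  simp only [Finset.mem_filter, Finset.mem_univ, true_and, Finset.mem_singleton]
  constructor
  · intro hm
    exact hu m hm
  · rintro rfl
    exact hl

theorem line_unique {P R l m : PG F} (h : P ≠ R) (h1 : P.orthogonal l) (h2 : R.orthogonal l)
    (h3 : P.orthogonal m) (h4 : R.orthogonal m) : l = m := by
  obtain ⟨k, _, hu⟩ := HasLines.existsUnique_line (PG F) (PG F) P R h
  rw [hu l ⟨h1, h2⟩, hu m ⟨h3, h4⟩]

/-- the number of the points of `S` on the line `l` -/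
noncomputable def cn (S : Finset (PG F)) (l : PG F) : ℕ := (S.filter (fun P => P.orthogonal l)).card

theorem sum_cn (S : Finset (PG F)) :
    ∑ l : PG F, (cn S l : ℤ) = S.card * (Fintype.card F + 1) := by
  have h1 : ∀ l : PG F, (cn S l : ℤ) = ∑ P ∈ S, if P.orthogonal l then (1 : ℤ) else 0 := by
    intro l
    unfold cn
    rw [Finset.sum_boole]
  rw [Finset.sum_congr rfl (fun l _ => h1 l), Finset.sum_comm]
  have h2 : ∀ P : PG F, ∑ l : PG F, (if P.orthogonal l then (1 : ℤ) else 0) = Fintype.card F + 1 := by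
    intro P
    rw [Finset.sum_boole, lines_pt]
    push_cast; rfl
  rw [Finset.sum_congr rfl (fun P _ => h2 P), Finset.sum_const, nsmul_eq_mul]

theorem sum_cn_sq (S : Finset (PG F)) :
    ∑ l : PG F, (cn S l : ℤ) ^ 2 = S.card * (Fintype.card F + 1) + S.card * (S.card - 1) := by
  have h1 : ∀ l : PG F, (cn S l : ℤ) ^ 2 = ∑ P ∈ S, ∑ R ∈ S,
      if P.orthogonal l ∧ R.orthogonal l then (1 : ℤ) else 0 := by
    intro l
    have : (cn S l : ℤ) = ∑ P ∈ S, if P.orthogonal l then (1 : ℤ) else 0 := by
      unfold cn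
      rw [Finset.sum_boole]
    rw [sq, this, Finset.sum_mul_sum]
    apply Finset.sum_congr rfl
    intro P _
    apply Finset.sum_congr rfl
    intro R _
    by_cases hP : P.orthogonal l <;> by_cases hR : R.orthogonal l <;> simp [hP, hR]
  rw [Finset.sum_congr rfl (fun l _ => h1 l), Finset.sum_comm]
  have h2 : ∀ P ∈ S, ∑ l : PG F, ∑ R ∈ S, (if P.orthogonal l ∧ R.orthogonal l then (1 : ℤ) else 0) =
      (Fintype.card F + 1) + (S.card - 1) := by
    intro P hP
    rw [Finset.sum_comm]
    have h3 : ∀ R ∈ S, ∑ l : PG F, (if P.orthogonal l ∧ R.orthogonal l then (1 : ℤ) else 0) =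
        1 + if P = R then (Fintype.card F : ℤ) else 0 := by
      intro R _
      rw [Finset.sum_boole]
      by_cases hPR : P = R
      · subst hPR
        simp only [and_self, if_true]
        rw [lines_pt]
        push_cast; ring
      · rw [lines_two P R hPR, if_neg hPR]
        simp
    rw [Finset.sum_congr rfl h3, Finset.sum_add_distrib, Finset.sum_ite_eq, if_pos hP]
    simp
    ring
  rw [Finset.sum_congr rfl h2, Finset.sum_const, nsmul_eq_mul]
  ring

/-- the number of lines which contain no point of `S` -/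
noncomputable def u0 (S : Finset (PG F)) : ℕ := Nat.card {l : PG F // ∀ P ∈ S, ¬ P.orthogonal l}

theorem u0_eq (S : Finset (PG F)) : u0 S = (Finset.univ.filter (fun l : PG F => cn S l = 0)).card := by
  classical
  unfold u0
  rw [Nat.card_eq_fintype_card, Fintype.card_subtype]
  congr 1
  ext l
  simp only [Finset.mem_filter, Finset.mem_univ, true_and, cn, Finset.card_eq_zero,
    Finset.filter_eq_empty_iff]

/-- the excess of a line -/
noncomputable def ex (S : Finset (PG F)) (l : PG F) : ℤ :=
  if 3 ≤ cn S l then ((cn S l : ℤ) - 1) * ((cn S l : ℤ) - 2) else 0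

theorem u0_formula (S : Finset (PG F)) (hS : S.card = Fintype.card F + 1) :
    2 * (u0 S : ℤ) + ∑ l : PG F, ex S l = (Fintype.card F : ℤ) ^ 2 - Fintype.card F := by
  have h1 := sum_cn S
  have h2 := sum_cn_sq S
  rw [hS] at h1 h2
  have h3 : ∑ l : PG F, (1 : ℤ) = (Fintype.card F : ℤ) ^ 2 + Fintype.card F + 1 := by
    rw [Finset.sum_const, Finset.card_univ, card_PG]
    simp
  have h4 : (u0 S : ℤ) = ∑ l : PG F, if cn S l = 0 then (1 : ℤ) else 0 := by
    rw [u0_eq, Finset.sum_boole]
  rw [h4, Finset.mul_sum, ← Finset.sum_add_distrib]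
  have h5 : ∀ l : PG F, 2 * (if cn S l = 0 then (1 : ℤ) else 0) + ex S l =
      (cn S l : ℤ) ^ 2 - 3 * cn S l + 2 * 1 := by
    intro l
    unfold ex
    rcases Nat.lt_or_ge (cn S l) 3 with h | h
    · interval_cases hh : cn S l <;> norm_num
    · rw [if_pos h, if_neg (by omega)]
      ring
  rw [Finset.sum_congr rfl (fun l _ => h5 l), Finset.sum_add_distrib, Finset.sum_sub_distrib,
    ← Finset.mul_sum, ← Finset.mul_sum, h1, h2, h3]
  push_cast
  ring

theorem ex_nonneg (S : Finset (PG F)) (l : PG F) : 0 ≤ ex S l := by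
  unfold ex
  split_ifs with h
  · have : (3 : ℤ) ≤ cn S l := by exact_mod_cast h
    nlinarith
  · exact le_refl 0

/-- every point has a tangent -/
theorem exists_tan (S : Finset (PG F)) (hS : S.card = Fintype.card F + 1) (P : PG F) (hP : P ∈ S) :
    ∃ l : PG F, P.orthogonal l ∧ ∀ R ∈ S, R ≠ P → ¬ R.orthogonal l := by
  by_contra hcon
  push Not at hcon
  have hcon' : ∀ l : PG F, ∃ R : PG F, P.orthogonal l → R ∈ S ∧ R ≠ P ∧ R.orthogonal l := by
    intro l
    by_cases hl : P.orthogonal l
    · obtain ⟨R, h1, h2, h3⟩ := hcon l hl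
      exact ⟨R, fun _ => ⟨h1, h2, h3⟩⟩
    · exact ⟨P, fun h => absurd h hl⟩
  choose φ hφ using hcon'
  have hle : (Finset.univ.filter (fun l : PG F => P.orthogonal l)).card ≤ (S.erase P).card := by
    apply Finset.card_le_card_of_injOn φ
    · intro l hl
      have hl' := (Finset.mem_filter.mp hl).2
      exact Finset.mem_erase.mpr ⟨(hφ l hl').2.1, (hφ l hl').1⟩
    · intro l hl m hm he
      have hl' := (Finset.mem_filter.mp (Finset.mem_coe.mp hl)).2
      have hm' := (Finset.mem_filter.mp (Finset.mem_coe.mp hm)).2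
      have h1 := hφ l hl'
      have h2 := hφ m hm'
      rw [← he] at h2
      exact line_unique (Ne.symm h1.2.1) hl' h1.2.2 hm' h2.2.2
  rw [lines_pt, Finset.card_erase_of_mem hP, hS] at hle
  omega

/-- the representing vectors -/
noncomputable def rp (P : PG F) : Fin 3 → F := P.rep

theorem tan_exists (S : Finset (PG F)) (hS : S.card = Fintype.card F + 1) (P : PG F) (hP : P ∈ S) :
    ∃ k, Tan S rp P k := by
  obtain ⟨l, h1, h2⟩ := exists_tan S hS P hP
  refine ⟨l.rep, (orth_iff P l).mp h1, ?_⟩
  intro R hR hne h0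
  exact h2 R hR hne ((orth_iff R l).mpr h0)

/-- a bad point is on a line with three points -/
theorem bad_line (S : Finset (PG F)) (P : PG F) (hP : P ∈ S) (hb : ¬ Good S rp P) :
    ∃ l : PG F, P.orthogonal l ∧ 3 ≤ cn S l := by
  unfold Good at hb
  push Not at hb
  obtain ⟨R, hR, T, hT, h1, h2, h3, h0⟩ := hb hP
  obtain ⟨l, l1, l2, l3⟩ := (coll_iff P R T).mp h0
  refine ⟨l, l1, ?_⟩
  unfold cn
  rw [Nat.succ_le_iff, Finset.two_lt_card]
  exact ⟨P, Finset.mem_filter.mpr ⟨hP, l1⟩, R, Finset.mem_filter.mpr ⟨hR, l2⟩, T,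
    Finset.mem_filter.mpr ⟨hT, l3⟩, h1.symm, h2.symm, h3⟩

theorem bad_count (S : Finset (PG F)) (Bd : Finset (PG F)) (hB : ∀ P ∈ Bd, P ∈ S ∧ ¬ Good S rp P) :
    2 * (Bd.card : ℤ) ≤ 3 * ∑ l : PG F, ex S l := by
  have h1 : Bd ⊆ (Finset.univ.filter (fun l : PG F => 3 ≤ cn S l)).biUnion
      (fun l => S.filter (fun P => P.orthogonal l)) := by
    intro P hP
    obtain ⟨l, l1, l2⟩ := bad_line S P (hB P hP).1 (hB P hP).2
    rw [Finset.mem_biUnion]
    exact ⟨l, by simpa using l2, Finset.mem_filter.mpr ⟨(hB P hP).1, l1⟩⟩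
  have h2 := (Finset.card_le_card h1).trans Finset.card_biUnion_le
  have h3 : (Bd.card : ℤ) ≤ ∑ l ∈ Finset.univ.filter (fun l : PG F => 3 ≤ cn S l), (cn S l : ℤ) := by
    have : Bd.card ≤ ∑ l ∈ Finset.univ.filter (fun l : PG F => 3 ≤ cn S l), cn S l := h2
    exact_mod_cast this
  calc 2 * (Bd.card : ℤ) ≤ 2 * ∑ l ∈ Finset.univ.filter (fun l : PG F => 3 ≤ cn S l), (cn S l : ℤ) := by
        linarith
    _ = ∑ l ∈ Finset.univ.filter (fun l : PG F => 3 ≤ cn S l), 2 * (cn S l : ℤ) := by
        rw [Finset.mul_sum]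
    _ ≤ ∑ l ∈ Finset.univ.filter (fun l : PG F => 3 ≤ cn S l), 3 * ex S l := by
        apply Finset.sum_le_sum
        intro l hl
        have hl' := (Finset.mem_filter.mp hl).2
        unfold ex
        rw [if_pos hl']
        have : (3 : ℤ) ≤ cn S l := by exact_mod_cast hl'
        nlinarith
    _ ≤ ∑ l : PG F, 3 * ex S l := by
        apply Finset.sum_le_sum_of_subset_of_nonneg (Finset.filter_subset _ _)
        intro l _ _
        have := ex_nonneg S l
        linarith
    _ = 3 * ∑ l : PG F, ex S l := by rw [Finset.mul_sum]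

/-- **Upper bound, first form.** -/
theorem upper_first (h2 : (2 : F) ≠ 0) (S : Finset (PG F)) (hS : S.card = Fintype.card F + 1)
    {p q r : PG F} (hp : p ∈ S) (hq : q ∈ S) (hr : r ∈ S) (hpq : p ≠ q) (hpr : p ≠ r) (hqr : q ≠ r)
    (hc : det3 (rp p) (rp q) (rp r) = 0) :
    6 * (u0 S : ℤ) + (Fintype.card F + 1) ≤ 3 * ((Fintype.card F : ℤ) ^ 2 - Fintype.card F) := by
  classical
  have hcard : 3 ≤ Fintype.card F := by
    by_contra hlt
    have h1 : 1 < Fintype.card F := Fintype.one_lt_card
    have h3 : Fintype.card F = 2 := by omega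
    have h4 := FiniteField.pow_card (2 : F)
    have h5 : (Fintype.card F : F) = 0 := by simp
    rw [h3] at h5
    exact h2 (by exact_mod_cast h5)
  set G := S.filter (fun P => Good S rp P) with hG
  set Bd := S.filter (fun P => ¬ Good S rp P) with hBd
  have hsum : G.card + Bd.card = Fintype.card F + 1 := by
    rw [hG, hBd, Finset.card_filter_add_card_filter_not, hS]
  have hGhalf : 2 * G.card ≤ Fintype.card F + 1 := by
    by_cases h3 : G.card ≤ 2
    · omega
    · push Not at h3
      rw [Finset.two_lt_card] at h3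
      obtain ⟨x, hx, y, hy, z, hz, hxy, hxz, hyz⟩ := h3
      obtain ⟨f, hf⟩ := tan_exists S hS x (Finset.mem_filter.mp hx).1
      obtain ⟨g, hg⟩ := tan_exists S hS y (Finset.mem_filter.mp hy).1
      obtain ⟨h, hh⟩ := tan_exists S hS z (Finset.mem_filter.mp hz).1
      have H : Base S rp x y z f g h := ⟨hS, h2, (Finset.mem_filter.mp hx).2,
        (Finset.mem_filter.mp hy).2, (Finset.mem_filter.mp hz).2, hxy, hxz, hyz, hf, hg, hh⟩
      have htan : ∀ p, Good S rp p → ∃ k, Tan S rp p k := fun p hp => tan_exists S hS p hp.1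
      have hGg : ∀ p ∈ G, Good S rp p := fun p hp => (Finset.mem_filter.mp hp).2
      by_cases Kp : QQ rp x y z f h (rp p) = 0
      · by_cases Kq : QQ rp x y z f h (rp q) = 0
        · exact H.half htan hr (H.arc hp hq hr hpq hpr hqr hc Kp Kq) G hGg hx
        · exact H.half htan hq Kq G hGg hx
      · exact H.half htan hp Kp G hGg hx
  have hbad := bad_count S Bd (fun P hP => Finset.mem_filter.mp hP)
  have hu := u0_formula S hS
  have h6 : (Fintype.card F : ℤ) + 1 ≤ 2 * Bd.card := by
    have : Fintype.card F + 1 ≤ 2 * Bd.card := by omega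
    exact_mod_cast this
  linarith

end Pool.Agent.H73G
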