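import Mathlib

/-!
# A polynomial lemma
-/

set_option autoImplicit false

namespace Pool.Agent.H73G

open Polynomial

variable {F : Type} [Field F] [DecidableEq F] {ι : Type}

theorem poly_lemma (A : Finset ι) (c : ι → F) (N : Finset F) (hN : N.card = A.card + 1)
    (hN2 : 2 ≤ N.card) (hc : ∀ r ∈ A, c r ∉ N) (b n1 n0 : F) (hb : b ≠ 0) (U : Finset F)
    (hU : ∀ u ∈ U, (b ^ 2 * u ^ 2 + n1 * u + n0) * (∏ r ∈ A, (u - c r)) ^ 2 =
      b ^ 2 * (∏ a ∈ N, (u - a)) ^ 2) : U.card ≤ 2 * A.card + 1 := by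
  classical
  have hb2 : b ^ 2 ≠ 0 := pow_ne_zero 2 hb
  set nP : F[X] := C (b ^ 2) * X ^ 2 + C n1 * X + C n0 with hnP
  set R : F[X] := ∏ r ∈ A, (X - C (c r)) with hR
  set T : F[X] := ∏ a ∈ N, (X - C a) with hT
  have hRm : R.Monic := monic_prod_of_monic _ _ (fun r _ => monic_X_sub_C (c r))
  have hTm : T.Monic := monic_prod_of_monic _ _ (fun a _ => monic_X_sub_C a)
  have hRd : R.natDegree = A.card := by
    rw [hR, natDegree_prod_of_monic _ _ (fun r _ => monic_X_sub_C (c r))]
    simp
  have hTd : T.natDegree = N.card := by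
    rw [hT, natDegree_prod_of_monic _ _ (fun a _ => monic_X_sub_C a)]
    simp
  have hnd : nP.natDegree = 2 := natDegree_quadratic hb2
  have hnl : nP.leadingCoeff = b ^ 2 := leadingCoeff_quadratic hb2
  have hn0 : nP ≠ 0 := by
    intro h; rw [h] at hnd; simp at hnd
  have hRe : ∀ u, R.eval u = ∏ r ∈ A, (u - c r) := by
    intro u; rw [hR, eval_prod]; simp
  have hTe : ∀ u, T.eval u = ∏ a ∈ N, (u - a) := by
    intro u; rw [hT, eval_prod]; simp
  have hne : ∀ u, nP.eval u = b ^ 2 * u ^ 2 + n1 * u + n0 := by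
    intro u; rw [hnP]; simp
  set W : F[X] := nP * R ^ 2 - C (b ^ 2) * T ^ 2 with hW
  have hR2m : (R ^ 2).Monic := hRm.pow 2
  have hT2m : (T ^ 2).Monic := hTm.pow 2
  have hp0 : nP * R ^ 2 ≠ 0 := mul_ne_zero hn0 hR2m.ne_zero
  have hq0 : C (b ^ 2) * T ^ 2 ≠ 0 := mul_ne_zero (C_ne_zero.mpr hb2) hT2m.ne_zero
  have hpd : (nP * R ^ 2).natDegree = 2 * A.card + 2 := by
    rw [natDegree_mul hn0 hR2m.ne_zero, hnd, natDegree_pow, hRd]; omega
  have hqd : (C (b ^ 2) * T ^ 2).natDegree = 2 * A.card + 2 := by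
    rw [natDegree_mul (C_ne_zero.mpr hb2) hT2m.ne_zero, natDegree_C, natDegree_pow, hTd, hN]; omega
  by_cases hW0 : W = 0
  · exfalso
    have hroot : ∀ a ∈ N, nP.eval a = 0 ∧ R.eval a ≠ 0 ∧ T.eval a = 0 := by
      intro a ha
      have h1 : T.eval a = 0 := by
        rw [hTe]
        exact Finset.prod_eq_zero ha (sub_self a)
      have h2 : R.eval a ≠ 0 := by
        rw [hRe, Finset.prod_ne_zero_iff]
        intro r hr h0
        apply hc r hr
        rw [← sub_eq_zero.mp h0]
        exact ha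
      have h3 : W.eval a = 0 := by rw [hW0]; simp
      rw [hW] at h3
      simp only [eval_sub, eval_mul, eval_pow, eval_C, h1] at h3
      have h4 : nP.eval a * R.eval a ^ 2 = 0 := by linear_combination h3
      exact ⟨(mul_eq_zero.mp h4).resolve_right (pow_ne_zero 2 h2), h2, h1⟩
    obtain ⟨a0, ha0, a1, ha1, hne01⟩ := Finset.one_lt_card.mp (show 1 < N.card by omega)
    obtain ⟨z0, r0, t0⟩ := hroot a0 ha0
    obtain ⟨z1, _, _⟩ := hroot a1 ha1
    have hder : (derivative W).eval a0 = 0 := by rw [hW0]; simp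
    rw [hW] at hder
    simp only [derivative_sub, derivative_mul, derivative_pow, derivative_C, eval_sub, eval_add,
      eval_mul, eval_pow, eval_C, z0, t0] at hder
    have h5 : (derivative nP).eval a0 * R.eval a0 ^ 2 = 0 := by
      simp at hder
      rcases hder with h | h
      · rw [h, zero_mul]
      · rw [h]; simp
    have h6 := (mul_eq_zero.mp h5).resolve_right (pow_ne_zero 2 r0)
    have h7 : (derivative nP).eval a0 = 2 * b ^ 2 * a0 + n1 := by
      rw [hnP]
      simp [derivative_pow]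
      ring
    rw [h7] at h6
    rw [hne] at z0 z1
    have h8 : (a0 - a1) * (b ^ 2 * (a0 + a1) + n1) = 0 := by linear_combination z0 - z1
    have h9 := (mul_eq_zero.mp h8).resolve_left (sub_ne_zero.mpr hne01)
    have h10 : b ^ 2 * (a0 - a1) = 0 := by linear_combination h6 - h9
    exact mul_ne_zero hb2 (sub_ne_zero.mpr hne01) h10
  · have hdeg : W.degree < (nP * R ^ 2).degree := by
      apply degree_sub_lt_left
      · rw [degree_eq_natDegree hp0, degree_eq_natDegree hq0, hpd, hqd]
      · exact hp0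
      · rw [leadingCoeff_mul, leadingCoeff_mul, hR2m.leadingCoeff, hT2m.leadingCoeff, hnl,
          leadingCoeff_C]
    have hnat : W.natDegree < 2 * A.card + 2 := by
      rw [← hpd]
      exact natDegree_lt_natDegree hW0 hdeg
    have hsub : U.val ⊆ W.roots := by
      intro u hu
      have hu' : u ∈ U := hu
      rw [mem_roots hW0]
      unfold IsRoot
      rw [hW]
      simp only [eval_sub, eval_mul, eval_pow, eval_C, hRe, hTe, hne]
      rw [hU u hu', sub_self]
    have := card_le_degree_of_subset_roots hsub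
    omega

end Pool.Agent.H73G
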