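import Pool.Agent.H73G.Star
import Pool.Agent.H73G.Poly

/-!
# A point off the conic lies on many tangents
-/

set_option autoImplicit false
set_option linter.unusedSectionVars false

namespace Pool.Agent.H73G

section

variable {F : Type} [Field F]

theorem det3_l1 (s t r : F) (u v o b c : Fin 3 → F) :
    det3 (fun i => s * u i + t * v i + r * o i) b c = s * det3 u b c + t * det3 v b c + r * det3 o b c := by
  unfold det3; ring

theorem det3_l2 (s t r : F) (u v o a c : Fin 3 → F) :
    det3 a (fun i => s * u i + t * v i + r * o i) c = s * det3 a u c + t * det3 a v c + r * det3 a o c := by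
  unfold det3; ring

theorem det3_l3 (s t r : F) (u v o a b : Fin 3 → F) :
    det3 a b (fun i => s * u i + t * v i + r * o i) = s * det3 a b u + t * det3 a b v + r * det3 a b o := by
  unfold det3; ring

theorem Q_three (X Y Z : Fin 3 → F) (a b c s t r : F) (u v o : Fin 3 → F) :
    Q X Y Z a b c (fun i => s * u i + t * v i + r * o i) =
      s ^ 2 * Q X Y Z a b c u + t ^ 2 * Q X Y Z a b c v + r ^ 2 * Q X Y Z a b c o +
        s * t * B X Y Z a b c u v + s * r * B X Y Z a b c u o + t * r * B X Y Z a b c v o := by
  unfold Q B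
  rw [det3_l1, det3_l2, det3_l3]
  ring

theorem B_three (X Y Z : Fin 3 → F) (a b c s t r : F) (u v o p : Fin 3 → F) :
    B X Y Z a b c (fun i => s * u i + t * v i + r * o i) p =
      s * B X Y Z a b c u p + t * B X Y Z a b c v p + r * B X Y Z a b c o p := by
  unfold B
  rw [det3_l1, det3_l2, det3_l3]
  ring

theorem B_self (X Y Z : Fin 3 → F) (a b c : F) (o : Fin 3 → F) :
    B X Y Z a b c o o = 2 * Q X Y Z a b c o := by
  unfold B Q
  ring

end

theorem prod_shift {F : Type} [Field F] [Fintype F] [DecidableEq F] (u : F) :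
    ∏ a ∈ Finset.univ.erase u, (a - u) = -1 := by
  rw [← prod_nonzero (F := F)]
  apply Finset.prod_nbij (fun a => a - u)
  · intro a ha
    rw [Finset.mem_erase] at ha ⊢
    exact ⟨sub_ne_zero.mpr ha.1, Finset.mem_univ _⟩
  · intro a _ a' _ h
    simpa using h
  · intro a ha
    refine ⟨a + u, ?_, by simp⟩
    have : a ≠ 0 := by simpa using ha
    simpa using this
  · intro a _
    rfl

variable {F : Type} [Field F] [Fintype F] [DecidableEq F] {ι : Type} {S : Finset ι}
  {w : ι → Fin 3 → F} {x y z : ι} {f g h : Fin 3 → F}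

/-- the slope of the line through `o` and `r` -/
def slo (w : ι → Fin 3 → F) (x y o r : ι) : F := det3 (w o) (w r) (w y) / det3 (w o) (w x) (w r)

theorem Base.tc (H : Base S w x y z f g h) (htan : ∀ p, Good S w p → ∃ k, Tan S w p k) {o : ι}
    (ho : o ∈ S) (hQ : QQ w x y z f h (w o) ≠ 0)
    (hbad : ∃ r ∈ S, ∃ t ∈ S, r ≠ o ∧ t ≠ o ∧ r ≠ t ∧ det3 (w o) (w r) (w t) = 0)
    (G : Finset ι) (hG : ∀ p ∈ G, Good S w p) (hxG : x ∈ G) (N : Finset F)
    (hN : ∀ a, a ∈ N ↔ ∀ r ∈ S, r ≠ o → r ≠ x → slo w x y o r ≠ a) :
    G.card ≤ 2 * N.card := by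
  classical
  have hgood : ∀ p, Good S w p → QQ w x y z f h (w p) = 0 ∧
      ∀ o ∈ S, o ≠ p → BB w x y z f h (w p) (w o) ≠ 0 := by
    intro p hp
    obtain ⟨k, hk⟩ := htan p hp
    exact H.Qgood hp hk
  have hop : ∀ p, Good S w p → o ≠ p := by
    rintro p hp rfl
    exact hQ (hgood _ hp).1
  have hox := hop x H.hx
  have hoy := hop y H.hy
  set c : ι → F := slo w x y o with hc
  set S' := (S.erase o).erase x with hS'
  have hS'm : ∀ r, r ∈ S' ↔ r ∈ S ∧ r ≠ o ∧ r ≠ x := by
    intro r
    rw [hS', Finset.mem_erase, Finset.mem_erase]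
    tauto
  have hS'c : S'.card + 1 = Fintype.card F := by
    have h1 : (S.erase o).card + 1 = S.card := Finset.card_erase_add_one ho
    have h2 : S'.card + 1 = (S.erase o).card :=
      Finset.card_erase_add_one (Finset.mem_erase.mpr ⟨hox.symm, H.hx.1⟩)
    have := H.card
    omega
  have hdx : ∀ r ∈ S', det3 (w o) (w x) (w r) ≠ 0 := by
    intro r hr
    have hr' := (hS'm r).mp hr
    have := H.hx.2 r hr'.1 o ho hr'.2.2 hox hr'.2.1
    intro h; apply this; rw [← h]; unfold det3; ring
  have hD1 : det3 (w o) (w x) (w y) ≠ 0 := hdx y ((hS'm y).mpr ⟨H.hy.1, hoy.symm, H.hxy.symm⟩)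
  -- equal slopes
  have hsl : ∀ r ∈ S', ∀ t ∈ S', c r = c t ↔ det3 (w o) (w r) (w t) = 0 := by
    intro r hr t ht
    have h1 := hdx r hr
    have h2 := hdx t ht
    rw [hc]
    unfold slo
    rw [div_eq_div_iff h1 h2]
    have := plucker (w o) (w x) (w y) (w r) (w t)
    constructor
    · intro he
      have h3 : det3 (w o) (w r) (w t) * det3 (w o) (w x) (w y) = 0 := by
        linear_combination he - this
      exact (mul_eq_zero.mp h3).resolve_right hD1
    · intro h0
      rw [h0] at this
      linear_combination this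
  set Im := S'.image c with hIm
  have hNIm : N = Finset.univ \ Im := by
    ext a
    rw [hN, Finset.mem_sdiff, hIm, Finset.mem_image]
    constructor
    · intro h
      refine ⟨Finset.mem_univ _, ?_⟩
      rintro ⟨r, hr, rfl⟩
      have hr' := (hS'm r).mp hr
      exact h r hr'.1 hr'.2.1 hr'.2.2 rfl
    · rintro ⟨_, h⟩ r hr1 hr2 hr3 hr4
      exact h ⟨r, (hS'm r).mpr ⟨hr1, hr2, hr3⟩, hr4⟩
  have hNc : N.card + Im.card = Fintype.card F := by
    rw [hNIm, Finset.card_sdiff_of_subset (Finset.subset_univ _), Finset.card_univ]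
    have := Finset.card_le_univ Im
    omega
  obtain ⟨Rp, hRp1, hRp2, hRp3⟩ := Finset.exists_subset_injOn_image_eq_of_surjOn (S' : Set ι) Im
    (f := c) (by
      intro a ha
      have := Finset.mem_image.mp (Finset.mem_coe.mp ha)
      obtain ⟨r, hr, hra⟩ := this
      exact ⟨r, Finset.mem_coe.mpr hr, hra⟩)
  have hRpS : Rp ⊆ S' := by
    intro r hr
    exact Finset.mem_coe.mp (hRp1 (Finset.mem_coe.mpr hr))
  have hRpc : Rp.card = Im.card := by
    rw [← hRp3, Finset.card_image_of_injOn hRp2]
  set A := S' \ Rp with hA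
  have hAc : A.card + Rp.card = S'.card := Finset.card_sdiff_add_card_eq_card hRpS
  have hN1 : N.card = A.card + 1 := by omega
  have hImlt : Im.card < S'.card := by
    rcases Nat.lt_or_ge Im.card S'.card with h | h
    · exact h
    · exfalso
      have hinj : Set.InjOn c (S' : Set ι) := by
        apply Finset.injOn_of_card_image_eq
        have := Finset.card_image_le (s := S') (f := c)
        rw [← hIm] at this ⊢
        omega
      obtain ⟨r, hr, t, ht, hro, hto, hrt, h0⟩ := hbad
      have hrx : r ≠ x := by
        rintro rfl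
        apply H.hx.2 t ht o ho (Ne.symm hrt) hox hto
        rw [← h0]; unfold det3; ring
      have htx : t ≠ x := by
        rintro rfl
        apply H.hx.2 o ho r hr hox hrt hro.symm
        rw [← h0]; unfold det3; ring
      have hr' := (hS'm r).mpr ⟨hr, hro, hrx⟩
      have ht' := (hS'm t).mpr ⟨ht, hto, htx⟩
      exact hrt (hinj (Finset.mem_coe.mpr hr') (Finset.mem_coe.mpr ht') ((hsl r hr' t ht').mpr h0))
  have hN2 : 2 ≤ N.card := by omega
  set b := BB w x y z f h (w x) (w o) with hb
  have hb0 : b ≠ 0 := (hgood x H.hx).2 o ho hox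
  set by' := BB w x y z f h (w y) (w o) with hby
  set U := (G.erase x).image c with hU
  have hUc : U.card = G.card - 1 := by
    rw [hU, Finset.card_image_of_injOn, Finset.card_erase_of_mem hxG]
    intro p hp p' hp' he
    have hp1 := Finset.mem_erase.mp (Finset.mem_coe.mp hp)
    have hp1' := Finset.mem_erase.mp (Finset.mem_coe.mp hp')
    have gp := hG p hp1.2
    have gp' := hG p' hp1'.2
    have m1 := (hS'm p).mpr ⟨gp.1, (hop p gp).symm, hp1.1⟩
    have m2 := (hS'm p').mpr ⟨gp'.1, (hop p' gp').symm, hp1'.1⟩
    have h0 := (hsl p m1 p' m2).mp he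
    by_contra hne
    apply gp.2 p' gp'.1 o ho (Ne.symm hne) (hop p gp) (Ne.symm (hop p' gp'))
    rw [← h0]; unfold det3; ring
  have hmain : U.card ≤ 2 * A.card + 1 := by
    apply poly_lemma A c N hN1 hN2 _ b
      (2 * b * by' - 4 * QQ w x y z f h (w o) * BB w x y z f h (w x) (w y)) (by' ^ 2) hb0 U
    · intro u hu
      obtain ⟨p, hp, rfl⟩ := Finset.mem_image.mp hu
      have hp1 := Finset.mem_erase.mp hp
      have gp := hG p hp1.2
      have hpo := hop p gp
      have hpS' := (hS'm p).mpr ⟨gp.1, hpo.symm, hp1.1⟩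
      have hdp := hdx p hpS'
      -- the representative
      have hpR : p ∈ Rp := by
        have : c p ∈ Rp.image c := by
          rw [hRp3]
          exact Finset.mem_image_of_mem c hpS'
        obtain ⟨ρ, hρ, hρc⟩ := Finset.mem_image.mp this
        have hρS := hRpS hρ
        have h0 := (hsl ρ hρS p hpS').mp hρc
        have hρ' := (hS'm ρ).mp hρS
        by_cases hρp : ρ = p
        · rwa [hρp] at hρ
        · exfalso
          apply gp.2 o ho ρ hρ'.1 hpo hρp hρ'.2.1.symm
          rw [← h0]; unfold det3; ring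
      set T := S'.erase p with hTdef
      have hT : ∀ r, r ∈ T ↔ r ∈ S ∧ r ≠ x ∧ r ≠ p ∧ r ≠ o := by
        intro r
        rw [hTdef, Finset.mem_erase, hS'm]
        tauto
      have hTc : T.card + 1 = S'.card := Finset.card_erase_add_one hpS'
      have hTc2 : T.card + 2 = Fintype.card F := by omega
      have hstar := H.star htan ho gp hp1.1 hox hpo T hT hTc2
      -- first: the product in terms of slopes
      set lam := det3 (w o) (w x) (w p) / det3 (w o) (w x) (w y) with hlam
      have hlam0 : lam ≠ 0 := div_ne_zero hdp hD1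
      have hfac : ∀ r ∈ T, det3 (w o) (w r) (w p) / det3 (w o) (w x) (w r) = lam * (c r - c p) := by
        intro r hr
        have hrS : r ∈ S' := Finset.mem_of_mem_erase hr
        have h1 := hdx r hrS
        have h2 := plucker (w o) (w x) (w y) (w r) (w p)
        rw [hlam, hc]
        unfold slo
        field_simp
        linear_combination -h2
      rw [Finset.prod_congr rfl hfac, Finset.prod_mul_distrib, Finset.prod_const] at hstar
      have hlamp : lam ^ T.card * lam = 1 := by
        rw [← pow_succ]
        have : T.card + 1 = Fintype.card F - 1 := by omega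
        rw [this]
        exact FiniteField.pow_card_sub_one_eq_one lam hlam0
      set PT := ∏ r ∈ T, (c r - c p) with hPT
      have hs2 : PT * BB w x y z f h (w p) (w o) = lam * b := by
        linear_combination lam * hstar - PT * BB w x y z f h (w p) (w o) * hlamp
      -- the products
      have hprodN : (∏ r ∈ Rp.erase p, (c r - c p)) * ∏ a ∈ N, (a - c p) = -1 := by
        have e1 : ∏ r ∈ Rp.erase p, (c r - c p) = ∏ a ∈ Im.erase (c p), (a - c p) := by
          have e2 : Im.erase (c p) = (Rp.erase p).image c := by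
            rw [← hRp3]
            ext a
            rw [Finset.mem_erase, Finset.mem_image, Finset.mem_image]
            constructor
            · rintro ⟨hne, r, hr, rfl⟩
              refine ⟨r, Finset.mem_erase.mpr ⟨?_, hr⟩, rfl⟩
              rintro rfl
              exact hne rfl
            · rintro ⟨r, hr, rfl⟩
              have hr' := Finset.mem_erase.mp hr
              refine ⟨?_, r, hr'.2, rfl⟩
              intro he
              exact hr'.1 (hRp2 (Finset.mem_coe.mpr hr'.2) (Finset.mem_coe.mpr hpR) he)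
          rw [e2, Finset.prod_image (by
            intro r hr t ht he
            exact hRp2 (Finset.mem_coe.mpr (Finset.mem_of_mem_erase hr))
              (Finset.mem_coe.mpr (Finset.mem_of_mem_erase ht)) he)]
        have hdisj : Disjoint (Im.erase (c p)) N := by
          rw [hNIm, Finset.disjoint_left]
          intro a ha ha'
          exact (Finset.mem_sdiff.mp ha').2 (Finset.mem_of_mem_erase ha)
        have hun : Im.erase (c p) ∪ N = Finset.univ.erase (c p) := by
          ext a
          rw [hNIm, Finset.mem_union, Finset.mem_erase, Finset.mem_sdiff, Finset.mem_erase]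
          have hcp : c p ∈ Im := Finset.mem_image_of_mem c hpS'
          constructor
          · rintro (⟨h1, _⟩ | ⟨_, h1⟩)
            · exact ⟨h1, Finset.mem_univ _⟩
            · refine ⟨?_, Finset.mem_univ _⟩
              rintro rfl
              exact h1 hcp
          · rintro ⟨h1, _⟩
            by_cases ha : a ∈ Im
            · exact Or.inl ⟨h1, ha⟩
            · exact Or.inr ⟨Finset.mem_univ _, ha⟩
        rw [e1, ← Finset.prod_union hdisj, hun]
        exact prod_shift (c p)
      have hPTsplit : PT = (∏ r ∈ Rp.erase p, (c r - c p)) * ∏ r ∈ A, (c r - c p) := by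
        have hd : Disjoint (Rp.erase p) A := by
          rw [hA, Finset.disjoint_left]
          intro r hr hr'
          exact (Finset.mem_sdiff.mp hr').2 (Finset.mem_of_mem_erase hr)
        have hu2 : Rp.erase p ∪ A = T := by
          ext r
          rw [hA, hTdef]
          simp only [Finset.mem_union, Finset.mem_erase, Finset.mem_sdiff]
          constructor
          · rintro (⟨h1, h2⟩ | ⟨h1, h2⟩)
            · exact ⟨h1, hRpS h2⟩
            · refine ⟨?_, h1⟩
              rintro rfl
              exact h2 hpR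
          · rintro ⟨h1, h2⟩
            by_cases hr : r ∈ Rp
            · exact Or.inl ⟨h1, hr⟩
            · exact Or.inr ⟨h2, hr⟩
        rw [hPT, ← hu2, Finset.prod_union hd]
      set PA := ∏ r ∈ A, (c r - c p) with hPA
      set PN := ∏ a ∈ N, (a - c p) with hPN
      have hrel : PT * PN = -PA := by
        rw [hPTsplit]
        linear_combination PA * hprodN
      -- the discriminant
      have hQp := (hgood p gp).1
      have hQx := (hgood x H.hx).1
      have hQy := (hgood y H.hy).1
      set α := det3 (w o) (w p) (w y) with hα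
      set β := det3 (w o) (w x) (w p) with hβ
      set D1 := det3 (w o) (w x) (w y) with hD1def
      set γ := det3 (w x) (w y) (w p) with hγ
      have hvec : (fun i => D1 * w p i + 0 * w p i + 0 * w p i) =
          (fun i => α * w x i + β * w y i + γ * w o i) := by
        funext i
        have hcr := cramer (w x) (w y) (w o) (w p) i
        have c1 : det3 (w x) (w y) (w o) = D1 := by rw [hD1def]; unfold det3; ring
        have c2 : det3 (w p) (w y) (w o) = α := by rw [hα]; unfold det3; ring
        have c3 : det3 (w x) (w p) (w o) = β := by rw [hβ]; unfold det3; ring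
        rw [c1, c2, c3] at hcr
        linear_combination hcr
      have q1 := Q_three (w x) (w y) (w z) (dot f (w y) * dot h (w x)) (dot f (w z) * dot h (w y))
        (dot f (w z) * dot h (w x)) D1 0 0 (w p) (w p) (w p)
      have q2 := Q_three (w x) (w y) (w z) (dot f (w y) * dot h (w x)) (dot f (w z) * dot h (w y))
        (dot f (w z) * dot h (w x)) α β γ (w x) (w y) (w o)
      have b1 := B_three (w x) (w y) (w z) (dot f (w y) * dot h (w x)) (dot f (w z) * dot h (w y))
        (dot f (w z) * dot h (w x)) D1 0 0 (w p) (w p) (w p) (w o)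
      have b2 := B_three (w x) (w y) (w z) (dot f (w y) * dot h (w x)) (dot f (w z) * dot h (w y))
        (dot f (w z) * dot h (w x)) α β γ (w x) (w y) (w o) (w o)
      have b3 := B_self (w x) (w y) (w z) (dot f (w y) * dot h (w x)) (dot f (w z) * dot h (w y))
        (dot f (w z) * dot h (w x)) (w o)
      rw [hvec, q2] at q1
      rw [hvec, b2, b3] at b1
      change α ^ 2 * QQ w x y z f h (w x) + β ^ 2 * QQ w x y z f h (w y) +
        γ ^ 2 * QQ w x y z f h (w o) + α * β * BB w x y z f h (w x) (w y) +
        α * γ * b + β * γ * by' = D1 ^ 2 * QQ w x y z f h (w p) + 0 ^ 2 * QQ w x y z f h (w p) +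
        0 ^ 2 * QQ w x y z f h (w p) + _ + _ + _ at q1
      change α * b + β * by' + γ * (2 * QQ w x y z f h (w o)) =
        D1 * BB w x y z f h (w p) (w o) + 0 * _ + 0 * _ at b1
      rw [hQp, hQx, hQy] at q1
      set Bxy := BB w x y z f h (w x) (w y) with hBxy
      set Qo := QQ w x y z f h (w o) with hQo
      set Bpo := BB w x y z f h (w p) (w o) with hBpo
      have hdisc : D1 ^ 2 * Bpo ^ 2 = (α * b + β * by') ^ 2 - 4 * Qo * α * β * Bxy := by
        have e1 : D1 * Bpo = α * b + β * by' + γ * (2 * Qo) := by linear_combination -b1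
        have e2 : α * γ * b + β * γ * by' + γ ^ 2 * Qo = - (α * β * Bxy) := by linear_combination q1
        calc D1 ^ 2 * Bpo ^ 2 = (D1 * Bpo) ^ 2 := by ring
          _ = (α * b + β * by' + γ * (2 * Qo)) ^ 2 := by rw [e1]
          _ = (α * b + β * by') ^ 2 + 4 * Qo * (α * γ * b + β * γ * by' + γ ^ 2 * Qo) := by ring
          _ = _ := by rw [e2]; ring
      have hcp : c p = α / β := rfl
      have hn : Bpo ^ 2 = lam ^ 2 * (b ^ 2 * (c p) ^ 2 + (2 * b * by' - 4 * Qo * Bxy) * c p + by' ^ 2) := by
        rw [hcp, hlam]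
        field_simp
        linear_combination hdisc
      -- conclusion
      have hsqA : (∏ r ∈ A, (c p - c r)) ^ 2 = PA ^ 2 := by
        rw [hPA, ← Finset.prod_pow, ← Finset.prod_pow]
        apply Finset.prod_congr rfl
        intro r _
        ring
      have hsqN : (∏ a ∈ N, (c p - a)) ^ 2 = PN ^ 2 := by
        rw [hPN, ← Finset.prod_pow, ← Finset.prod_pow]
        apply Finset.prod_congr rfl
        intro r _
        ring
      rw [hsqA, hsqN]
      set nn := b ^ 2 * (c p) ^ 2 + (2 * b * by' - 4 * Qo * Bxy) * c p + by' ^ 2 with hnn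
      have e5 : lam ^ 2 * (nn * PA ^ 2) = lam ^ 2 * (b ^ 2 * PN ^ 2) := by
        have e6 : PA = -(PT * PN) := by linear_combination hrel
        calc lam ^ 2 * (nn * PA ^ 2) = (lam ^ 2 * nn) * PT ^ 2 * PN ^ 2 := by rw [e6]; ring
          _ = Bpo ^ 2 * PT ^ 2 * PN ^ 2 := by rw [← hn]
          _ = (PT * Bpo) ^ 2 * PN ^ 2 := by ring
          _ = (lam * b) ^ 2 * PN ^ 2 := by rw [hs2]
          _ = _ := by ring
      exact mul_left_cancel₀ (pow_ne_zero 2 hlam0) e5
    · intro r hr hcN
      rw [hNIm] at hcN
      exact (Finset.mem_sdiff.mp hcN).2 (Finset.mem_image_of_mem c (Finset.mem_sdiff.mp hr).1)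
  have : 1 ≤ G.card := Finset.card_pos.mpr ⟨x, hxG⟩
  omega

end Pool.Agent.H73G
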