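import Pool.Agent.H73G.Half

/-!
# Lines through a point off the conic with two points of the set on the conic
-/

set_option autoImplicit false
set_option linter.unusedSectionVars false

namespace Pool.Agent.H73G

variable {F : Type} [Field F] [Fintype F] [DecidableEq F] {ι : Type} {S : Finset ι}
  {w : ι → Fin 3 → F} {x y z : ι} {f g h : Fin 3 → F}

theorem Base.tanpt' (H : Base S w x y z f g h) (v : Fin 3 → F)
    (hv : QQ w x y z f h v = 0) (h1 : dot f v = 0) :
    ∃ s : F, v = fun i => s * w x i - 0 * w x i := by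
  have hD := H.D
  have e1 := H.ff v
  have cr1 := cramer (w x) (w y) (w z) v
  unfold QQ Q at hv
  set D := det3 (w x) (w y) (w z) with hDdef
  set α := det3 v (w y) (w z)
  set β := det3 (w x) v (w z)
  set γ := det3 (w x) (w y) v
  have f_y := H.fy
  have f_z := H.fz
  have h_x := H.hx'
  have h_y := H.hy'
  rw [h1, zero_mul] at e1
  have h2 : (dot f (w z) * dot h (w y)) * (β * γ) = 0 := by
    linear_combination hv + α * dot h (w x) * e1
  have h3 : dot f (w z) * dot h (w y) ≠ 0 := by positivity
  have h4 := (mul_eq_zero.mp h2).resolve_left h3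
  have h5 : β = 0 ∧ γ = 0 := by
    rcases mul_eq_zero.mp h4 with h | h
    · refine ⟨h, ?_⟩
      rw [h, mul_zero, zero_add] at e1
      exact (mul_eq_zero.mp e1.symm).resolve_left f_z
    · refine ⟨?_, h⟩
      rw [h, mul_zero, add_zero] at e1
      exact (mul_eq_zero.mp e1.symm).resolve_left f_y
  refine ⟨α / D, ?_⟩
  funext i
  have h6 := cr1 i
  rw [h5.1, h5.2] at h6
  field_simp
  linear_combination h6

/-- the parameter of a point of the conic -/
def par (w : ι → Fin 3 → F) (x y : ι) (f v : Fin 3 → F) : Option F :=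
  if dot f v = 0 then none else some (det3 (w x) (w y) v / dot f v)

theorem Base.par_inj (H : Base S w x y z f g h) (v v' : Fin 3 → F)
    (hv : QQ w x y z f h v = 0) (hv' : QQ w x y z f h v' = 0)
    (he : par w x y f v = par w x y f v') : ∀ u, det3 v v' u = 0 := by
  unfold par at he
  by_cases h1 : dot f v = 0 <;> by_cases h2 : dot f v' = 0
  · obtain ⟨s, hs⟩ := H.tanpt' v hv h1
    obtain ⟨s', hs'⟩ := H.tanpt' v' hv' h2
    intro u
    rw [hs, hs']
    unfold det3
    ring
  · simp [h1, h2] at he
  · simp [h1, h2] at he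
  · simp only [h1, h2, if_false, Option.some.injEq] at he
    exact H.inj v v' hv hv' h1 h2 he

/-- the polar form is linear in the first argument -/
theorem BB_lin (w : ι → Fin 3 → F) (x y z : ι) (f h : Fin 3 → F) (o : Fin 3 → F) :
    ∃ φ : Fin 3 → F, ∀ v, BB w x y z f h v o = dot φ v := by
  refine ⟨fun i => BB w x y z f h (Pi.single i 1) o, ?_⟩
  intro v
  unfold dot BB B det3
  simp
  ring

theorem Base.twolines (H : Base S w x y z f g h) (htan : ∀ p, Good S w p → ∃ k, Tan S w p k)
    (hdist : ∀ p ∈ S, ∀ r ∈ S, p ≠ r → ∃ u, det3 (w p) (w r) u ≠ 0) {o : ι}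
    (ho : o ∈ S) (hQ : QQ w x y z f h (w o) ≠ 0) (E D E2 : Finset ι)
    (hE : ∀ p, p ∈ E ↔ p ∈ S ∧ QQ w x y z f h (w p) = 0)
    (hDE : E.card + D.card = S.card)
    (hE2 : ∀ e, e ∈ E2 ↔ e ∈ E ∧ ∃ e' ∈ E, e' ≠ e ∧ det3 (w o) (w e) (w e') = 0) :
    Fintype.card F ≤ E2.card + 2 * D.card + 1 := by
  classical
  have hoE : ∀ e ∈ E, o ≠ e := by
    rintro e he rfl
    exact hQ ((hE _).mp he).2
  set E1 := E.filter (fun e => ¬ ∃ e' ∈ E, e' ≠ e ∧ det3 (w o) (w e) (w e') = 0) with hE1
  have hsplit : E2.card + E1.card = E.card := by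
    have : E2 = E.filter (fun e => ∃ e' ∈ E, e' ≠ e ∧ det3 (w o) (w e) (w e') = 0) := by
      ext e
      rw [hE2, Finset.mem_filter]
    rw [this, hE1, Finset.card_filter_add_card_filter_not]
  set E3 := E.filter (fun e => BB w x y z f h (w e) (w o) = 0) with hE3
  set E4 := E1.filter (fun e => BB w x y z f h (w e) (w o) ≠ 0) with hE4
  have hE1le : E1.card ≤ E3.card + E4.card := by
    have : E1 ⊆ E3 ∪ E4 := by
      intro e he
      rw [Finset.mem_union, hE3, hE4, Finset.mem_filter, Finset.mem_filter]
      by_cases hb : BB w x y z f h (w e) (w o) = 0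
      · exact Or.inl ⟨(Finset.mem_filter.mp he).1, hb⟩
      · exact Or.inr ⟨he, hb⟩
    exact (Finset.card_le_card this).trans (Finset.card_union_le _ _)
  have hE3c : E3.card ≤ 2 := by
    by_contra hlt
    push Not at hlt
    rw [Finset.two_lt_card] at hlt
    obtain ⟨p, hp, q, hq, r, hr, hpq, hpr, hqr⟩ := hlt
    obtain ⟨hpE, hpB⟩ := Finset.mem_filter.mp hp
    obtain ⟨hqE, hqB⟩ := Finset.mem_filter.mp hq
    obtain ⟨hrE, hrB⟩ := Finset.mem_filter.mp hr
    obtain ⟨hpS, hpQ⟩ := (hE p).mp hpE
    obtain ⟨hqS, hqQ⟩ := (hE q).mp hqE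
    obtain ⟨hrS, hrQ⟩ := (hE r).mp hrE
    obtain ⟨φ, hφ⟩ := BB_lin w x y z f h (w o)
    have hx0 : BB w x y z f h (w x) (w o) ≠ 0 := by
      obtain ⟨k, hk⟩ := htan x H.hx
      apply (H.Qgood H.hx hk).2 o ho
      rintro rfl
      obtain ⟨k, hk⟩ := htan o H.hx
      exact hQ (H.Qgood H.hx hk).1
    have h0 : det3 (w p) (w q) (w r) = 0 := by
      have := dot_expand φ (w p) (w q) (w r) (w x)
      rw [← hφ, ← hφ, ← hφ, ← hφ, hpB, hqB, hrB] at this
      have h1 : BB w x y z f h (w x) (w o) * det3 (w p) (w q) (w r) = 0 := by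
        rw [this]; ring
      exact (mul_eq_zero.mp h1).resolve_left hx0
    exact H.arc hpS hqS hrS hpq hpr hqr h0 hpQ hqQ hrQ
  have hE4c : E.card + E4.card ≤ Fintype.card F + 1 := by
    have h1 : (E.image (fun e => par w x y f (w e))).card = E.card := by
      apply Finset.card_image_of_injOn
      intro e he e' he' hee
      have hp1 := (hE e).mp (Finset.mem_coe.mp he)
      have hp2 := (hE e').mp (Finset.mem_coe.mp he')
      by_contra hne
      obtain ⟨u, hu⟩ := hdist e hp1.1 e' hp2.1 hne
      exact hu (H.par_inj _ _ hp1.2 hp2.2 hee u)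
    have key : ∀ e ∈ E4, ∀ e' ∈ E, det3 (w e) (w e') (w o) = 0 → e' = e := by
      intro e he e' he' h0
      have he1 := (Finset.mem_filter.mp he).1
      have he2 := (Finset.mem_filter.mp he1).2
      by_contra hne
      apply he2
      refine ⟨e', he', hne, ?_⟩
      rw [← h0]; unfold det3; ring
    have hE4E : ∀ e ∈ E4, e ∈ E := fun e he =>
      (Finset.mem_filter.mp (Finset.mem_filter.mp he).1).1
    have h2 : (E4.image (fun e => par w x y f (refl w x y z f h o e))).card = E4.card := by
      apply Finset.card_image_of_injOn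
      intro e he e' he' hee
      have heE := hE4E e (Finset.mem_coe.mp he)
      have heE' := hE4E e' (Finset.mem_coe.mp he')
      have h3 := H.par_inj _ _ (Q_refl o e ((hE e).mp heE).2) (Q_refl o e' ((hE e').mp heE').2) hee (w o)
      unfold refl at h3
      rw [det3_lin1, det3_lin2, det3_lin2, det3_same23, det3_same12] at h3
      have h4 : det3 (w o) (w e') (w o) = 0 := det3_same13 _ _
      rw [h4] at h3
      have h5 : QQ w x y z f h (w o) ^ 2 * det3 (w e) (w e') (w o) = 0 := by linear_combination h3
      exact (key e (Finset.mem_coe.mp he) e' heE' ((mul_eq_zero.mp h5).resolve_left (pow_ne_zero 2 hQ))).symm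
    have h3 : Disjoint (E.image (fun e => par w x y f (w e)))
        (E4.image (fun e => par w x y f (refl w x y z f h o e))) := by
      rw [Finset.disjoint_left]
      intro a ha ha'
      obtain ⟨e', he', hea'⟩ := Finset.mem_image.mp ha
      obtain ⟨e, he, hea⟩ := Finset.mem_image.mp ha'
      have heE := hE4E e he
      have h4 := H.par_inj _ _ ((hE e').mp he').2 (Q_refl o e ((hE e).mp heE).2) (hea'.trans hea.symm)
      have h5 := h4 (w o)
      unfold refl at h5
      rw [det3_lin2, det3_same23] at h5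
      have h6 : QQ w x y z f h (w o) * det3 (w e) (w e') (w o) = 0 := by
        have : det3 (w e') (w e) (w o) = - det3 (w e) (w e') (w o) := by unfold det3; ring
        rw [this] at h5
        linear_combination -h5
      have h7 := key e he e' he' ((mul_eq_zero.mp h6).resolve_left hQ)
      subst h7
      obtain ⟨u, hu⟩ := hdist o ho e' ((hE e').mp he').1 (hoE e' he')
      have h8 := h4 u
      unfold refl at h8
      rw [det3_lin2, det3_same12] at h8
      have h9 : BB w x y z f h (w e') (w o) * det3 (w o) (w e') u = 0 := by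
        have : det3 (w e') (w o) u = - det3 (w o) (w e') u := by unfold det3; ring
        rw [this] at h8
        linear_combination h8
      exact (Finset.mem_filter.mp he).2 ((mul_eq_zero.mp h9).resolve_right hu)
    rw [← h1, ← h2, ← Finset.card_union_of_disjoint h3]
    have := Finset.card_le_univ (E.image (fun e => par w x y f (w e)) ∪
        E4.image (fun e => par w x y f (refl w x y z f h o e)))
    rwa [Fintype.card_option] at this
  have := H.card
  omega

end Pool.Agent.H73G
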