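import Pool.Agent.H73G.Count
import Pool.Agent.H73G.Tc
import Pool.Agent.H73G.Two

/-!
# The upper bounds
-/

set_option autoImplicit false
set_option linter.unusedSectionVars false

namespace Pool.Agent.H73G

open Configuration
open scoped LinearAlgebra.Projectivization

variable {F : Type} [Field F] [Fintype F] [DecidableEq F]

/-- number of tangents at `P` -/
noncomputable def tg (S : Finset (PG F)) (P : PG F) : ℕ :=
  (Finset.univ.filter (fun l : PG F => P.orthogonal l ∧ cn S l = 1)).card

/-- number of the other lines through `P` -/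
noncomputable def nt (S : Finset (PG F)) (P : PG F) : Finset (PG F) :=
  Finset.univ.filter (fun l : PG F => P.orthogonal l ∧ ¬ cn S l = 1)

theorem tg_nt (S : Finset (PG F)) (P : PG F) : tg S P + (nt S P).card = Fintype.card F + 1 := by
  rw [← lines_pt P]
  unfold tg nt
  rw [← Finset.filter_filter, ← Finset.filter_filter, Finset.card_filter_add_card_filter_not]

theorem nt_exists (S : Finset (PG F)) (P : PG F) (hP : P ∈ S) (l : PG F) (hl : l ∈ nt S P) :
    ∃ R ∈ S, R ≠ P ∧ R.orthogonal l := by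
  obtain ⟨_, h1, h2⟩ := Finset.mem_filter.mp hl
  by_contra hcon
  push Not at hcon
  apply h2
  unfold cn
  rw [Finset.card_eq_one]
  refine ⟨P, ?_⟩
  ext R
  rw [Finset.mem_filter, Finset.mem_singleton]
  constructor
  · rintro ⟨hR, hRl⟩
    by_contra hne
    exact hcon R hR hne hRl
  · rintro rfl
    exact ⟨hP, h1⟩

theorem tg_pos (S : Finset (PG F)) (hS : S.card = Fintype.card F + 1) (P : PG F) (hP : P ∈ S) :
    1 ≤ tg S P := by
  obtain ⟨l, h1, h2⟩ := exists_tan S hS P hP
  unfold tg
  rw [Nat.succ_le_iff, Finset.card_pos]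
  refine ⟨l, Finset.mem_filter.mpr ⟨Finset.mem_univ _, h1, ?_⟩⟩
  unfold cn
  rw [Finset.card_eq_one]
  refine ⟨P, ?_⟩
  ext R
  rw [Finset.mem_filter, Finset.mem_singleton]
  constructor
  · rintro ⟨hR, hRl⟩
    by_contra hne
    exact h2 R hR hne hRl
  · rintro rfl
    exact ⟨hP, h1⟩

theorem tg_bad (S : Finset (PG F)) (hS : S.card = Fintype.card F + 1) (P : PG F) (hP : P ∈ S)
    (hb : ¬ Good S rp P) : 2 ≤ tg S P := by
  unfold Good at hb
  push Not at hb
  obtain ⟨R, hR, T, hT, h1, h2, h3, h0⟩ := hb hP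
  obtain ⟨m, m1, m2, m3⟩ := (coll_iff P R T).mp h0
  have hex : ∀ l : PG F, ∃ U : PG F, l ∈ nt S P → U ∈ S ∧ U ≠ P ∧ U ≠ R ∧ U.orthogonal l := by
    intro l
    by_cases hl : l ∈ nt S P
    · obtain ⟨U, hU, hUP, hUl⟩ := nt_exists S P hP l hl
      have hPl := (Finset.mem_filter.mp hl).2.1
      by_cases hUR : U = R
      · subst hUR
        have : l = m := line_unique h1.symm hPl hUl m1 m2
        refine ⟨T, fun _ => ⟨hT, h2, h3.symm, ?_⟩⟩
        rw [this]; exact m3
      · exact ⟨U, fun _ => ⟨hU, hUP, hUR, hUl⟩⟩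
    · exact ⟨P, fun h => absurd h hl⟩
  choose φ hφ using hex
  have hle : (nt S P).card ≤ ((S.erase P).erase R).card := by
    apply Finset.card_le_card_of_injOn φ
    · intro l hl
      have := hφ l (Finset.mem_coe.mp hl)
      exact Finset.mem_coe.mpr (Finset.mem_erase.mpr ⟨this.2.2.1, Finset.mem_erase.mpr ⟨this.2.1, this.1⟩⟩)
    · intro l hl l' hl' he
      have a1 := hφ l (Finset.mem_coe.mp hl)
      have a2 := hφ l' (Finset.mem_coe.mp hl')
      rw [← he] at a2
      exact line_unique (Ne.symm a1.2.1) (Finset.mem_filter.mp (Finset.mem_coe.mp hl)).2.1 a1.2.2.2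
        (Finset.mem_filter.mp (Finset.mem_coe.mp hl')).2.1 a2.2.2.2
  have e1 : (S.erase P).card + 1 = S.card := Finset.card_erase_add_one hP
  have e2 : ((S.erase P).erase R).card + 1 = (S.erase P).card :=
    Finset.card_erase_add_one (Finset.mem_erase.mpr ⟨h1, hR⟩)
  have := tg_nt S P
  omega

theorem sum_tg (S : Finset (PG F)) :
    ∑ P ∈ S, (tg S P : ℤ) = ∑ l : PG F, if cn S l = 1 then (1 : ℤ) else 0 := by
  have h1 : ∀ P ∈ S, (tg S P : ℤ) = ∑ l : PG F, if P.orthogonal l ∧ cn S l = 1 then (1 : ℤ) else 0 := by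
    intro P _
    unfold tg
    rw [Finset.sum_boole]
  rw [Finset.sum_congr rfl h1, Finset.sum_comm]
  apply Finset.sum_congr rfl
  intro l _
  by_cases hl : cn S l = 1
  · rw [if_pos hl]
    have : ∑ P ∈ S, (if P.orthogonal l ∧ cn S l = 1 then (1 : ℤ) else 0) =
        ∑ P ∈ S, if P.orthogonal l then (1 : ℤ) else 0 := by
      apply Finset.sum_congr rfl
      intro P _
      simp [hl]
    rw [this, Finset.sum_boole]
    have : (S.filter (fun P => P.orthogonal l)).card = 1 := hl
    rw [this]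
    norm_num
  · rw [if_neg hl]
    apply Finset.sum_eq_zero
    intro P _
    rw [if_neg (fun h => hl h.2)]

theorem tg_total (S : Finset (PG F)) (hS : S.card = Fintype.card F + 1) :
    2 * ∑ P ∈ S, (tg S P : ℤ) ≤ 2 * (Fintype.card F + 1) + 3 * ∑ l : PG F, ex S l := by
  rw [sum_tg]
  have h1 := sum_cn S
  have h2 := sum_cn_sq S
  rw [hS] at h1 h2
  have h3 : ∀ l : PG F, 2 * (if cn S l = 1 then (1 : ℤ) else 0) ≤
      3 * ex S l - 2 * (cn S l : ℤ) ^ 2 + 4 * cn S l := by
    intro l
    unfold ex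
    rcases Nat.lt_or_ge (cn S l) 3 with h | h
    · interval_cases hh : cn S l <;> norm_num
    · rw [if_pos h, if_neg (by omega)]
      have : (3 : ℤ) ≤ cn S l := by exact_mod_cast h
      nlinarith
  have h4 := Finset.sum_le_sum (fun l (_ : l ∈ (Finset.univ : Finset (PG F))) => h3 l)
  rw [← Finset.mul_sum, Finset.sum_add_distrib, Finset.sum_sub_distrib, ← Finset.mul_sum,
    ← Finset.mul_sum, ← Finset.mul_sum, h1, h2] at h4
  push_cast at h4
  linarith

theorem rp_dist (P R : PG F) (h : P ≠ R) : ∃ u, det3 (rp P) (rp R) u ≠ 0 := by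
  by_contra hcon
  push Not at hcon
  apply h
  rw [← P.mk_rep, ← R.mk_rep]
  rw [Projectivization.mk_eq_mk_iff_crossProduct_eq_zero]
  have h0 := hcon ![1, 0, 0]
  have h1 := hcon ![0, 1, 0]
  have h2 := hcon ![0, 0, 1]
  unfold det3 rp at h0 h1 h2
  simp at h0 h1 h2
  rw [cross_apply]
  funext i
  fin_cases i
  · simp; linear_combination h0
  · simp; linear_combination h1
  · simp; linear_combination h2

/-- the pairs off the conic / on the conic -/
theorem pairs (S E D : Finset (PG F)) (hcn : ∀ l, cn S l = (E.filter (fun P => P.orthogonal l)).card +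
    (D.filter (fun P => P.orthogonal l)).card)
    (hE : ∀ l, (E.filter (fun P => P.orthogonal l)).card ≤ 2) (E2 : PG F → Finset (PG F))
    (hE2 : ∀ o ∈ D, ∀ e ∈ E2 o, e ∈ E ∧ ∃ e' ∈ E, e' ≠ e ∧ det3 (rp o) (rp e) (rp e') = 0) :
    ∑ o ∈ D, ((E2 o).card : ℤ) ≤ ∑ l : PG F, ex S l := by
  classical
  have h1 : ∀ o ∈ D, ((E2 o).card : ℤ) ≤ ∑ l : PG F,
      if o.orthogonal l ∧ 2 ≤ (E.filter (fun P => P.orthogonal l)).card then (2 : ℤ) else 0 := by
    intro o ho
    set LL := Finset.univ.filter (fun l : PG F => o.orthogonal l ∧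
      2 ≤ (E.filter (fun P => P.orthogonal l)).card) with hLL
    have hsub : E2 o ⊆ LL.biUnion (fun l => E.filter (fun P => P.orthogonal l)) := by
      intro e he
      obtain ⟨heE, e', he', hne, h0⟩ := hE2 o ho e he
      obtain ⟨l, l1, l2, l3⟩ := (coll_iff o e e').mp h0
      rw [Finset.mem_biUnion]
      refine ⟨l, ?_, Finset.mem_filter.mpr ⟨heE, l2⟩⟩
      rw [hLL, Finset.mem_filter]
      refine ⟨Finset.mem_univ _, l1, ?_⟩
      rw [Nat.succ_le_iff, Finset.one_lt_card]
      exact ⟨e, Finset.mem_filter.mpr ⟨heE, l2⟩, e', Finset.mem_filter.mpr ⟨he', l3⟩, hne.symm⟩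
    have hle : (E2 o).card ≤ ∑ l ∈ LL, (E.filter (fun P => P.orthogonal l)).card :=
      (Finset.card_le_card hsub).trans Finset.card_biUnion_le
    have hle2 : (E2 o).card ≤ ∑ l ∈ LL, 2 := hle.trans (Finset.sum_le_sum (fun l _ => hE l))
    have : ∑ l : PG F, (if o.orthogonal l ∧ 2 ≤ (E.filter (fun P => P.orthogonal l)).card
        then (2 : ℤ) else 0) = ∑ l ∈ LL, (2 : ℤ) := by
      rw [hLL, Finset.sum_filter]
    rw [this]
    exact_mod_cast hle2
  refine (Finset.sum_le_sum h1).trans ?_
  rw [Finset.sum_comm]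
  apply Finset.sum_le_sum
  intro l _
  by_cases hl : 2 ≤ (E.filter (fun P => P.orthogonal l)).card
  · have e1 : ∑ o ∈ D, (if o.orthogonal l ∧ 2 ≤ (E.filter (fun P => P.orthogonal l)).card
        then (2 : ℤ) else 0) = 2 * ((D.filter (fun P => P.orthogonal l)).card : ℤ) := by
      rw [← Finset.sum_boole, Finset.mul_sum]
      apply Finset.sum_congr rfl
      intro o _
      by_cases ho : o.orthogonal l <;> simp [ho, hl]
    rw [e1]
    have e2 := hcn l
    have e3 := hE l
    unfold ex
    set k := (D.filter (fun P => P.orthogonal l)).card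
    have e4 : cn S l = 2 + k := by omega
    rw [e4]
    split_ifs with h3
    · push_cast
      have : (1 : ℤ) ≤ k := by
        have : 1 ≤ k := by omega
        exact_mod_cast this
      nlinarith
    · have : k = 0 := by omega
      rw [this]; simp
  · rw [Finset.sum_eq_zero]
    · exact ex_nonneg S l
    · intro o _
      rw [if_neg (fun h => hl h.2)]

/-- the tangents at a point off the conic -/
theorem tg_slopes (S : Finset (PG F)) {x y o : PG F} (ho : o ∈ S)
    (hxgood : Good S rp x) (hy : y ∈ S) (hyx : y ≠ x) (hox : o ≠ x) (hoy : o ≠ y) (N : Finset F)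
    (hN : ∀ a, a ∈ N ↔ ∀ r ∈ S, r ≠ o → r ≠ x → slo rp x y o r ≠ a) :
    N.card ≤ tg S o := by
  classical
  have hdx : ∀ r ∈ S, r ≠ o → r ≠ x → det3 (rp o) (rp x) (rp r) ≠ 0 := by
    intro r hr hro hrx
    have := hxgood.2 r hr o ho hrx hox hro
    intro h; apply this; rw [← h]; unfold det3; ring
  have hD1 := hdx y hy hoy.symm hyx
  have hex : ∀ l : PG F, ∃ r : PG F, l ∈ nt S o → r ∈ S ∧ r ≠ o ∧ r.orthogonal l := by
    intro l
    by_cases hl : l ∈ nt S o
    · obtain ⟨r, h1, h2, h3⟩ := nt_exists S o ho l hl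
      exact ⟨r, fun _ => ⟨h1, h2, h3⟩⟩
    · exact ⟨o, fun h => absurd h hl⟩
  choose φ hφ using hex
  have hle : (nt S o).card ≤ (Finset.insertNone (Finset.univ \ N)).card := by
    apply Finset.card_le_card_of_injOn (fun l => if φ l = x then none else some (slo rp x y o (φ l)))
    · intro l hl
      have a1 := hφ l (Finset.mem_coe.mp hl)
      rw [Finset.mem_coe]
      by_cases hx : φ l = x
      · simp [hx]
      · simp only [hx, if_false, Finset.some_mem_insertNone, Finset.mem_sdiff, Finset.mem_univ, true_and]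
        intro h
        exact (hN _).mp h (φ l) a1.1 a1.2.1 hx rfl
    · intro l hl l' hl' he
      have a1 := hφ l (Finset.mem_coe.mp hl)
      have a2 := hφ l' (Finset.mem_coe.mp hl')
      have ol := (Finset.mem_filter.mp (Finset.mem_coe.mp hl)).2.1
      have ol' := (Finset.mem_filter.mp (Finset.mem_coe.mp hl')).2.1
      simp only at he
      by_cases hx : φ l = x <;> by_cases hx' : φ l' = x
      · have e : φ l = φ l' := hx.trans hx'.symm
        rw [← e] at a2
        exact line_unique (Ne.symm a1.2.1) ol a1.2.2 ol' a2.2.2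
      · simp [hx, hx'] at he
      · simp [hx, hx'] at he
      · simp only [hx, hx', if_false, Option.some.injEq] at he
        have h1 := hdx _ a1.1 a1.2.1 hx
        have h2 := hdx _ a2.1 a2.2.1 hx'
        unfold slo at he
        rw [div_eq_div_iff h1 h2] at he
        have h3 := plucker (rp o) (rp x) (rp y) (rp (φ l)) (rp (φ l'))
        have h4 : det3 (rp o) (rp (φ l)) (rp (φ l')) * det3 (rp o) (rp x) (rp y) = 0 := by
          linear_combination he - h3
        have h5 := (mul_eq_zero.mp h4).resolve_right hD1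
        obtain ⟨m, m1, m2, m3⟩ := (coll_iff _ _ _).mp h5
        rw [line_unique (Ne.symm a1.2.1) ol a1.2.2 m1 m2, line_unique (Ne.symm a2.2.1) ol' a2.2.2 m1 m3]
  rw [Finset.card_insertNone, Finset.card_sdiff_of_subset (Finset.subset_univ _), Finset.card_univ] at hle
  have h1 := tg_nt S o
  have h2 := Finset.card_le_univ N
  omega

/-- **Theorem.** A `(q+1)`-set with a collinear triple and at least five points on no collinear triple. -/
theorem five (h2 : (2 : F) ≠ 0) (S : Finset (PG F)) (hS : S.card = Fintype.card F + 1)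
    {p q r : PG F} (hp : p ∈ S) (hq : q ∈ S) (hr : r ∈ S) (hpq : p ≠ q) (hpr : p ≠ r) (hqr : q ≠ r)
    (hc : det3 (rp p) (rp q) (rp r) = 0) (G : Finset (PG F)) (hG : ∀ P, P ∈ G ↔ Good S rp P)
    (h5 : 5 ≤ G.card) : (Fintype.card F : ℤ) - 3 ≤ ∑ l : PG F, ex S l := by
  classical
  obtain ⟨x, hx, y, hy, z, hz, hxy, hxz, hyz⟩ := Finset.two_lt_card.mp (show 2 < G.card by omega)
  have gx := (hG x).mp hx
  have gy := (hG y).mp hy
  have gz := (hG z).mp hz
  obtain ⟨f, hf⟩ := tan_exists S hS x gx.1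
  obtain ⟨g, hg⟩ := tan_exists S hS y gy.1
  obtain ⟨h, hh⟩ := tan_exists S hS z gz.1
  have H : Base S rp x y z f g h := ⟨hS, h2, gx, gy, gz, hxy, hxz, hyz, hf, hg, hh⟩
  have htan : ∀ p, Good S rp p → ∃ k, Tan S rp p k := fun p hp => tan_exists S hS p hp.1
  have hgood : ∀ p, Good S rp p → QQ rp x y z f h (rp p) = 0 := by
    intro p hp
    obtain ⟨k, hk⟩ := htan p hp
    exact (H.Qgood hp hk).1
  obtain ⟨o₀, ho₀, hQ₀⟩ : ∃ o ∈ S, QQ rp x y z f h (rp o) ≠ 0 := by
    by_cases Kp : QQ rp x y z f h (rp p) = 0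
    · by_cases Kq : QQ rp x y z f h (rp q) = 0
      · exact ⟨r, hr, H.arc hp hq hr hpq hpr hqr hc Kp Kq⟩
      · exact ⟨q, hq, Kq⟩
    · exact ⟨p, hp, Kp⟩
  have hhalf := H.half htan ho₀ hQ₀ G (fun p hp => (hG p).mp hp) hx
  set E := S.filter (fun P => QQ rp x y z f h (rp P) = 0) with hE
  set D := S.filter (fun P => ¬ QQ rp x y z f h (rp P) = 0) with hD
  have hED : E.card + D.card = S.card := by
    rw [hE, hD, Finset.card_filter_add_card_filter_not]
  have hDpos : 1 ≤ D.card := by
    rw [Nat.succ_le_iff, Finset.card_pos]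
    exact ⟨o₀, Finset.mem_filter.mpr ⟨ho₀, hQ₀⟩⟩
  have hodd : Odd (Fintype.card F) := by
    have h3 : Fintype.card F % 2 = 1 := by
      apply FiniteField.odd_card_of_char_ne_two
      intro hch
      apply h2
      have := ringChar.Nat.cast_ringChar (R := F)
      rw [hch] at this
      exact_mod_cast this
    exact Nat.odd_iff.mpr h3
  rcases Nat.lt_or_ge (2 * D.card + 1) (Fintype.card F) with hlt | hge
  · -- few points off the conic
    have hElin : ∀ l : PG F, (E.filter (fun P => P.orthogonal l)).card ≤ 2 := by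
      intro l
      by_contra hcon
      push Not at hcon
      obtain ⟨a, ha, b, hb, c, hc', hab, hac, hbc⟩ := Finset.two_lt_card.mp hcon
      obtain ⟨ha1, ha2⟩ := Finset.mem_filter.mp ha
      obtain ⟨hb1, hb2⟩ := Finset.mem_filter.mp hb
      obtain ⟨hc1, hc2⟩ := Finset.mem_filter.mp hc'
      have h0 : det3 (rp a) (rp b) (rp c) = 0 := (coll_iff a b c).mpr ⟨l, ha2, hb2, hc2⟩
      obtain ⟨ha3, ha4⟩ := Finset.mem_filter.mp ha1
      obtain ⟨hb3, hb4⟩ := Finset.mem_filter.mp hb1
      obtain ⟨hc3, hc4⟩ := Finset.mem_filter.mp hc1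
      exact H.arc ha3 hb3 hc3 hab hac hbc h0 ha4 hb4 hc4
    have hcn : ∀ l, cn S l = (E.filter (fun P => P.orthogonal l)).card +
        (D.filter (fun P => P.orthogonal l)).card := by
      intro l
      unfold cn
      rw [hE, hD, Finset.filter_comm, Finset.filter_comm (fun P => ¬ QQ rp x y z f h (rp P) = 0)]
      exact (Finset.card_filter_add_card_filter_not _).symm
    set E2 : PG F → Finset (PG F) := fun o =>
      E.filter (fun e => ∃ e' ∈ E, e' ≠ e ∧ det3 (rp o) (rp e) (rp e') = 0) with hE2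
    have hpairs := pairs S E D hcn hElin E2 (by
      intro o _ e he
      exact Finset.mem_filter.mp he)
    have hlow : ∀ o ∈ D, (Fintype.card F : ℤ) - 1 - 2 * D.card ≤ ((E2 o).card : ℤ) := by
      intro o ho
      obtain ⟨ho1, ho2⟩ := Finset.mem_filter.mp ho
      have := H.twolines htan (fun p _ r _ hpr => rp_dist p r hpr) ho1 ho2 E D (E2 o)
        (fun p => Finset.mem_filter) hED (fun e => Finset.mem_filter)
      have h3 : (Fintype.card F : ℤ) ≤ (E2 o).card + 2 * D.card + 1 := by exact_mod_cast this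
      linarith
    have hsum := Finset.sum_le_sum hlow
    rw [Finset.sum_const, nsmul_eq_mul] at hsum
    obtain ⟨m, hm⟩ := hodd
    have hdm : (D.card : ℤ) + 1 ≤ m := by
      have : D.card + 1 ≤ m := by omega
      exact_mod_cast this
    have hq : (Fintype.card F : ℤ) = 2 * m + 1 := by exact_mod_cast hm
    have hd1 : (1 : ℤ) ≤ D.card := by exact_mod_cast hDpos
    rw [hq] at hsum ⊢
    nlinarith [mul_nonneg (sub_nonneg.mpr hd1) (sub_nonneg.mpr hdm)]
  · -- many points off the conic
    set hh' := (G.card + 1) / 2 with hhh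
    have htgD : ∀ o ∈ D, hh' ≤ tg S o := by
      intro o ho
      obtain ⟨ho1, ho2⟩ := Finset.mem_filter.mp ho
      have hobad : ¬ Good S rp o := fun hgo => ho2 (hgood o hgo)
      have hox : o ≠ x := by rintro rfl; exact hobad gx
      have hoy : o ≠ y := by rintro rfl; exact hobad gy
      set N := Finset.univ.filter (fun a : F => ∀ r ∈ S, r ≠ o → r ≠ x → slo rp x y o r ≠ a) with hN
      have hNm : ∀ a, a ∈ N ↔ ∀ r ∈ S, r ≠ o → r ≠ x → slo rp x y o r ≠ a := by
        intro a
        rw [hN, Finset.mem_filter]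
        simp
      have h3 := tg_slopes S ho1 gx gy.1 hxy.symm hox hoy N hNm
      have hbad' : ∃ r ∈ S, ∃ t ∈ S, r ≠ o ∧ t ≠ o ∧ r ≠ t ∧ det3 (rp o) (rp r) (rp t) = 0 := by
        unfold Good at hobad
        push Not at hobad
        obtain ⟨R, hR, T, hT, k1, k2, k3, k0⟩ := hobad ho1
        exact ⟨R, hR, T, hT, k1, k2, k3, k0⟩
      have h4 := H.tc htan ho1 ho2 hbad' G (fun p hp => (hG p).mp hp) hx N hNm
      omega
    have hpt : ∀ P ∈ S, (2 : ℤ) - (if P ∈ G then 1 else 0) + ((hh' : ℤ) - 2) * (if P ∈ D then 1 else 0)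
        ≤ (tg S P : ℤ) := by
      intro P hP
      by_cases hPG : P ∈ G
      · have hPD : P ∉ D := by
          intro h
          exact (Finset.mem_filter.mp h).2 (hgood P ((hG P).mp hPG))
        rw [if_pos hPG, if_neg hPD]
        have : (1 : ℤ) ≤ tg S P := by exact_mod_cast tg_pos S hS P hP
        linarith
      · by_cases hPD : P ∈ D
        · rw [if_neg hPG, if_pos hPD]
          have : (hh' : ℤ) ≤ tg S P := by exact_mod_cast htgD P hPD
          linarith
        · rw [if_neg hPG, if_neg hPD]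
          have : (2 : ℤ) ≤ tg S P := by
            exact_mod_cast tg_bad S hS P hP (fun hgo => hPG ((hG P).mpr hgo))
          linarith
    have hsum := Finset.sum_le_sum hpt
    have hGS : ∑ P ∈ S, (if P ∈ G then (1 : ℤ) else 0) = G.card := by
      rw [Finset.sum_boole]
      congr 2
      ext P
      rw [Finset.mem_filter]
      constructor
      · exact fun h => h.2
      · exact fun h => ⟨((hG P).mp h).1, h⟩
    have hDS : ∑ P ∈ S, (if P ∈ D then (1 : ℤ) else 0) = D.card := by
      rw [Finset.sum_boole]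
      congr 2
      ext P
      rw [Finset.mem_filter]
      constructor
      · exact fun h => h.2
      · exact fun h => ⟨(Finset.mem_filter.mp h).1, h⟩
    rw [Finset.sum_add_distrib, Finset.sum_sub_distrib, ← Finset.mul_sum, hGS, hDS,
      Finset.sum_const, nsmul_eq_mul, hS] at hsum
    have htot := tg_total S hS
    push_cast at hsum
    have hd : (Fintype.card F : ℤ) ≤ 2 * D.card + 1 := by exact_mod_cast hge
    have hg2 : (2 : ℤ) * G.card ≤ Fintype.card F + 1 := by exact_mod_cast hhalf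
    have hg5 : (5 : ℤ) ≤ G.card := by exact_mod_cast h5
    have hh1 : (G.card : ℤ) ≤ 2 * hh' := by
      have : G.card ≤ 2 * hh' := by omega
      exact_mod_cast this
    have hh3 : (3 : ℤ) ≤ hh' := by
      have : 3 ≤ hh' := by omega
      exact_mod_cast this
    have hprod : ((hh' : ℤ) - 2) * (Fintype.card F - 1) ≤ ((hh' : ℤ) - 2) * (2 * D.card) := by
      apply mul_le_mul_of_nonneg_left _ (by linarith)
      linarith
    have hkey : 2 * ((Fintype.card F : ℤ) + 1) - 2 * G.card + ((hh' : ℤ) - 2) * (Fintype.card F - 1) ≤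
        3 * ∑ l : PG F, ex S l := by
      linarith
    have hfin : 3 * (Fintype.card F : ℤ) - 11 ≤ 3 * ∑ l : PG F, ex S l := by
      by_cases h3 : (hh' : ℤ) = 3
      · rw [h3] at hkey hh1
        linarith
      · have h4 : (4 : ℤ) ≤ hh' := by omega
        nlinarith [mul_nonneg (sub_nonneg.mpr h4) (show (0 : ℤ) ≤ Fintype.card F - 5 by linarith)]
    omega

/-- **Theorem.** The general upper bound. -/
theorem upper (h2 : (2 : F) ≠ 0) (S : Finset (PG F)) (hS : S.card = Fintype.card F + 1)
    {p q r : PG F} (hp : p ∈ S) (hq : q ∈ S) (hr : r ∈ S) (hpq : p ≠ q) (hpr : p ≠ r) (hqr : q ≠ r)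
    (hc : det3 (rp p) (rp q) (rp r) = 0) :
    2 * ((Fintype.card F : ℤ) - 3) ≤ 3 * ∑ l : PG F, ex S l := by
  classical
  set G := S.filter (fun P => Good S rp P) with hG
  have hGm : ∀ P, P ∈ G ↔ Good S rp P := by
    intro P
    rw [hG, Finset.mem_filter]
    exact ⟨fun h => h.2, fun h => ⟨h.1, h⟩⟩
  by_cases h5 : 5 ≤ G.card
  · have := five h2 S hS hp hq hr hpq hpr hqr hc G hGm h5
    have h0 : 0 ≤ ∑ l : PG F, ex S l := Finset.sum_nonneg (fun l _ => ex_nonneg S l)
    linarith
  · set Bd := S.filter (fun P => ¬ Good S rp P) with hBd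
    have hsum : G.card + Bd.card = Fintype.card F + 1 := by
      rw [hG, hBd, Finset.card_filter_add_card_filter_not, hS]
    have hbad := bad_count S Bd (fun P hP => Finset.mem_filter.mp hP)
    have : (Fintype.card F : ℤ) - 3 ≤ Bd.card := by
      have : Fintype.card F ≤ Bd.card + 3 := by omega
      have : (Fintype.card F : ℤ) ≤ Bd.card + 3 := by exact_mod_cast this
      linarith
    linarith

end Pool.Agent.H73G
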