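import Pool.Agent.H73G.Rel

/-!
# Points on exactly one trisecant, if there are four good points
-/

set_option autoImplicit false
set_option linter.unusedSectionVars false

namespace Pool.Agent.H73G

variable {F : Type} [Field F] [Fintype F] [DecidableEq F] {ι : Type} {S : Finset ι}
  {w : ι → Fin 3 → F} {x y z : ι} {f g h : Fin 3 → F}

/-- the coordinates of a good point with respect to `x, y, o` -/
theorem Base.coord (H : Base S w x y z f g h) (htan : ∀ p, Good S w p → ∃ k, Tan S w p k) {o : ι}
    {p : ι} (hp : Good S w p) :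
    det3 (w o) (w x) (w y) * BB w x y z f h (w p) (w o) =
      det3 (w o) (w p) (w y) * BB w x y z f h (w x) (w o) +
      det3 (w o) (w x) (w p) * BB w x y z f h (w y) (w o) +
      det3 (w x) (w y) (w p) * (2 * QQ w x y z f h (w o)) ∧
    det3 (w o) (w p) (w y) * det3 (w o) (w x) (w p) * BB w x y z f h (w x) (w y) +
      det3 (w o) (w p) (w y) * det3 (w x) (w y) (w p) * BB w x y z f h (w x) (w o) +
      det3 (w o) (w x) (w p) * det3 (w x) (w y) (w p) * BB w x y z f h (w y) (w o) +
      det3 (w x) (w y) (w p) ^ 2 * QQ w x y z f h (w o) = 0 := by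
  have hgood : ∀ p, Good S w p → QQ w x y z f h (w p) = 0 := by
    intro p hp
    obtain ⟨k, hk⟩ := htan p hp
    exact (H.Qgood hp hk).1
  have hKp := hgood p hp
  have hKx := hgood x H.hx
  have hKy := hgood y H.hy
  set α := det3 (w o) (w p) (w y) with hα
  set β := det3 (w o) (w x) (w p) with hβ
  set D1 := det3 (w o) (w x) (w y) with hD1def
  set γ := det3 (w x) (w y) (w p) with hγ
  have hvec : (fun i => D1 * w p i + 0 * w p i + 0 * w p i) =
      (fun i => α * w x i + β * w y i + γ * w o i) := by
    funext i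
    have hcr := cramer (w x) (w y) (w o) (w p) i
    have c1 : det3 (w x) (w y) (w o) = D1 := by rw [hD1def]; unfold det3; ring
    have c2 : det3 (w p) (w y) (w o) = α := by rw [hα]; unfold det3; ring
    have c3 : det3 (w x) (w p) (w o) = β := by rw [hβ]; unfold det3; ring
    rw [c1, c2, c3] at hcr
    linear_combination hcr
  have q1 := Q_three (w x) (w y) (w z) (dot f (w y) * dot h (w x)) (dot f (w z) * dot h (w y))
    (dot f (w z) * dot h (w x)) D1 0 0 (w p) (w p) (w p)
  have q2 := Q_three (w x) (w y) (w z) (dot f (w y) * dot h (w x)) (dot f (w z) * dot h (w y))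
    (dot f (w z) * dot h (w x)) α β γ (w x) (w y) (w o)
  have b1 := B_three (w x) (w y) (w z) (dot f (w y) * dot h (w x)) (dot f (w z) * dot h (w y))
    (dot f (w z) * dot h (w x)) D1 0 0 (w p) (w p) (w p) (w o)
  have b2 := B_three (w x) (w y) (w z) (dot f (w y) * dot h (w x)) (dot f (w z) * dot h (w y))
    (dot f (w z) * dot h (w x)) α β γ (w x) (w y) (w o) (w o)
  have b3 := B_self (w x) (w y) (w z) (dot f (w y) * dot h (w x)) (dot f (w z) * dot h (w y))
    (dot f (w z) * dot h (w x)) (w o)
  rw [hvec, q2] at q1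
  rw [hvec, b2, b3] at b1
  change α ^ 2 * QQ w x y z f h (w x) + β ^ 2 * QQ w x y z f h (w y) +
    γ ^ 2 * QQ w x y z f h (w o) + α * β * BB w x y z f h (w x) (w y) +
    α * γ * BB w x y z f h (w x) (w o) + β * γ * BB w x y z f h (w y) (w o) =
    D1 ^ 2 * QQ w x y z f h (w p) + 0 ^ 2 * QQ w x y z f h (w p) +
    0 ^ 2 * QQ w x y z f h (w p) + _ + _ + _ at q1
  change α * BB w x y z f h (w x) (w o) + β * BB w x y z f h (w y) (w o) +
    γ * (2 * QQ w x y z f h (w o)) =
    D1 * BB w x y z f h (w p) (w o) + 0 * _ + 0 * _ at b1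
  rw [hKp, hKx, hKy] at q1
  constructor
  · linear_combination -b1
  · linear_combination q1

/-- the trisecant at a point `o` on exactly one trisecant, `v` a fourth good point -/
theorem Base.four (H : Base S w x y z f g h) (htan : ∀ p, Good S w p → ∃ k, Tan S w p k) {o : ι}
    (ho : o ∈ S) (hob : ¬ Good S w o) (N : Finset F)
    (hN : ∀ a, a ∈ N ↔ ∀ r ∈ S, r ≠ o → r ≠ x → slo w x y o r ≠ a) (hN2 : N.card = 2)
    {v : ι} (hv : Good S w v) (hvx : v ≠ x) (hvy : v ≠ y) (hvz : v ≠ z)
    {r t : ι} (hr : r ∈ S) (ht : t ∈ S) (hro : r ≠ o) (hto : t ≠ o) (hrt : r ≠ t)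
    (h0 : det3 (w o) (w r) (w t) = 0) :
    QQ w x y z f h (w o) * (slo w x y o r * det3 (w z) (w v) (w x) + det3 (w z) (w v) (w y)) =
      det3 (w z) (w v) (w o) * (slo w x y o r * BB w x y z f h (w x) (w o) +
        BB w x y z f h (w y) (w o)) := by
  classical
  have hop : ∀ p, Good S w p → o ≠ p := by
    rintro p hp rfl
    exact hob hp
  have hox := hop x H.hx
  have hoy := hop y H.hy
  have hoz := hop z H.hz
  have hov := hop v hv
  have hrx : r ≠ x := by
    rintro rfl
    apply H.hx.2 t ht o ho (Ne.symm hrt) hox hto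
    rw [← h0]; unfold det3; ring
  have htx : t ≠ x := by
    rintro rfl
    apply H.hx.2 o ho r hr hox hrt hro.symm
    rw [← h0]; unfold det3; ring
  have hdx : ∀ r ∈ S, r ≠ o → r ≠ x → det3 (w o) (w x) (w r) ≠ 0 := by
    intro r hr hro hrx
    have := H.hx.2 r hr o ho hrx hox hro
    intro h; apply this; rw [← h]; unfold det3; ring
  have hD1 := hdx y H.hy.1 hoy.symm H.hxy.symm
  have hsame : slo w x y o r = slo w x y o t := by
    have h1 := hdx r hr hro hrx
    have h2 := hdx t ht hto htx
    unfold slo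
    rw [div_eq_div_iff h1 h2]
    have := plucker (w o) (w x) (w y) (w r) (w t)
    rw [h0] at this
    linear_combination this
  obtain ⟨A, hA1, hA2, hA3⟩ := H.rel htan ho hob N hN
  have hAc : A.card = 1 := by omega
  obtain ⟨r0, hr0⟩ := Finset.card_eq_one.mp hAc
  set s := slo w x y o r with hs
  have hs0 : slo w x y o r0 = s := by
    rcases hA2 r hr t ht hro hrx hto htx hrt hsame with h | h
    · rw [hr0, Finset.mem_singleton] at h
      rw [← h]
    · rw [hr0, Finset.mem_singleton] at h
      rw [← h, ← hsame]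
  obtain ⟨a1, a2, ha12, hNa⟩ := Finset.card_eq_two.mp hN2
  set b := BB w x y z f h (w x) (w o) with hb
  set by' := BB w x y z f h (w y) (w o) with hby
  set Ko := QQ w x y z f h (w o) with hKo
  have hb0 : b ≠ 0 := by
    obtain ⟨k, hk⟩ := htan x H.hx
    exact (H.Qgood H.hx hk).2 o ho hox
  -- the relation at a good point
  have hrel : ∀ p, Good S w p → p ≠ x → (s - slo w x y o p) * BB w x y z f h (w p) (w o) =
      -(det3 (w o) (w x) (w p) / det3 (w o) (w x) (w y)) * b *
        ((a1 - slo w x y o p) * (a2 - slo w x y o p)) := by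
    intro p hp hpx
    have h1 := hA3 p hp hpx
    rw [hr0, Finset.prod_singleton, hs0, hNa, Finset.prod_pair ha12] at h1
    exact h1
  have hy1 := hrel y H.hy H.hxy.symm
  have hsy : slo w x y o y = 0 := by
    unfold slo
    rw [det3_same23, zero_div]
  rw [hsy, div_self hD1] at hy1
  have e2 : a1 * a2 * b = - (s * by') := by linear_combination hy1
  -- the relation for the two further good points
  have hE : ∀ p, Good S w p → p ≠ x → p ≠ y →
      slo w x y o p * (by' + b * (a1 + a2) - s * b) +
        2 * Ko * (det3 (w x) (w y) (w p) / det3 (w o) (w x) (w p)) * (slo w x y o p - s) = 0 ∧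
      slo w x y o p * BB w x y z f h (w x) (w y) +
        slo w x y o p * (det3 (w x) (w y) (w p) / det3 (w o) (w x) (w p)) * b +
        (det3 (w x) (w y) (w p) / det3 (w o) (w x) (w p)) * by' +
        (det3 (w x) (w y) (w p) / det3 (w o) (w x) (w p)) ^ 2 * Ko = 0 ∧
      slo w x y o p ≠ 0 := by
    intro p hp hpx hpy
    have hpo : p ≠ o := (hop p hp).symm
    have hdp := hdx p hp.1 hpo hpx
    obtain ⟨k1, k2⟩ := H.coord htan (o := o) hp
    have h1 := hrel p hp hpx
    have hslo : slo w x y o p = det3 (w o) (w p) (w y) / det3 (w o) (w x) (w p) := rfl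
    set u := slo w x y o p with hu
    set D1 := det3 (w o) (w x) (w y)
    set β := det3 (w o) (w x) (w p)
    set α := det3 (w o) (w p) (w y)
    set γ := det3 (w x) (w y) (w p)
    have hα : α = u * β := by rw [hslo]; field_simp
    have h2 : (s - u) * (α * b + β * by' + γ * (2 * Ko)) = -β * b * ((a1 - u) * (a2 - u)) := by
      rw [← k1]
      field_simp at h1
      linear_combination h1
    rw [hα] at h2 k2
    refine ⟨?_, ?_, ?_⟩
    · have h3 : β * (u * (by' + b * (a1 + a2) - s * b) + 2 * Ko * (γ / β) * (u - s)) = 0 := by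
        field_simp
        linear_combination -h2 + β * e2
      exact (mul_eq_zero.mp h3).resolve_left hdp
    · have h3 : β ^ 2 * (u * BB w x y z f h (w x) (w y) + u * (γ / β) * b + (γ / β) * by' +
          (γ / β) ^ 2 * Ko) = 0 := by
        field_simp
        linear_combination k2
      exact (mul_eq_zero.mp h3).resolve_left (pow_ne_zero 2 hdp)
    · intro hu0
      rw [hu0, zero_mul] at hα
      have := H.hy.2 o ho p hp.1 hoy hpy hpo.symm
      apply this
      have e : det3 (w y) (w o) (w p) = α := by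
        change det3 (w y) (w o) (w p) = det3 (w o) (w p) (w y)
        unfold det3; ring
      rw [e, hα]
  obtain ⟨z1, z2, z3⟩ := hE z H.hz H.hxz.symm H.hyz.symm
  obtain ⟨v1, v2, v3⟩ := hE v hv hvx hvy
  have hdz := hdx z H.hz.1 hoz.symm H.hxz.symm
  have hdv := hdx v hv.1 hov.symm hvx
  have hgz : det3 (w x) (w y) (w z) ≠ 0 := H.D
  set uz := slo w x y o z with huz
  set uv := slo w x y o v with huv
  have huz' : uz = det3 (w o) (w z) (w y) / det3 (w o) (w x) (w z) := rfl
  have huv' : uv = det3 (w o) (w v) (w y) / det3 (w o) (w x) (w v) := rfl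
  set kz := det3 (w x) (w y) (w z) / det3 (w o) (w x) (w z) with hkz
  set kv := det3 (w x) (w y) (w v) / det3 (w o) (w x) (w v) with hkv
  have hkz0 : kz ≠ 0 := div_ne_zero hgz hdz
  -- the determinants
  set D1 := det3 (w o) (w x) (w y) with hD1'
  set βz := det3 (w o) (w x) (w z) with hβz
  set βv := det3 (w o) (w x) (w v) with hβv
  have dz : (fun i => D1 * w z i + 0 * w z i + 0 * w z i) =
      (fun i => (uz * βz) * w x i + βz * w y i + (kz * βz) * w o i) := by
    funext i
    have hcr := cramer (w x) (w y) (w o) (w z) i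
    have c1 : det3 (w x) (w y) (w o) = D1 := by rw [hD1']; unfold det3; ring
    have c2 : det3 (w z) (w y) (w o) = uz * βz := by
      rw [huz', div_mul_cancel₀ _ hdz]; unfold det3; ring
    have c3 : det3 (w x) (w z) (w o) = βz := by rw [hβz]; unfold det3; ring
    have c4 : det3 (w x) (w y) (w z) = kz * βz := by rw [hkz, div_mul_cancel₀ _ hdz]
    rw [c1, c2, c3, c4] at hcr
    linear_combination hcr
  have dv : (fun i => D1 * w v i + 0 * w v i + 0 * w v i) =
      (fun i => (uv * βv) * w x i + βv * w y i + (kv * βv) * w o i) := by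
    funext i
    have hcr := cramer (w x) (w y) (w o) (w v) i
    have c1 : det3 (w x) (w y) (w o) = D1 := by rw [hD1']; unfold det3; ring
    have c2 : det3 (w v) (w y) (w o) = uv * βv := by
      rw [huv', div_mul_cancel₀ _ hdv]; unfold det3; ring
    have c3 : det3 (w x) (w v) (w o) = βv := by rw [hβv]; unfold det3; ring
    have c4 : det3 (w x) (w y) (w v) = kv * βv := by rw [hkv, div_mul_cancel₀ _ hdv]
    rw [c1, c2, c3, c4] at hcr
    linear_combination hcr
  have hdet : ∀ q : Fin 3 → F, D1 ^ 2 * det3 (w z) (w v) q =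
      βz * βv * ((uz - uv) * det3 (w x) (w y) q + (uz * kv - kz * uv) * det3 (w x) (w o) q +
        (kv - kz) * det3 (w y) (w o) q) := by
    intro q
    have l1 := det3_l1 D1 0 0 (w z) (w z) (w z) (w v) q
    rw [dz, det3_l1] at l1
    have l2 := det3_l2 D1 0 0 (w v) (w v) (w v) (w x) q
    rw [dv, det3_l2] at l2
    have l3 := det3_l2 D1 0 0 (w v) (w v) (w v) (w y) q
    rw [dv, det3_l2] at l3
    have l4 := det3_l2 D1 0 0 (w v) (w v) (w v) (w o) q
    rw [dv, det3_l2] at l4
    rw [det3_same12] at l2 l3 l4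
    have s1 : det3 (w y) (w x) q = - det3 (w x) (w y) q := by unfold det3; ring
    have s2 : det3 (w o) (w x) q = - det3 (w x) (w o) q := by unfold det3; ring
    have s3 : det3 (w o) (w y) q = - det3 (w y) (w o) q := by unfold det3; ring
    rw [s1] at l3
    rw [s2, s3] at l4
    linear_combination (-D1) * l1 - (uz * βz) * l2 - βz * l3 - (kz * βz) * l4
  have qx := hdet (w x)
  have qy := hdet (w y)
  have qo := hdet (w o)
  have r1 : det3 (w y) (w o) (w x) = - D1 * (-1) := by rw [hD1']; unfold det3; ring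
  have r2 : det3 (w x) (w o) (w y) = - D1 := by rw [hD1']; unfold det3; ring
  have r3 : det3 (w x) (w y) (w o) = D1 := by rw [hD1']; unfold det3; ring
  rw [det3_same13, det3_same13, r1] at qx
  rw [det3_same23, det3_same13, r2] at qy
  rw [det3_same23, det3_same23, r3] at qo
  have hs_a1 : s ≠ a1 := by
    have : a1 ∈ N := by rw [hNa]; simp
    exact (hN a1).mp this r hr hro hrx
  have hs_a2 : s ≠ a2 := by
    have : a2 ∈ N := by rw [hNa]; simp
    exact (hN a2).mp this r hr hro hrx
  have hKo0 : Ko ≠ 0 := by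
    intro h
    rw [h] at z1
    have h1 : uz * (by' + b * (a1 + a2) - s * b) = 0 := by linear_combination z1
    have h2 := (mul_eq_zero.mp h1).resolve_left z3
    have h3 : b * ((s - a1) * (s - a2)) = 0 := by
      linear_combination (-s) * h2 + e2
    exact mul_ne_zero hb0 (mul_ne_zero (sub_ne_zero.mpr hs_a1) (sub_ne_zero.mpr hs_a2)) h3
  have e_s : uz * uv * (kv - kz) = s * (kv * uz - kz * uv) := by
    have e3 : (2 * Ko) * (uz * uv * (kv - kz) - s * (kv * uz - kz * uv)) = 0 := by
      linear_combination uz * v1 - uv * z1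
    have := (mul_eq_zero.mp e3).resolve_left (mul_ne_zero H.two hKo0)
    linear_combination this
  have hzv : uz ≠ uv := by
    intro he
    rw [huz', huv', div_eq_div_iff hdz hdv] at he
    have h1 := plucker (w o) (w x) (w y) (w z) (w v)
    have h2 : det3 (w o) (w z) (w v) * D1 = 0 := by
      linear_combination he - h1
    have h3 := (mul_eq_zero.mp h2).resolve_right hD1
    apply H.hz.2 v hv.1 o ho hvz hoz hov.symm
    rw [← h3]; unfold det3; ring
  have hG0 : kv * uz - kz * uv ≠ 0 := by
    intro hG
    rw [hG, mul_zero] at e_s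
    have h1 := (mul_eq_zero.mp e_s).resolve_left (mul_ne_zero z3 v3)
    have h2 : kz * (uz - uv) = 0 := by linear_combination hG - uz * h1
    exact mul_ne_zero hkz0 (sub_ne_zero.mpr hzv) h2
  have hm : Ko * (s * (kv - kz) - (kv * uz - kz * uv)) = (uz - uv) * (s * b + by') := by
    apply mul_left_cancel₀ hG0
    linear_combination (-(Ko * (kv - kz) - (uz - uv) * b)) * e_s + (uz - uv) * uv * z2 -
      (uz - uv) * uz * v2
  apply mul_left_cancel₀ (pow_ne_zero 2 hD1)
  linear_combination Ko * s * qx + Ko * qy - (s * b + by') * qo + βz * βv * D1 * hm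

end Pool.Agent.H73G
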