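import Pool.Agent.H73G.Conic

/-!
# At most half of the points are good if a point of the set is not on the conic
-/

set_option autoImplicit false
set_option linter.unusedSectionVars false

namespace Pool.Agent.H73G

variable {F : Type} [Field F] [Fintype F] [DecidableEq F] {ι : Type} {S : Finset ι}
  {w : ι → Fin 3 → F} {x y z : ι} {f g h : Fin 3 → F}

theorem Base.fy (H : Base S w x y z f g h) : dot f (w y) ≠ 0 := H.hf.2 y H.hy.1 H.hxy.symm
theorem Base.fz (H : Base S w x y z f g h) : dot f (w z) ≠ 0 := H.hf.2 z H.hz.1 H.hxz.symm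
theorem Base.hx' (H : Base S w x y z f g h) : dot h (w x) ≠ 0 := H.hh.2 x H.hx.1 H.hxz
theorem Base.hy' (H : Base S w x y z f g h) : dot h (w y) ≠ 0 := H.hh.2 y H.hy.1 H.hyz

theorem Base.inj (H : Base S w x y z f g h) (v v' : Fin 3 → F)
    (hv : QQ w x y z f h v = 0) (hv' : QQ w x y z f h v' = 0)
    (h1 : dot f v ≠ 0) (h2 : dot f v' ≠ 0)
    (he : det3 (w x) (w y) v / dot f v = det3 (w x) (w y) v' / dot f v') :
    ∀ u, det3 v v' u = 0 := by
  have hD := H.D
  have e1 := H.ff v
  have e2 := H.ff v'
  have cr1 := cramer (w x) (w y) (w z) v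
  have cr2 := cramer (w x) (w y) (w z) v'
  unfold QQ Q at hv hv'
  set D := det3 (w x) (w y) (w z) with hDdef
  set α := det3 v (w y) (w z)
  set β := det3 (w x) v (w z)
  set γ := det3 (w x) (w y) v
  set α' := det3 v' (w y) (w z)
  set β' := det3 (w x) v' (w z)
  set γ' := det3 (w x) (w y) v'
  rw [div_eq_div_iff h1 h2] at he
  have f_y := H.fy
  have h_x := H.hx'
  have hb : β * dot f v' = β' * dot f v := by
    have : dot f (w y) * (β * dot f v' - β' * dot f v) = 0 := by
      linear_combination (-(dot f v')) * e1 + dot f v * e2 - dot f (w z) * he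
    have := (mul_eq_zero.mp this).resolve_left f_y
    linear_combination this
  have ha : α * dot f v' = α' * dot f v := by
    have hv1 : α * (dot h (w x) * D * dot f v) + dot f (w z) * dot h (w y) * β * γ = 0 := by
      linear_combination hv + α * dot h (w x) * e1
    have hv2 : α' * (dot h (w x) * D * dot f v') + dot f (w z) * dot h (w y) * β' * γ' = 0 := by
      linear_combination hv' + α' * dot h (w x) * e2
    have h3 : (dot h (w x) * D * dot f v * dot f v') * (α * dot f v' - α' * dot f v) = 0 := by
      linear_combination dot f v' ^ 2 * hv1 - dot f v ^ 2 * hv2 -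
        dot f (w z) * dot h (w y) * (γ * dot f v') * hb -
        dot f (w z) * dot h (w y) * (β' * dot f v) * he
    have h4 : dot h (w x) * D * dot f v * dot f v' ≠ 0 := by positivity
    have := (mul_eq_zero.mp h3).resolve_left h4
    linear_combination this
  have hvec : (fun i => dot f v' * v i - 0 * v i) = (fun i => dot f v * v' i - 0 * v i) := by
    funext i
    have h5 : D * (dot f v' * v i - dot f v * v' i) = 0 := by
      linear_combination dot f v' * cr1 i - dot f v * cr2 i + w x i * ha + w y i * hb + w z i * he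
    have := (mul_eq_zero.mp h5).resolve_left hD
    linear_combination this
  intro u
  have h6 := det3_lin1 (dot f v') 0 v v v' u
  rw [hvec, det3_lin1, det3_same12] at h6
  have h7 : dot f v' * det3 v v' u = 0 := by linear_combination -h6
  exact (mul_eq_zero.mp h7).resolve_left h2

theorem Base.tanpt (H : Base S w x y z f g h) (v : Fin 3 → F)
    (hv : QQ w x y z f h v = 0) (h1 : dot f v = 0) : ∀ u, det3 v (w x) u = 0 := by
  have hD := H.D
  have e1 := H.ff v
  have cr1 := cramer (w x) (w y) (w z) v
  unfold QQ Q at hv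
  set D := det3 (w x) (w y) (w z) with hDdef
  set α := det3 v (w y) (w z)
  set β := det3 (w x) v (w z)
  set γ := det3 (w x) (w y) v
  have f_y := H.fy
  have f_z := H.fz
  have h_x := H.hx'
  have h_y := H.hy'
  rw [h1, zero_mul] at e1
  have h2 : (dot f (w z) * dot h (w y)) * (β * γ) = 0 := by
    linear_combination hv + α * dot h (w x) * e1
  have h3 : dot f (w z) * dot h (w y) ≠ 0 := by positivity
  have h4 := (mul_eq_zero.mp h2).resolve_left h3
  have h5 : β = 0 ∧ γ = 0 := by
    rcases mul_eq_zero.mp h4 with h | h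
    · refine ⟨h, ?_⟩
      rw [h, mul_zero, zero_add] at e1
      exact (mul_eq_zero.mp e1.symm).resolve_left f_z
    · refine ⟨?_, h⟩
      rw [h, mul_zero, add_zero] at e1
      exact (mul_eq_zero.mp e1.symm).resolve_left f_y
  have hvec : (fun i => D * v i - 0 * v i) = (fun i => α * w x i - 0 * v i) := by
    funext i
    linear_combination cr1 i + h5.1 * w y i + h5.2 * w z i
  intro u
  have h6 := det3_lin1 D 0 v v (w x) u
  rw [hvec, det3_lin1, det3_same12] at h6
  have h7 : D * det3 v (w x) u = 0 := by linear_combination -h6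
  exact (mul_eq_zero.mp h7).resolve_left hD

/-- the reflection of the point `p` from `o` (a point of the conic if `p` is) -/
def refl (w : ι → Fin 3 → F) (x y z : ι) (f h : Fin 3 → F) (o p : ι) : Fin 3 → F :=
  fun i => QQ w x y z f h (w o) * w p i - BB w x y z f h (w p) (w o) * w o i

theorem Q_refl (o p : ι) (hp : QQ w x y z f h (w p) = 0) :
    QQ w x y z f h (refl w x y z f h o p) = 0 := by
  unfold refl
  have := Q_comb (w x) (w y) (w z) (dot f (w y) * dot h (w x)) (dot f (w z) * dot h (w y))
    (dot f (w z) * dot h (w x)) (QQ w x y z f h (w o)) (BB w x y z f h (w p) (w o)) (w p) (w o)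
  change QQ w x y z f h _ = _ at this
  rw [this]
  change QQ w x y z f h (w o) ^ 2 * QQ w x y z f h (w p) -
    QQ w x y z f h (w o) * BB w x y z f h (w p) (w o) * BB w x y z f h (w p) (w o) +
    BB w x y z f h (w p) (w o) ^ 2 * QQ w x y z f h (w o) = 0
  rw [hp]
  ring

theorem Base.half (H : Base S w x y z f g h) (htan : ∀ p, Good S w p → ∃ k, Tan S w p k) {o : ι}
    (ho : o ∈ S) (hQ : QQ w x y z f h (w o) ≠ 0) (G : Finset ι) (hG : ∀ p ∈ G, Good S w p)
    (hxG : x ∈ G) : 2 * G.card ≤ Fintype.card F + 1 := by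
  classical
  have hgood : ∀ p, Good S w p → QQ w x y z f h (w p) = 0 ∧
      ∀ o ∈ S, o ≠ p → BB w x y z f h (w p) (w o) ≠ 0 := by
    intro p hp
    obtain ⟨k, hk⟩ := htan p hp
    exact H.Qgood hp hk
  have hop : ∀ p, Good S w p → o ≠ p := by
    rintro p hp rfl
    exact hQ (hgood _ hp).1
  have hd : ∀ p ∈ G, ∀ p' ∈ G, det3 (w p) (w p') (w o) = 0 → p = p' := by
    intro p hp p' hp' h0
    by_contra hne
    exact (hG p hp).2 p' (hG p' hp').1 o ho (Ne.symm hne) (hop p (hG p hp)) (Ne.symm (hop p' (hG p' hp'))) h0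
  -- a third point
  have third : ∀ p, Good S w p → ∃ r ∈ S, r ≠ p ∧ r ≠ o := by
    intro p hp
    by_cases hpx : p = x
    · subst hpx
      exact ⟨y, H.hy.1, H.hxy.symm, Ne.symm (hop y H.hy)⟩
    · exact ⟨x, H.hx.1, Ne.symm hpx, Ne.symm (hop x H.hx)⟩
  have hself : ∀ p, Good S w p → ∀ c : F, (∀ u, c * det3 (w p) (w o) u = 0) → c = 0 := by
    intro p hp c hc
    obtain ⟨r, hr, hrp, hro⟩ := third p hp
    exact (mul_eq_zero.mp (hc (w r))).resolve_right (hp.2 o ho r hr (hop p hp) hrp (Ne.symm hro))
  have hf1 : ∀ p ∈ G.erase x, dot f (w p) ≠ 0 := by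
    intro p hp
    rw [Finset.mem_erase] at hp
    exact H.hf.2 p (hG p hp.2).1 hp.1
  have hf2 : ∀ p ∈ G, dot f (refl w x y z f h o p) ≠ 0 := by
    intro p hp h0
    have h1 := H.tanpt _ (Q_refl o p (hgood p (hG p hp)).1) h0
    by_cases hpx : p = x
    · subst hpx
      have h2 : BB w p y z f h (w p) (w o) = 0 := by
        apply hself p (hG p hp)
        intro u
        have h3 := h1 u
        unfold refl at h3
        rw [det3_lin1, det3_same12] at h3
        have h4 : det3 (w o) (w p) u = - det3 (w p) (w o) u := by unfold det3; ring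
        rw [h4] at h3
        linear_combination h3
      exact (hgood p (hG p hp)).2 o ho (hop p (hG p hp)) h2
    · have h3 := h1 (w o)
      unfold refl at h3
      rw [det3_lin1, det3_same13] at h3
      have h4 : QQ w x y z f h (w o) * det3 (w p) (w x) (w o) = 0 := by linear_combination h3
      have h5 := (mul_eq_zero.mp h4).resolve_left hQ
      exact hpx (hd p hp x hxG h5)
  set I : Finset (ι ⊕ ι) := (G.erase x).disjSum G with hI
  set Φ : ι ⊕ ι → F := Sum.elim (fun p => det3 (w x) (w y) (w p) / dot f (w p))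
    (fun p => det3 (w x) (w y) (refl w x y z f h o p) / dot f (refl w x y z f h o p)) with hΦ
  have hmix : ∀ p ∈ G.erase x, ∀ p' ∈ G,
      det3 (w x) (w y) (w p) / dot f (w p) =
      det3 (w x) (w y) (refl w x y z f h o p') / dot f (refl w x y z f h o p') → False := by
    intro p hp p' hp' he
    have hpG := Finset.mem_of_mem_erase hp
    have h1 := H.inj _ _ (hgood p (hG p hpG)).1 (Q_refl o p' (hgood p' (hG p' hp')).1)
      (hf1 p hp) (hf2 p' hp') he
    have h2 := h1 (w o)
    unfold refl at h2
    rw [det3_lin2, det3_same23] at h2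
    have h4 : QQ w x y z f h (w o) * det3 (w p) (w p') (w o) = 0 := by linear_combination h2
    have h5 := (mul_eq_zero.mp h4).resolve_left hQ
    have h6 := hd p hpG p' hp' h5
    subst h6
    have h7 : BB w x y z f h (w p) (w o) = 0 := by
      apply hself p (hG p hpG)
      intro u
      have h3 := h1 u
      unfold refl at h3
      rw [det3_lin2, det3_same12] at h3
      linear_combination -h3
    exact (hgood p (hG p hpG)).2 o ho (hop p (hG p hpG)) h7
  have hinj : Set.InjOn Φ (I : Set (ι ⊕ ι)) := by
    rintro (p | p) hp (p' | p') hp' he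
    · have hp1 : p ∈ G.erase x := by simpa [hI] using hp
      have hp2 : p' ∈ G.erase x := by simpa [hI] using hp'
      have hpG := Finset.mem_of_mem_erase hp1
      have hpG' := Finset.mem_of_mem_erase hp2
      have h1 := H.inj _ _ (hgood p (hG p hpG)).1 (hgood p' (hG p' hpG')).1
        (hf1 p hp1) (hf1 p' hp2) (by simpa [hΦ] using he)
      rw [hd p hpG p' hpG' (h1 (w o))]
    · exfalso
      have hp1 : p ∈ G.erase x := by simpa [hI] using hp
      have hp2 : p' ∈ G := by simpa [hI] using hp'
      exact hmix p hp1 p' hp2 (by simpa [hΦ] using he)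
    · exfalso
      have hp1 : p ∈ G := by simpa [hI] using hp
      have hp2 : p' ∈ G.erase x := by simpa [hI] using hp'
      exact hmix p' hp2 p hp1 (by simpa [hΦ] using he.symm)
    · have hpG : p ∈ G := by simpa [hI] using hp
      have hpG' : p' ∈ G := by simpa [hI] using hp'
      have h1 := H.inj _ _ (Q_refl o p (hgood p (hG p hpG)).1) (Q_refl o p' (hgood p' (hG p' hpG')).1)
        (hf2 p hpG) (hf2 p' hpG') (by simpa [hΦ] using he)
      have h2 := h1 (w o)
      unfold refl at h2
      rw [det3_lin1, det3_lin2, det3_lin2, det3_same23, det3_same12] at h2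
      have h3 : det3 (w o) (w p') (w o) = 0 := det3_same13 _ _
      rw [h3] at h2
      have h4 : QQ w x y z f h (w o) ^ 2 * det3 (w p) (w p') (w o) = 0 := by linear_combination h2
      have h5 := (mul_eq_zero.mp h4).resolve_left (pow_ne_zero 2 hQ)
      rw [hd p hpG p' hpG' h5]
  have hcard := Finset.card_le_card_of_injOn (s := I) (t := Finset.univ) Φ (fun _ _ => Finset.mem_univ _) hinj
  rw [Finset.card_univ, hI, Finset.card_disjSum, Finset.card_erase_of_mem hxG] at hcard
  have : 1 ≤ G.card := Finset.card_pos.mpr ⟨x, hxG⟩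
  omega

/-- three collinear points are not all on the conic -/
theorem Base.arc (H : Base S w x y z f g h) {p q : ι} {r : ι}
    (hp : p ∈ S) (hq : q ∈ S) (hr : r ∈ S) (hpq : p ≠ q) (hpr : p ≠ r) (hqr : q ≠ r)
    (h0 : det3 (w p) (w q) (w r) = 0) (Kp : QQ w x y z f h (w p) = 0)
    (Kq : QQ w x y z f h (w q) = 0) : QQ w x y z f h (w r) ≠ 0 := by
  intro Kr
  have hxp : x ≠ p := by
    rintro rfl
    exact H.hx.2 q hq r hr hpq.symm hpr.symm hqr h0
  have hxq : x ≠ q := by
    rintro rfl
    apply H.hx.2 r hr p hp hqr.symm hpq hpr.symm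
    rw [← h0]; unfold det3; ring
  have hxr : x ≠ r := by
    rintro rfl
    apply H.hx.2 p hp q hq hpr hqr hpq
    rw [← h0]; unfold det3; ring
  have d1 : det3 (w p) (w q) (w x) ≠ 0 := by
    have := H.hx.2 p hp q hq hxp.symm hxq.symm hpq
    intro h; apply this; rw [← h]; unfold det3; ring
  have d2 : det3 (w r) (w q) (w x) ≠ 0 := by
    have := H.hx.2 r hr q hq hxr.symm hxq.symm hqr.symm
    intro h; apply this; rw [← h]; unfold det3; ring
  have d3 : det3 (w p) (w r) (w x) ≠ 0 := by
    have := H.hx.2 p hp r hr hxp.symm hxr.symm hpr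
    intro h; apply this; rw [← h]; unfold det3; ring
  have hB : BB w x y z f h (w p) (w q) = 0 := by
    have hvec : (fun i => det3 (w p) (w q) (w x) * w r i - 0 * w r i) =
        (fun i => det3 (w r) (w q) (w x) * w p i - (-det3 (w p) (w r) (w x)) * w q i) := by
      funext i
      have := cramer (w p) (w q) (w x) (w r) i
      rw [h0] at this
      linear_combination this
    have q1 := Q_comb (w x) (w y) (w z) (dot f (w y) * dot h (w x)) (dot f (w z) * dot h (w y))
      (dot f (w z) * dot h (w x)) (det3 (w p) (w q) (w x)) 0 (w r) (w r)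
    have q2 := Q_comb (w x) (w y) (w z) (dot f (w y) * dot h (w x)) (dot f (w z) * dot h (w y))
      (dot f (w z) * dot h (w x)) (det3 (w r) (w q) (w x)) (-det3 (w p) (w r) (w x)) (w p) (w q)
    rw [hvec, q2] at q1
    change _ * QQ w x y z f h (w p) - _ * BB w x y z f h (w p) (w q) + _ * QQ w x y z f h (w q) =
      _ * QQ w x y z f h (w r) - _ + _ at q1
    rw [Kp, Kq, Kr] at q1
    have h5 : (det3 (w r) (w q) (w x) * det3 (w p) (w r) (w x)) * BB w x y z f h (w p) (w q) = 0 := by
      linear_combination q1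
    exact (mul_eq_zero.mp h5).resolve_left (mul_ne_zero d2 d3)
  -- the point of the line on the tangent at `x`
  set v : Fin 3 → F := fun i => dot f (w q) * w p i - dot f (w p) * w q i with hv
  have Qv : QQ w x y z f h v = 0 := by
    have q2 := Q_comb (w x) (w y) (w z) (dot f (w y) * dot h (w x)) (dot f (w z) * dot h (w y))
      (dot f (w z) * dot h (w x)) (dot f (w q)) (dot f (w p)) (w p) (w q)
    change QQ w x y z f h v = _ * QQ w x y z f h (w p) - _ * BB w x y z f h (w p) (w q) +
      _ * QQ w x y z f h (w q) at q2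
    rw [q2, Kp, Kq, hB]; ring
  have fv : dot f v = 0 := by
    rw [hv]; unfold dot; ring
  have h6 := H.tanpt v Qv fv (w q)
  rw [hv, det3_lin1, det3_same13] at h6
  have h7 : dot f (w q) * det3 (w p) (w x) (w q) = 0 := by linear_combination h6
  have h8 := (mul_eq_zero.mp h7).resolve_left (H.hf.2 q hq hxq.symm)
  apply d1
  have : det3 (w p) (w q) (w x) = - det3 (w p) (w x) (w q) := by unfold det3; ring
  rw [this, h8, neg_zero]

end Pool.Agent.H73G
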