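import Pool.Agent.H73G.Count

/-!
# A conic with one point replaced by an external point
-/

set_option autoImplicit false
set_option linter.unusedSectionVars false

namespace Pool.Agent.H73G

open scoped LinearAlgebra.Projectivization

variable {F : Type} [Field F] [Fintype F] [DecidableEq F]

/-- `(x, x², 1)` -/
def cpt (x : F) : PG F := Projectivization.mk F ![x, x ^ 2, 1] (by
  intro h
  simpa using congrFun h 2)

/-- `(0, 1, 0)` -/
def pinf (F : Type) [Field F] : PG F := Projectivization.mk F ![0, 1, 0] (by
  intro h
  simpa using congrFun h 1)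

/-- `(1, 0, 0)` -/
def pext (F : Type) [Field F] : PG F := Projectivization.mk F ![1, 0, 0] (by
  intro h
  simpa using congrFun h 0)

/-- the line `y = a x + c z` -/
def ln (a c : F) : PG F := Projectivization.mk F ![a, -1, c] (by
  intro h
  simpa using congrFun h 1)

theorem cpt_ln (x a c : F) : (cpt x).orthogonal (ln a c) ↔ a * x - x ^ 2 + c = 0 := by
  unfold cpt ln
  rw [Projectivization.orthogonal_mk]
  simp [dotProduct, Fin.sum_univ_three]
  constructor <;> intro h <;> linear_combination h

theorem pinf_ln (a c : F) : ¬ (pinf F).orthogonal (ln a c) := by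
  unfold pinf ln
  rw [Projectivization.orthogonal_mk]
  simp [dotProduct, Fin.sum_univ_three]

theorem pext_ln (a c : F) : (pext F).orthogonal (ln a c) ↔ a = 0 := by
  unfold pext ln
  rw [Projectivization.orthogonal_mk]
  simp [dotProduct, Fin.sum_univ_three]

theorem ln_inj (a c a' c' : F) (h : ln a c = ln a' c') : a = a' ∧ c = c' := by
  unfold ln at h
  rw [Projectivization.mk_eq_mk_iff'] at h
  obtain ⟨t, ht⟩ := h
  have h1 := congrFun ht 1
  have h0 := congrFun ht 0
  have h2 := congrFun ht 2
  simp at h0 h1 h2
  subst h1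
  simp at h0 h2
  exact ⟨h0.symm, h2.symm⟩

theorem cpt_inj (x x' : F) (h : cpt x = cpt x') : x = x' := by
  unfold cpt at h
  rw [Projectivization.mk_eq_mk_iff'] at h
  obtain ⟨t, ht⟩ := h
  have h0 := congrFun ht 0
  have h2 := congrFun ht 2
  simp at h0 h2
  subst h2
  simpa using h0.symm

theorem cpt_ne_pinf (x : F) : cpt x ≠ pinf F := by
  unfold cpt pinf
  rw [Ne, Projectivization.mk_eq_mk_iff']
  rintro ⟨t, ht⟩
  have h2 := congrFun ht 2
  simp at h2

theorem cpt_ne_pext (x : F) : cpt x ≠ pext F := by
  unfold cpt pext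
  rw [Ne, Projectivization.mk_eq_mk_iff']
  rintro ⟨t, ht⟩
  have h2 := congrFun ht 2
  simp at h2

theorem pinf_ne_pext : pinf F ≠ pext F := by
  unfold pinf pext
  rw [Ne, Projectivization.mk_eq_mk_iff']
  rintro ⟨t, ht⟩
  have h2 := congrFun ht 1
  simp at h2

/-- the set -/
noncomputable def lo (F : Type) [Field F] [Fintype F] [DecidableEq F] : Finset (PG F) :=
  insert (pext F) (insert (pinf F) ((Finset.univ.erase (1 : F)).image cpt))

theorem lo_card : (lo F).card = Fintype.card F + 1 := by
  unfold lo
  rw [Finset.card_insert_of_notMem, Finset.card_insert_of_notMem,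
    Finset.card_image_of_injective _ (fun x y h => cpt_inj x y h),
    Finset.card_erase_of_mem (Finset.mem_univ _), Finset.card_univ]
  · have : 1 ≤ Fintype.card F := Fintype.card_pos
    omega
  · intro h
    obtain ⟨x, _, hx⟩ := Finset.mem_image.mp h
    exact cpt_ne_pinf x hx
  · intro h
    rcases Finset.mem_insert.mp h with h | h
    · exact pinf_ne_pext h.symm
    · obtain ⟨x, _, hx⟩ := Finset.mem_image.mp h
      exact cpt_ne_pext x hx

theorem nsq_card (h2 : (2 : F) ≠ 0) :
    2 * (Finset.univ.filter (fun a : F => ¬ IsSquare a)).card + 1 = Fintype.card F := by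
  have hF : ringChar F ≠ 2 := by
    intro h
    apply h2
    have := ringChar.Nat.cast_ringChar (R := F)
    rw [h] at this
    exact_mod_cast this
  have h := quadraticChar_sum_zero hF
  have h1 : ∀ a : F, 1 - quadraticChar F a = (if a = 0 then (1 : ℤ) else 0) +
      2 * (if ¬ IsSquare a then (1 : ℤ) else 0) := by
    intro a
    rw [quadraticChar_apply, quadraticCharFun]
    by_cases ha : a = 0
    · subst ha; simp
    · by_cases hs : IsSquare a
      · simp [ha, hs]
      · simp [ha, hs]
  have h3 := Finset.sum_congr (rfl : (Finset.univ : Finset F) = Finset.univ) (fun a _ => h1 a)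
  have h5 : ∑ a : F, (if ¬ IsSquare a then (1 : ℤ) else 0) =
      ((Finset.univ.filter (fun a : F => ¬ IsSquare a)).card : ℤ) := Finset.sum_boole _ _
  have h6 : ∑ a : F, (if a = 0 then (1 : ℤ) else 0) = 1 := by simp
  have h7 : ∑ _a : F, (1 : ℤ) = Fintype.card F := by simp
  rw [Finset.sum_sub_distrib, h, Finset.sum_add_distrib, ← Finset.mul_sum, h5, h6, h7] at h3
  have : 2 * ((Finset.univ.filter (fun a : F => ¬ IsSquare a)).card : ℤ) + 1 = Fintype.card F := by
    linarith
  exact_mod_cast this

theorem lo_u0 (h2 : (2 : F) ≠ 0) : 2 * u0 (lo F) = (Fintype.card F - 1) ^ 2 + 2 := by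
  classical
  have h4 : (4 : F) ≠ 0 := by
    have : (4 : F) = 2 * 2 := by norm_num
    rw [this]; exact mul_ne_zero h2 h2
  have hu : u0 (lo F) = (Finset.univ.filter (fun l : PG F => ∀ P ∈ lo F, ¬ P.orthogonal l)).card := by
    unfold u0
    rw [Nat.card_eq_fintype_card, Fintype.card_subtype]
  set W : Finset (F × F) := Finset.univ.filter (fun p : F × F => p.1 ≠ 0 ∧
    ∀ x, x ≠ 1 → p.1 * x - x ^ 2 + p.2 ≠ 0) with hW
  have him : Finset.univ.filter (fun l : PG F => ∀ P ∈ lo F, ¬ P.orthogonal l) =
      W.image (fun p => ln p.1 p.2) := by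
    ext l
    simp only [Finset.mem_filter, Finset.mem_univ, true_and, Finset.mem_image]
    have key : ∀ a c : F, (∀ P ∈ lo F, ¬ P.orthogonal (ln a c)) ↔
        (a ≠ 0 ∧ ∀ x, x ≠ 1 → a * x - x ^ 2 + c ≠ 0) := by
      intro a c
      unfold lo
      constructor
      · intro h
        refine ⟨?_, ?_⟩
        · have := h (pext F) (by simp)
          rwa [pext_ln] at this
        · intro x hx
          have := h (cpt x) (by simp; right; right; exact ⟨x, hx, rfl⟩)
          rwa [cpt_ln] at this
      · rintro ⟨ha, hx⟩ P hP
        rw [Finset.mem_insert, Finset.mem_insert, Finset.mem_image] at hP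
        rcases hP with rfl | rfl | ⟨x, hx1, rfl⟩
        · rw [pext_ln]; exact ha
        · exact pinf_ln a c
        · rw [cpt_ln]
          exact hx x (Finset.mem_erase.mp hx1).1
    constructor
    · intro hl
      have h1 : l.rep 1 ≠ 0 := by
        intro h0
        apply hl (pinf F) (by unfold lo; simp)
        rw [← l.mk_rep]
        unfold pinf
        rw [Projectivization.orthogonal_mk]
        simp [dotProduct, Fin.sum_univ_three, h0]
      have hln : l = ln (-(l.rep 0) / l.rep 1) (-(l.rep 2) / l.rep 1) := by
        conv_lhs => rw [← l.mk_rep]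
        unfold ln
        rw [Projectivization.mk_eq_mk_iff']
        refine ⟨-(l.rep 1), ?_⟩
        funext i
        fin_cases i
        · simp; field_simp
        · simp
        · simp; field_simp
      refine ⟨(-(l.rep 0) / l.rep 1, -(l.rep 2) / l.rep 1), ?_, hln.symm⟩
      rw [hln] at hl
      rw [hW, Finset.mem_filter]
      exact ⟨Finset.mem_univ _, (key _ _).mp hl⟩
    · rintro ⟨p, hp, rfl⟩
      exact (key p.1 p.2).mpr (Finset.mem_filter.mp hp).2
  set A : Finset (F × F) := Finset.univ.filter (fun p : F × F => p.1 ≠ 0 ∧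
    ¬ IsSquare (p.1 ^ 2 + 4 * p.2)) with hA
  have hWA : W = insert (2, -1) A := by
    ext ⟨a, c⟩
    rw [hW, hA, Finset.mem_insert, Finset.mem_filter, Finset.mem_filter]
    simp only [Finset.mem_univ, true_and, Prod.mk.injEq]
    constructor
    · rintro ⟨ha, hx⟩
      by_cases hsq : IsSquare (a ^ 2 + 4 * c)
      · left
        obtain ⟨d, hd⟩ := hsq
        have r1 : (a + d) / 2 = 1 := by
          by_contra hne
          apply hx _ hne
          field_simp
          linear_combination hd
        have r2 : (a - d) / 2 = 1 := by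
          by_contra hne
          apply hx _ hne
          field_simp
          linear_combination hd
        rw [div_eq_iff h2] at r1 r2
        have ha2 : a = 2 := by
          have : 2 * a = 2 * 2 := by linear_combination r1 + r2
          exact mul_left_cancel₀ h2 this
        have hd0 : d = 0 := by linear_combination r1 - ha2
        refine ⟨ha2, ?_⟩
        rw [hd0, ha2] at hd
        have : 4 * c = 4 * (-1) := by linear_combination hd
        exact mul_left_cancel₀ h4 this
      · right
        exact ⟨ha, hsq⟩
    · rintro (⟨rfl, rfl⟩ | ⟨ha, hsq⟩)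
      · refine ⟨h2, ?_⟩
        intro x hx h0
        apply hx
        have : (x - 1) ^ 2 = 0 := by linear_combination -h0
        have := pow_eq_zero_iff (n := 2) (by norm_num) |>.mp this
        linear_combination this
      · refine ⟨ha, ?_⟩
        intro x _ h0
        apply hsq
        refine ⟨2 * x - a, ?_⟩
        linear_combination 4 * h0
  have hnotin : ((2 : F), (-1 : F)) ∉ A := by
    rw [hA, Finset.mem_filter]
    rintro ⟨_, _, h⟩
    apply h
    exact ⟨0, by norm_num⟩
  have hAc : A.card = (Fintype.card F - 1) * (Finset.univ.filter (fun a : F => ¬ IsSquare a)).card := by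
    have : A.card = ((Finset.univ.erase (0 : F)) ×ˢ (Finset.univ.filter (fun a : F => ¬ IsSquare a))).card := by
      apply Finset.card_nbij (fun p => (p.1, p.1 ^ 2 + 4 * p.2))
      · rintro ⟨a, c⟩ hp
        rw [hA] at hp
        simp at hp ⊢
        exact hp
      · rintro ⟨a, c⟩ _ ⟨a', c'⟩ _ he
        simp only [Prod.mk.injEq] at he
        obtain ⟨rfl, he⟩ := he
        have : 4 * c = 4 * c' := by linear_combination he
        rw [mul_left_cancel₀ h4 this]
      · rintro ⟨a, d⟩ hp
        simp at hp
        refine ⟨(a, (d - a ^ 2) / 4), ?_, ?_⟩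
        · rw [hA]
          simp
          refine ⟨hp.1, ?_⟩
          have : a ^ 2 + 4 * ((d - a ^ 2) / 4) = d := by field_simp; ring
          rw [this]
          exact hp.2
        · simp
          field_simp
          ring
    rw [this, Finset.card_product, Finset.card_erase_of_mem (Finset.mem_univ _), Finset.card_univ]
  rw [hu, him, Finset.card_image_of_injective _ (by
    rintro ⟨a, c⟩ ⟨a', c'⟩ h
    obtain ⟨h1, h2⟩ := ln_inj a c a' c' h
    rw [h1, h2]), hWA, Finset.card_insert_of_notMem hnotin, hAc]
  have hn := nsq_card h2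
  set n := (Finset.univ.filter (fun a : F => ¬ IsSquare a)).card
  have : Fintype.card F - 1 = 2 * n := by omega
  rw [this]
  ring

end Pool.Agent.H73G
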