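import Pool.Agent.H73G.Four
import Pool.Agent.H73G.Final

/-!
# No line with three points, each on exactly one trisecant, if there are four good points
-/

set_option autoImplicit false
set_option linter.unusedSectionVars false

namespace Pool.Agent.H73G

open Configuration
open scoped LinearAlgebra.Projectivization

section

variable {F : Type} [Field F] [Fintype F] [DecidableEq F] {ι : Type} {S : Finset ι}
  {w : ι → Fin 3 → F} {x y z : ι} {f g h : Fin 3 → F}

theorem BB_symm (w : ι → Fin 3 → F) (x y z : ι) (f h : Fin 3 → F) (u v : Fin 3 → F) :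
    BB w x y z f h u v = BB w x y z f h v u := by
  unfold BB B
  ring

theorem BB_self (w : ι → Fin 3 → F) (x y z : ι) (f h : Fin 3 → F) (u : Fin 3 → F) :
    BB w x y z f h u u = 2 * QQ w x y z f h u := by
  unfold BB QQ
  exact B_self _ _ _ _ _ _ _

theorem Base.step (H : Base S w x y z f g h) (htan : ∀ p, Good S w p → ∃ k, Tan S w p k)
    {P R : ι} (hP : P ∈ S) (hR : R ∈ S) (hPR : P ≠ R) (hPx : P ≠ x) (hPy : P ≠ y) (hRx : R ≠ x)
    (_hRy : R ≠ y) (v : Fin 3 → F) (s : F) (hs : slo w x y P R = s) (hs0 : s ≠ 0)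
    (h1 : QQ w x y z f h (w P) * (s * det3 (w z) v (w x) + det3 (w z) v (w y)) =
      det3 (w z) v (w P) * (s * BB w x y z f h (w x) (w P) + BB w x y z f h (w y) (w P)))
    (h2 : QQ w x y z f h (w R) * (s * det3 (w z) v (w x) + det3 (w z) v (w y)) =
      det3 (w z) v (w R) * (s * BB w x y z f h (w x) (w R) + BB w x y z f h (w y) (w R))) :
    det3 (w P) (w R) (w x) * (s * det3 (w z) v (w x) + det3 (w z) v (w y)) +
      2 * det3 (w R) (w y) (w x) * det3 (w z) v (w P) = 0 := by
  have hgood : ∀ p, Good S w p → QQ w x y z f h (w p) = 0 := by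
    intro p hp
    obtain ⟨k, hk⟩ := htan p hp
    exact (H.Qgood hp hk).1
  have hBxy : BB w x y z f h (w x) (w y) ≠ 0 := by
    obtain ⟨k, hk⟩ := htan x H.hx
    exact (H.Qgood H.hx hk).2 y H.hy.1 H.hxy.symm
  have hd : det3 (w P) (w y) (w x) ≠ 0 := by
    have := H.hx.2 P hP y H.hy.1 hPx H.hxy.symm hPy
    intro h; apply this; rw [← h]; unfold det3; ring
  have hdR : det3 (w P) (w x) (w R) ≠ 0 := by
    have := H.hx.2 R hR P hP hRx hPx hPR.symm
    intro h; apply this; rw [← h]; unfold det3; ring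
  have hν0 : det3 (w P) (w R) (w x) ≠ 0 := by
    intro h; apply hdR
    have : det3 (w P) (w x) (w R) = - det3 (w P) (w R) (w x) := by unfold det3; ring
    rw [this, h, neg_zero]
  have hsl : det3 (w P) (w y) (w R) = s * det3 (w P) (w R) (w x) := by
    unfold slo at hs
    rw [div_eq_iff hdR] at hs
    have e1 : det3 (w P) (w y) (w R) = - det3 (w P) (w R) (w y) := by unfold det3; ring
    have e2 : det3 (w P) (w x) (w R) = - det3 (w P) (w R) (w x) := by unfold det3; ring
    rw [e1, hs, e2]
    ring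
  set d := det3 (w P) (w y) (w x) with hddef
  set μ := det3 (w R) (w y) (w x) with hμ
  set ν := det3 (w P) (w R) (w x) with hν
  have hvec : (fun i => d * w R i + 0 * w R i + 0 * w R i) =
      (fun i => μ * w P i + ν * w y i + (s * ν) * w x i) := by
    funext i
    have hcr := cramer (w P) (w y) (w x) (w R) i
    rw [hsl] at hcr
    linear_combination hcr
  have q1 := Q_three (w x) (w y) (w z) (dot f (w y) * dot h (w x)) (dot f (w z) * dot h (w y))
    (dot f (w z) * dot h (w x)) d 0 0 (w R) (w R) (w R)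
  have q2 := Q_three (w x) (w y) (w z) (dot f (w y) * dot h (w x)) (dot f (w z) * dot h (w y))
    (dot f (w z) * dot h (w x)) μ ν (s * ν) (w P) (w y) (w x)
  have bx1 := B_three (w x) (w y) (w z) (dot f (w y) * dot h (w x)) (dot f (w z) * dot h (w y))
    (dot f (w z) * dot h (w x)) d 0 0 (w R) (w R) (w R) (w x)
  have bx2 := B_three (w x) (w y) (w z) (dot f (w y) * dot h (w x)) (dot f (w z) * dot h (w y))
    (dot f (w z) * dot h (w x)) μ ν (s * ν) (w P) (w y) (w x) (w x)
  have by1 := B_three (w x) (w y) (w z) (dot f (w y) * dot h (w x)) (dot f (w z) * dot h (w y))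
    (dot f (w z) * dot h (w x)) d 0 0 (w R) (w R) (w R) (w y)
  have by2 := B_three (w x) (w y) (w z) (dot f (w y) * dot h (w x)) (dot f (w z) * dot h (w y))
    (dot f (w z) * dot h (w x)) μ ν (s * ν) (w P) (w y) (w x) (w y)
  have l1 := det3_l3 d 0 0 (w R) (w R) (w R) (w z) v
  have l2 := det3_l3 μ ν (s * ν) (w P) (w y) (w x) (w z) v
  rw [hvec, q2] at q1
  rw [hvec, bx2] at bx1
  rw [hvec, by2] at by1
  rw [hvec, l2] at l1
  change μ ^ 2 * QQ w x y z f h (w P) + ν ^ 2 * QQ w x y z f h (w y) +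
    (s * ν) ^ 2 * QQ w x y z f h (w x) + μ * ν * BB w x y z f h (w P) (w y) +
    μ * (s * ν) * BB w x y z f h (w P) (w x) + ν * (s * ν) * BB w x y z f h (w y) (w x) =
    d ^ 2 * QQ w x y z f h (w R) + 0 ^ 2 * QQ w x y z f h (w R) +
    0 ^ 2 * QQ w x y z f h (w R) + _ + _ + _ at q1
  change μ * BB w x y z f h (w P) (w x) + ν * BB w x y z f h (w y) (w x) +
    (s * ν) * BB w x y z f h (w x) (w x) = d * BB w x y z f h (w R) (w x) + 0 * _ + 0 * _ at bx1
  change μ * BB w x y z f h (w P) (w y) + ν * BB w x y z f h (w y) (w y) +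
    (s * ν) * BB w x y z f h (w x) (w y) = d * BB w x y z f h (w R) (w y) + 0 * _ + 0 * _ at by1
  rw [hgood x H.hx, hgood y H.hy] at q1
  rw [BB_self w x y z f h (w x), hgood x H.hx] at bx1
  rw [BB_self w x y z f h (w y), hgood y H.hy] at by1
  rw [BB_symm w x y z f h (w x) (w P), BB_symm w x y z f h (w y) (w P)] at h1
  rw [BB_symm w x y z f h (w x) (w R), BB_symm w x y z f h (w y) (w R)] at h2
  rw [BB_symm w x y z f h (w y) (w x)] at q1 bx1
  set Bxy := BB w x y z f h (w x) (w y)
  set QP := QQ w x y z f h (w P)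
  set QR := QQ w x y z f h (w R)
  set BPx := BB w x y z f h (w P) (w x)
  set BPy := BB w x y z f h (w P) (w y)
  set BRx := BB w x y z f h (w R) (w x)
  set BRy := BB w x y z f h (w R) (w y)
  set lx := det3 (w z) v (w x)
  set ly := det3 (w z) v (w y)
  set lP := det3 (w z) v (w P)
  set lR := det3 (w z) v (w R)
  have e1 : d ^ 2 * QR = μ ^ 2 * QP + μ * ν * BPy + μ * (s * ν) * BPx + ν * (s * ν) * Bxy := by
    linear_combination -q1
  have e2 : d * BRx = μ * BPx + ν * Bxy := by linear_combination -bx1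
  have e3 : d * BRy = μ * BPy + s * ν * Bxy := by linear_combination -by1
  have e4 : d * lR = μ * lP + ν * ly + s * ν * lx := by linear_combination -l1
  have h3 : (s * ν * Bxy) * (ν * (s * lx + ly) + 2 * μ * lP) = 0 := by
    have h4 : (d ^ 2 * QR) * (s * lx + ly) = (d * lR) * (s * (d * BRx) + d * BRy) := by
      linear_combination d ^ 2 * h2
    rw [e1, e2, e3, e4] at h4
    linear_combination -h4 + μ ^ 2 * h1
  exact (mul_eq_zero.mp h3).resolve_left (mul_ne_zero (mul_ne_zero hs0 hν0) hBxy)

theorem Base.nothree (H : Base S w x y z f g h) (htan : ∀ p, Good S w p → ∃ k, Tan S w p k)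
    {v : ι} (hv : Good S w v) (hvx : v ≠ x) (hvy : v ≠ y) (hvz : v ≠ z)
    (Ns : ι → Finset F)
    (hN : ∀ o a, a ∈ Ns o ↔ ∀ r ∈ S, r ≠ o → r ≠ x → slo w x y o r ≠ a)
    {P R T : ι} (hP : P ∈ S) (hR : R ∈ S) (hT : T ∈ S) (hPR : P ≠ R) (hPT : P ≠ T) (hRT : R ≠ T)
    (h0 : det3 (w P) (w R) (w T) = 0) (bP : ¬ Good S w P) (bR : ¬ Good S w R) (bT : ¬ Good S w T)
    (nP : (Ns P).card = 2) (nR : (Ns R).card = 2) (nT : (Ns T).card = 2) : False := by
  have hne : ∀ {o p : ι}, ¬ Good S w o → Good S w p → o ≠ p := by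
    rintro o p ho hp rfl
    exact ho hp
  have hPx := hne bP H.hx
  have hPy := hne bP H.hy
  have hRx := hne bR H.hx
  have hRy := hne bR H.hy
  have hTx := hne bT H.hx
  have hTy := hne bT H.hy
  have hdx : ∀ o ∈ S, ∀ r ∈ S, o ≠ r → o ≠ x → r ≠ x → det3 (w o) (w x) (w r) ≠ 0 := by
    intro o ho r hr hor hox hrx
    have := H.hx.2 r hr o ho hrx hox hor.symm
    intro h; apply this; rw [← h]; unfold det3; ring
  have s12 : slo w x y R P = slo w x y P R := by
    unfold slo
    rw [div_eq_div_iff (hdx R hR P hP hPR.symm hRx hPx) (hdx P hP R hR hPR hPx hRx)]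
    unfold det3; ring
  have s13 : slo w x y T P = slo w x y P T := by
    unfold slo
    rw [div_eq_div_iff (hdx T hT P hP hPT.symm hTx hPx) (hdx P hP T hT hPT hPx hTx)]
    unfold det3; ring
  have s23 : slo w x y P T = slo w x y P R := by
    unfold slo
    rw [div_eq_div_iff (hdx P hP T hT hPT hPx hTx) (hdx P hP R hR hPR hPx hRx)]
    have := plucker (w P) (w x) (w y) (w T) (w R)
    have e : det3 (w P) (w T) (w R) = 0 := by
      have : det3 (w P) (w T) (w R) = - det3 (w P) (w R) (w T) := by unfold det3; ring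
      rw [this, h0, neg_zero]
    rw [e] at this
    linear_combination this
  set s := slo w x y P R with hs
  have hs0 : s ≠ 0 := by
    rw [hs]
    unfold slo
    apply div_ne_zero _ (hdx P hP R hR hPR hPx hRx)
    have := H.hy.2 P hP R hR hPy hRy hPR
    intro h; apply this; rw [← h]; unfold det3; ring
  have f1 := H.four htan hP bP (Ns P) (hN P) nP hv hvx hvy hvz hR hT hPR.symm hPT.symm hRT h0
  have f2 := H.four htan hR bR (Ns R) (hN R) nR hv hvx hvy hvz hP hT hPR hRT.symm hPT (by
    have : det3 (w R) (w P) (w T) = - det3 (w P) (w R) (w T) := by unfold det3; ring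
    rw [this, h0, neg_zero])
  have f3 := H.four htan hT bT (Ns T) (hN T) nT hv hvx hvy hvz hP hR hPT hRT hPR (by
    have : det3 (w T) (w P) (w R) = det3 (w P) (w R) (w T) := by unfold det3; ring
    rw [this, h0])
  rw [s12] at f2
  rw [s13, s23] at f3
  have g1 := H.step htan hP hR hPR hPx hPy hRx hRy (w v) s rfl hs0 f1 f2
  have g2 := H.step htan hP hT hPT hPx hPy hTx hTy (w v) s s23 hs0 f1 f3
  have lP : det3 (w z) (w v) (w P) ≠ 0 :=
    H.hz.2 v hv.1 P hP hvz (hne bP H.hz) (Ne.symm (hne bP hv))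
  have hdet : det3 (w P) (w y) (w x) * det3 (w R) (w T) (w x) =
      det3 (w R) (w y) (w x) * det3 (w P) (w T) (w x) -
      det3 (w T) (w y) (w x) * det3 (w P) (w R) (w x) := by
    unfold det3; ring
  have hA : det3 (w P) (w y) (w x) ≠ 0 := by
    have := H.hx.2 P hP y H.hy.1 hPx H.hxy.symm hPy
    intro h; apply this; rw [← h]; unfold det3; ring
  have hB : det3 (w R) (w T) (w x) ≠ 0 := by
    have := H.hx.2 R hR T hT hRx hTx hRT
    intro h; apply this; rw [← h]; unfold det3; ring
  have h5 : (2 * det3 (w z) (w v) (w P)) * (det3 (w P) (w y) (w x) * det3 (w R) (w T) (w x)) = 0 := by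
    rw [hdet]
    linear_combination det3 (w P) (w T) (w x) * g1 - det3 (w P) (w R) (w x) * g2
  exact mul_ne_zero (mul_ne_zero H.two lP) (mul_ne_zero hA hB) h5

end

variable {F : Type} [Field F] [Fintype F] [DecidableEq F]

/-- **Theorem.** The bound for sets with at least four good points. -/
theorem fourgood (h2 : (2 : F) ≠ 0) (S : Finset (PG F)) (hS : S.card = Fintype.card F + 1)
    (G : Finset (PG F)) (hG : ∀ P, P ∈ G ↔ Good S rp P) (h4 : 4 ≤ G.card) :
    4 * ((Fintype.card F : ℤ) + 1 - G.card) ≤ 5 * ∑ l : PG F, ex S l := by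
  classical
  obtain ⟨x, hx, y, hy, z, hz, hxy, hxz, hyz⟩ := Finset.two_lt_card.mp (show 2 < G.card by omega)
  have gx := (hG x).mp hx
  have gy := (hG y).mp hy
  have gz := (hG z).mp hz
  obtain ⟨v, hv, hvn⟩ : ∃ v ∈ G, v ∉ ({x, y, z} : Finset (PG F)) := by
    by_contra hcon
    push Not at hcon
    have := Finset.card_le_card (show G ⊆ ({x, y, z} : Finset (PG F)) from hcon)
    have h3 : ({x, y, z} : Finset (PG F)).card ≤ 3 := Finset.card_le_three
    omega
  simp only [Finset.mem_insert, Finset.mem_singleton, not_or] at hvn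
  have gv := (hG v).mp hv
  obtain ⟨f, hf⟩ := tan_exists S hS x gx.1
  obtain ⟨g, hg⟩ := tan_exists S hS y gy.1
  obtain ⟨h, hh⟩ := tan_exists S hS z gz.1
  have H : Base S rp x y z f g h := ⟨hS, h2, gx, gy, gz, hxy, hxz, hyz, hf, hg, hh⟩
  have htan : ∀ p, Good S rp p → ∃ k, Tan S rp p k := fun p hp => tan_exists S hS p hp.1
  set Ns : PG F → Finset F := fun o =>
    Finset.univ.filter (fun a : F => ∀ r ∈ S, r ≠ o → r ≠ x → slo rp x y o r ≠ a) with hNs
  have hN : ∀ o a, a ∈ Ns o ↔ ∀ r ∈ S, r ≠ o → r ≠ x → slo rp x y o r ≠ a := by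
    intro o a
    rw [hNs]
    simp
  set N1 := S.filter (fun P => ¬ Good S rp P ∧ tg S P = 2) with hN1
  have hcard2 : ∀ o ∈ N1, (Ns o).card = 2 := by
    intro o ho
    obtain ⟨hoS, hob, hot⟩ := Finset.mem_filter.mp ho
    have hox : o ≠ x := by rintro rfl; exact hob gx
    have hoy : o ≠ y := by rintro rfl; exact hob gy
    have h3 := tg_slopes S hoS gx gy.1 hxy.symm hox hoy (Ns o) (hN o)
    obtain ⟨A, hA1, hA2, _⟩ := H.rel htan hoS hob (Ns o) (hN o)
    have hob' := hob
    unfold Good at hob'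
    push Not at hob'
    obtain ⟨r, hr, t, ht, hro, hto, hrt, h0⟩ := hob' hoS
    have hrx : r ≠ x := by
      rintro rfl
      apply gx.2 t ht o hoS (Ne.symm hrt) hox hto
      rw [← h0]; unfold det3; ring
    have htx : t ≠ x := by
      rintro rfl
      apply gx.2 o hoS r hr hox hrt hro.symm
      rw [← h0]; unfold det3; ring
    have hdx : ∀ r ∈ S, r ≠ o → r ≠ x → det3 (rp o) (rp x) (rp r) ≠ 0 := by
      intro r hr hro hrx
      have := gx.2 r hr o hoS hrx hox hro
      intro h; apply this; rw [← h]; unfold det3; ring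
    have hsame : slo rp x y o r = slo rp x y o t := by
      unfold slo
      rw [div_eq_div_iff (hdx r hr hro hrx) (hdx t ht hto htx)]
      have := plucker (rp o) (rp x) (rp y) (rp r) (rp t)
      rw [h0] at this
      linear_combination this
    have hApos : 1 ≤ A.card := by
      rw [Nat.succ_le_iff, Finset.card_pos]
      rcases hA2 r hr t ht hro hrx hto htx hrt hsame with h | h
      · exact ⟨r, h⟩
      · exact ⟨t, h⟩
    omega
  have hN1c : (N1.card : ℤ) ≤ ∑ l : PG F, ex S l := by
    have h1 : N1 ⊆ (Finset.univ.filter (fun l : PG F => 3 ≤ cn S l)).biUnion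
        (fun l => N1.filter (fun P => P.orthogonal l)) := by
      intro P hP
      obtain ⟨hPS, hPb, _⟩ := Finset.mem_filter.mp hP
      obtain ⟨l, l1, l2⟩ := bad_line S P hPS hPb
      rw [Finset.mem_biUnion]
      exact ⟨l, by simpa using l2, Finset.mem_filter.mpr ⟨hP, l1⟩⟩
    have h3 := (Finset.card_le_card h1).trans Finset.card_biUnion_le
    have h5 : (N1.card : ℤ) ≤ ∑ l ∈ Finset.univ.filter (fun l : PG F => 3 ≤ cn S l),
        ((N1.filter (fun P => P.orthogonal l)).card : ℤ) := by exact_mod_cast h3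
    refine h5.trans ?_
    have h6 : ∑ l ∈ Finset.univ.filter (fun l : PG F => 3 ≤ cn S l),
        ((N1.filter (fun P => P.orthogonal l)).card : ℤ) ≤
        ∑ l ∈ Finset.univ.filter (fun l : PG F => 3 ≤ cn S l), ex S l := by
      apply Finset.sum_le_sum
      intro l hl
      have hl' := (Finset.mem_filter.mp hl).2
      have hsub : N1.filter (fun P => P.orthogonal l) ⊆ S.filter (fun P => P.orthogonal l) := by
        intro P hP
        obtain ⟨a, b⟩ := Finset.mem_filter.mp hP
        exact Finset.mem_filter.mpr ⟨(Finset.mem_filter.mp a).1, b⟩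
      have hle : (N1.filter (fun P => P.orthogonal l)).card ≤ cn S l := Finset.card_le_card hsub
      unfold ex
      rw [if_pos hl']
      by_cases h3 : cn S l = 3
      · have hle2 : (N1.filter (fun P => P.orthogonal l)).card ≤ 2 := by
          by_contra hcon
          push Not at hcon
          obtain ⟨P, hP, R, hR, T, hT, hPR, hPT, hRT⟩ := Finset.two_lt_card.mp hcon
          obtain ⟨hP1, hP2⟩ := Finset.mem_filter.mp hP
          obtain ⟨hR1, hR2⟩ := Finset.mem_filter.mp hR
          obtain ⟨hT1, hT2⟩ := Finset.mem_filter.mp hT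
          obtain ⟨PS, Pb, _⟩ := Finset.mem_filter.mp hP1
          obtain ⟨RS, Rb, _⟩ := Finset.mem_filter.mp hR1
          obtain ⟨TS, Tb, _⟩ := Finset.mem_filter.mp hT1
          exact H.nothree htan gv hvn.1 hvn.2.1 hvn.2.2 Ns hN PS RS TS hPR hPT hRT
            ((coll_iff P R T).mpr ⟨l, hP2, hR2, hT2⟩) Pb Rb Tb (hcard2 P hP1) (hcard2 R hR1)
            (hcard2 T hT1)
        rw [h3]
        have : ((N1.filter (fun P => P.orthogonal l)).card : ℤ) ≤ 2 := by exact_mod_cast hle2
        norm_num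
        linarith
      · have h4 : (4 : ℤ) ≤ cn S l := by
          have : 4 ≤ cn S l := by omega
          exact_mod_cast this
        have : ((N1.filter (fun P => P.orthogonal l)).card : ℤ) ≤ cn S l := by exact_mod_cast hle
        nlinarith
    refine h6.trans ?_
    apply Finset.sum_le_sum_of_subset_of_nonneg (Finset.filter_subset _ _)
    intro l _ _
    exact ex_nonneg S l
  have hpt : ∀ P ∈ S, (3 : ℤ) - 2 * (if P ∈ G then 1 else 0) - (if P ∈ N1 then 1 else 0)
      ≤ (tg S P : ℤ) := by
    intro P hP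
    by_cases hPG : P ∈ G
    · have hPN : P ∉ N1 := by
        intro h
        exact (Finset.mem_filter.mp h).2.1 ((hG P).mp hPG)
      rw [if_pos hPG, if_neg hPN]
      have : (1 : ℤ) ≤ tg S P := by exact_mod_cast tg_pos S hS P hP
      linarith
    · have hb : ¬ Good S rp P := fun h => hPG ((hG P).mpr h)
      have h3 := tg_bad S hS P hP hb
      by_cases hPN : P ∈ N1
      · rw [if_neg hPG, if_pos hPN]
        have : (2 : ℤ) ≤ tg S P := by exact_mod_cast h3
        linarith
      · rw [if_neg hPG, if_neg hPN]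
        have : tg S P ≠ 2 := fun h => hPN (Finset.mem_filter.mpr ⟨hP, hb, h⟩)
        have : (3 : ℤ) ≤ tg S P := by
          have : 3 ≤ tg S P := by omega
          exact_mod_cast this
        linarith
  have hsum := Finset.sum_le_sum hpt
  have hGS : ∑ P ∈ S, (if P ∈ G then (1 : ℤ) else 0) = G.card := by
    rw [Finset.sum_boole]
    congr 2
    ext P
    rw [Finset.mem_filter]
    constructor
    · exact fun h => h.2
    · exact fun h => ⟨((hG P).mp h).1, h⟩
  have hNS : ∑ P ∈ S, (if P ∈ N1 then (1 : ℤ) else 0) = N1.card := by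
    rw [Finset.sum_boole]
    congr 2
    ext P
    rw [Finset.mem_filter]
    constructor
    · exact fun h => h.2
    · exact fun h => ⟨(Finset.mem_filter.mp h).1, h⟩
  rw [Finset.sum_sub_distrib, Finset.sum_sub_distrib, ← Finset.mul_sum, hGS, hNS,
    Finset.sum_const, nsmul_eq_mul, hS] at hsum
  have htot := tg_total S hS
  push_cast at hsum
  linarith

/-- **Theorem.** The general upper bound. -/
theorem upper2 (h2 : (2 : F) ≠ 0) (hodd : Odd (Fintype.card F)) (S : Finset (PG F))
    (hS : S.card = Fintype.card F + 1)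
    {p q r : PG F} (hp : p ∈ S) (hq : q ∈ S) (hr : r ∈ S) (hpq : p ≠ q) (hpr : p ≠ r) (hqr : q ≠ r)
    (hc : det3 (rp p) (rp q) (rp r) = 0) :
    2 * ((Fintype.card F : ℤ) - 2) ≤ 3 * ∑ l : PG F, ex S l := by
  classical
  set G := S.filter (fun P => Good S rp P) with hG
  have hGm : ∀ P, P ∈ G ↔ Good S rp P := by
    intro P
    rw [hG, Finset.mem_filter]
    exact ⟨fun h => h.2, fun h => ⟨h.1, h⟩⟩
  have hpos : 1 ≤ ∑ l : PG F, ex S l := by
    obtain ⟨l, l1, l2, l3⟩ := (coll_iff p q r).mp hc
    have h3 : 3 ≤ cn S l := by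
      unfold cn
      rw [Nat.succ_le_iff, Finset.two_lt_card]
      exact ⟨p, Finset.mem_filter.mpr ⟨hp, l1⟩, q, Finset.mem_filter.mpr ⟨hq, l2⟩, r,
        Finset.mem_filter.mpr ⟨hr, l3⟩, hpq, hpr, hqr⟩
    have h4 : 1 ≤ ex S l := by
      unfold ex
      rw [if_pos h3]
      have : (3 : ℤ) ≤ cn S l := by exact_mod_cast h3
      nlinarith
    exact h4.trans (Finset.single_le_sum (fun l _ => ex_nonneg S l) (Finset.mem_univ l))
  obtain ⟨m, hm⟩ := hodd
  have hm' : (Fintype.card F : ℤ) = 2 * m + 1 := by exact_mod_cast hm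
  by_cases h5 : 5 ≤ G.card
  · have h6 := five h2 S hS hp hq hr hpq hpr hqr hc G hGm h5
    have h7 := upper h2 S hS hp hq hr hpq hpr hqr hc
    have h8 := fourgood h2 S hS G hGm (by omega)
    have h9 : (5 : ℤ) ≤ G.card := by exact_mod_cast h5
    have h10 : G.card ≤ S.card := Finset.card_le_card (Finset.filter_subset _ _)
    have h11 : (G.card : ℤ) ≤ Fintype.card F + 1 := by
      rw [hS] at h10
      exact_mod_cast h10
    omega
  · by_cases h4 : 4 ≤ G.card
    · have h6 := fourgood h2 S hS G hGm h4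
      have h7 : (G.card : ℤ) = 4 := by
        have : G.card = 4 := by omega
        exact_mod_cast this
      have h8 : 3 ≤ Fintype.card F := by
        have : G.card ≤ S.card := Finset.card_le_card (Finset.filter_subset _ _)
        omega
      rw [h7, hm'] at h6
      rw [hm']
      rcases Nat.lt_or_ge m 3 with hlt | hge
      · interval_cases m <;> omega
      · have h9 : (3 : ℤ) ≤ m := by exact_mod_cast hge
        linarith
    · set Bd := S.filter (fun P => ¬ Good S rp P) with hBd
      have hsum : G.card + Bd.card = Fintype.card F + 1 := by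
        rw [hG, hBd, Finset.card_filter_add_card_filter_not, hS]
      have hbad := bad_count S Bd (fun P hP => Finset.mem_filter.mp hP)
      have : (Fintype.card F : ℤ) - 2 ≤ Bd.card := by
        have : Fintype.card F ≤ Bd.card + 2 := by omega
        have : (Fintype.card F : ℤ) ≤ Bd.card + 2 := by exact_mod_cast this
        linarith
      linarith

end Pool.Agent.H73G
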