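import Pool.Agent.H73G.Tc

/-!
# The relation at a bad point, without squares; points on one trisecant
-/

set_option autoImplicit false
set_option linter.unusedSectionVars false

namespace Pool.Agent.H73G

variable {F : Type} [Field F] [Fintype F] [DecidableEq F] {ι : Type} {S : Finset ι}
  {w : ι → Fin 3 → F} {x y z : ι} {f g h : Fin 3 → F}

theorem Base.rel (H : Base S w x y z f g h) (htan : ∀ p, Good S w p → ∃ k, Tan S w p k) {o : ι}
    (ho : o ∈ S) (hob : ¬ Good S w o) (N : Finset F)
    (hN : ∀ a, a ∈ N ↔ ∀ r ∈ S, r ≠ o → r ≠ x → slo w x y o r ≠ a) :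
    ∃ A : Finset ι, N.card = A.card + 1 ∧
      (∀ r ∈ S, ∀ t ∈ S, r ≠ o → r ≠ x → t ≠ o → t ≠ x → r ≠ t →
        slo w x y o r = slo w x y o t → r ∈ A ∨ t ∈ A) ∧
      ∀ p, Good S w p → p ≠ x →
        (∏ r ∈ A, (slo w x y o r - slo w x y o p)) * BB w x y z f h (w p) (w o) =
          -(det3 (w o) (w x) (w p) / det3 (w o) (w x) (w y)) * BB w x y z f h (w x) (w o) *
            ∏ a ∈ N, (a - slo w x y o p) := by
  classical
  have hop : ∀ p, Good S w p → o ≠ p := by
    rintro p hp rfl
    exact hob hp
  have hox := hop x H.hx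
  have hoy := hop y H.hy
  set c : ι → F := slo w x y o with hc
  set S' := (S.erase o).erase x with hS'
  have hS'm : ∀ r, r ∈ S' ↔ r ∈ S ∧ r ≠ o ∧ r ≠ x := by
    intro r
    rw [hS', Finset.mem_erase, Finset.mem_erase]
    tauto
  have hS'c : S'.card + 1 = Fintype.card F := by
    have h1 : (S.erase o).card + 1 = S.card := Finset.card_erase_add_one ho
    have h2 : S'.card + 1 = (S.erase o).card :=
      Finset.card_erase_add_one (Finset.mem_erase.mpr ⟨hox.symm, H.hx.1⟩)
    have := H.card
    omega
  have hdx : ∀ r ∈ S', det3 (w o) (w x) (w r) ≠ 0 := by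
    intro r hr
    have hr' := (hS'm r).mp hr
    have := H.hx.2 r hr'.1 o ho hr'.2.2 hox hr'.2.1
    intro h; apply this; rw [← h]; unfold det3; ring
  have hD1 : det3 (w o) (w x) (w y) ≠ 0 := hdx y ((hS'm y).mpr ⟨H.hy.1, hoy.symm, H.hxy.symm⟩)
  have hsl : ∀ r ∈ S', ∀ t ∈ S', c r = c t ↔ det3 (w o) (w r) (w t) = 0 := by
    intro r hr t ht
    have h1 := hdx r hr
    have h2 := hdx t ht
    rw [hc]
    unfold slo
    rw [div_eq_div_iff h1 h2]
    have := plucker (w o) (w x) (w y) (w r) (w t)
    constructor
    · intro he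
      have h3 : det3 (w o) (w r) (w t) * det3 (w o) (w x) (w y) = 0 := by
        linear_combination he - this
      exact (mul_eq_zero.mp h3).resolve_right hD1
    · intro h0
      rw [h0] at this
      linear_combination this
  set Im := S'.image c with hIm
  have hNIm : N = Finset.univ \ Im := by
    ext a
    rw [hN, Finset.mem_sdiff, hIm, Finset.mem_image]
    constructor
    · intro h
      refine ⟨Finset.mem_univ _, ?_⟩
      rintro ⟨r, hr, rfl⟩
      have hr' := (hS'm r).mp hr
      exact h r hr'.1 hr'.2.1 hr'.2.2 rfl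
    · rintro ⟨_, h⟩ r hr1 hr2 hr3 hr4
      exact h ⟨r, (hS'm r).mpr ⟨hr1, hr2, hr3⟩, hr4⟩
  have hNc : N.card + Im.card = Fintype.card F := by
    rw [hNIm, Finset.card_sdiff_of_subset (Finset.subset_univ _), Finset.card_univ]
    have := Finset.card_le_univ Im
    omega
  obtain ⟨Rp, hRp1, hRp2, hRp3⟩ := Finset.exists_subset_injOn_image_eq_of_surjOn (S' : Set ι) Im
    (f := c) (by
      intro a ha
      have := Finset.mem_image.mp (Finset.mem_coe.mp ha)
      obtain ⟨r, hr, hra⟩ := this
      exact ⟨r, Finset.mem_coe.mpr hr, hra⟩)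
  have hRpS : Rp ⊆ S' := by
    intro r hr
    exact Finset.mem_coe.mp (hRp1 (Finset.mem_coe.mpr hr))
  have hRpc : Rp.card = Im.card := by
    rw [← hRp3, Finset.card_image_of_injOn hRp2]
  set A := S' \ Rp with hA
  have hAc : A.card + Rp.card = S'.card := Finset.card_sdiff_add_card_eq_card hRpS
  have hN1 : N.card = A.card + 1 := by omega
  refine ⟨A, hN1, ?_, ?_⟩
  · intro r hr t ht hro hrx hto htx hrt he
    have hr' := (hS'm r).mpr ⟨hr, hro, hrx⟩
    have ht' := (hS'm t).mpr ⟨ht, hto, htx⟩
    by_contra hcon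
    push Not at hcon
    have h1 : r ∈ Rp := by
      by_contra h
      exact hcon.1 (Finset.mem_sdiff.mpr ⟨hr', h⟩)
    have h2 : t ∈ Rp := by
      by_contra h
      exact hcon.2 (Finset.mem_sdiff.mpr ⟨ht', h⟩)
    exact hrt (hRp2 (Finset.mem_coe.mpr h1) (Finset.mem_coe.mpr h2) he)
  · intro p gp hpx
    set b := BB w x y z f h (w x) (w o) with hb
    have hpo := hop p gp
    have hpS' := (hS'm p).mpr ⟨gp.1, hpo.symm, hpx⟩
    have hdp := hdx p hpS'
    have hpR : p ∈ Rp := by
      have : c p ∈ Rp.image c := by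
        rw [hRp3]
        exact Finset.mem_image_of_mem c hpS'
      obtain ⟨ρ, hρ, hρc⟩ := Finset.mem_image.mp this
      have hρS := hRpS hρ
      have h0 := (hsl ρ hρS p hpS').mp hρc
      have hρ' := (hS'm ρ).mp hρS
      by_cases hρp : ρ = p
      · rwa [hρp] at hρ
      · exfalso
        apply gp.2 o ho ρ hρ'.1 hpo hρp hρ'.2.1.symm
        rw [← h0]; unfold det3; ring
    set T := S'.erase p with hTdef
    have hT : ∀ r, r ∈ T ↔ r ∈ S ∧ r ≠ x ∧ r ≠ p ∧ r ≠ o := by
      intro r
      rw [hTdef, Finset.mem_erase, hS'm]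
      tauto
    have hTc : T.card + 1 = S'.card := Finset.card_erase_add_one hpS'
    have hTc2 : T.card + 2 = Fintype.card F := by omega
    have hstar := H.star htan ho gp hpx hox hpo T hT hTc2
    set lam := det3 (w o) (w x) (w p) / det3 (w o) (w x) (w y) with hlam
    have hlam0 : lam ≠ 0 := div_ne_zero hdp hD1
    have hfac : ∀ r ∈ T, det3 (w o) (w r) (w p) / det3 (w o) (w x) (w r) = lam * (c r - c p) := by
      intro r hr
      have hrS : r ∈ S' := Finset.mem_of_mem_erase hr
      have h1 := hdx r hrS
      have h2 := plucker (w o) (w x) (w y) (w r) (w p)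
      rw [hlam, hc]
      unfold slo
      field_simp
      linear_combination -h2
    rw [Finset.prod_congr rfl hfac, Finset.prod_mul_distrib, Finset.prod_const] at hstar
    have hlamp : lam ^ T.card * lam = 1 := by
      rw [← pow_succ]
      have : T.card + 1 = Fintype.card F - 1 := by omega
      rw [this]
      exact FiniteField.pow_card_sub_one_eq_one lam hlam0
    set PT := ∏ r ∈ T, (c r - c p) with hPT
    have hs2 : PT * BB w x y z f h (w p) (w o) = lam * b := by
      linear_combination lam * hstar - PT * BB w x y z f h (w p) (w o) * hlamp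
    have hprodN : (∏ r ∈ Rp.erase p, (c r - c p)) * ∏ a ∈ N, (a - c p) = -1 := by
      have e1 : ∏ r ∈ Rp.erase p, (c r - c p) = ∏ a ∈ Im.erase (c p), (a - c p) := by
        have e2 : Im.erase (c p) = (Rp.erase p).image c := by
          rw [← hRp3]
          ext a
          rw [Finset.mem_erase, Finset.mem_image, Finset.mem_image]
          constructor
          · rintro ⟨hne, r, hr, rfl⟩
            refine ⟨r, Finset.mem_erase.mpr ⟨?_, hr⟩, rfl⟩
            rintro rfl
            exact hne rfl
          · rintro ⟨r, hr, rfl⟩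
            have hr' := Finset.mem_erase.mp hr
            refine ⟨?_, r, hr'.2, rfl⟩
            intro he
            exact hr'.1 (hRp2 (Finset.mem_coe.mpr hr'.2) (Finset.mem_coe.mpr hpR) he)
        rw [e2, Finset.prod_image (by
          intro r hr t ht he
          exact hRp2 (Finset.mem_coe.mpr (Finset.mem_of_mem_erase hr))
            (Finset.mem_coe.mpr (Finset.mem_of_mem_erase ht)) he)]
      have hdisj : Disjoint (Im.erase (c p)) N := by
        rw [hNIm, Finset.disjoint_left]
        intro a ha ha'
        exact (Finset.mem_sdiff.mp ha').2 (Finset.mem_of_mem_erase ha)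
      have hun : Im.erase (c p) ∪ N = Finset.univ.erase (c p) := by
        ext a
        rw [hNIm, Finset.mem_union, Finset.mem_erase, Finset.mem_sdiff, Finset.mem_erase]
        have hcp : c p ∈ Im := Finset.mem_image_of_mem c hpS'
        constructor
        · rintro (⟨h1, _⟩ | ⟨_, h1⟩)
          · exact ⟨h1, Finset.mem_univ _⟩
          · refine ⟨?_, Finset.mem_univ _⟩
            rintro rfl
            exact h1 hcp
        · rintro ⟨h1, _⟩
          by_cases ha : a ∈ Im
          · exact Or.inl ⟨h1, ha⟩
          · exact Or.inr ⟨Finset.mem_univ _, ha⟩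
      rw [e1, ← Finset.prod_union hdisj, hun]
      exact prod_shift (c p)
    have hPTsplit : PT = (∏ r ∈ Rp.erase p, (c r - c p)) * ∏ r ∈ A, (c r - c p) := by
      have hd : Disjoint (Rp.erase p) A := by
        rw [hA, Finset.disjoint_left]
        intro r hr hr'
        exact (Finset.mem_sdiff.mp hr').2 (Finset.mem_of_mem_erase hr)
      have hu2 : Rp.erase p ∪ A = T := by
        ext r
        rw [hA, hTdef]
        simp only [Finset.mem_union, Finset.mem_erase, Finset.mem_sdiff]
        constructor
        · rintro (⟨h1, h2⟩ | ⟨h1, h2⟩)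
          · exact ⟨h1, hRpS h2⟩
          · refine ⟨?_, h1⟩
            rintro rfl
            exact h2 hpR
        · rintro ⟨h1, h2⟩
          by_cases hr : r ∈ Rp
          · exact Or.inl ⟨h1, hr⟩
          · exact Or.inr ⟨h2, hr⟩
      rw [hPT, ← hu2, Finset.prod_union hd]
    set PA := ∏ r ∈ A, (c r - c p) with hPA
    set PN := ∏ a ∈ N, (a - c p) with hPN
    have hrel : PT * PN = -PA := by
      rw [hPTsplit]
      linear_combination PA * hprodN
    change PA * BB w x y z f h (w p) (w o) = -lam * b * PN
    linear_combination (BB w x y z f h (w p) (w o)) * hrel - PN * hs2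

end Pool.Agent.H73G
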