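import Mathlib

/-!
# Segre's lemma of tangents for the points of a `(q+1)`-set which lie on no collinear triple
-/

set_option autoImplicit false

namespace Pool.Agent.H73G

variable {F : Type} [Field F] [Fintype F] [DecidableEq F]

theorem prod_nonzero : ∏ c ∈ Finset.univ.erase (0 : F), c = -1 := by
  have h := FiniteField.prod_univ_units_id_eq_neg_one (K := F)
  have h' : ∏ x : Fˣ, (x : F) = -1 := by
    have := congrArg (Units.coeHom F) h
    rw [map_prod] at this
    simpa using this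
  rw [← h']
  symm
  apply Finset.prod_nbij (fun x : Fˣ => (x : F))
  · intro x _
    simp
  · intro x _ y _ hxy
    exact Units.ext hxy
  · intro c hc
    have hc0 : c ≠ 0 := by simpa using hc
    exact ⟨Units.mk0 c hc0, by simp, rfl⟩
  · intro x _
    rfl

/-- Wilson's theorem for a set which misses one non-zero element -/
theorem wilson {ι : Type} (T : Finset ι) (g : ι → F) (hinj : Set.InjOn g T)
    (h0 : ∀ r ∈ T, g r ≠ 0) (s : F) (hs : s ≠ 0) (hm : ∀ r ∈ T, g r ≠ s)
    (hc : T.card + 2 = Fintype.card F) : (∏ r ∈ T, g r) * s = -1 := by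
  classical
  have hns : s ∉ T.image g := by
    intro h
    obtain ⟨r, hr, hrs⟩ := Finset.mem_image.mp h
    exact hm r hr hrs
  have h1 : insert s (T.image g) = Finset.univ.erase (0 : F) := by
    apply Finset.eq_of_subset_of_card_le
    · intro c hc
      rw [Finset.mem_insert, Finset.mem_image] at hc
      rw [Finset.mem_erase]
      rcases hc with rfl | ⟨r, hr, rfl⟩
      · exact ⟨hs, Finset.mem_univ _⟩
      · exact ⟨h0 r hr, Finset.mem_univ _⟩
    · rw [Finset.card_insert_of_notMem hns, Finset.card_image_of_injOn hinj,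
        Finset.card_erase_of_mem (Finset.mem_univ _), Finset.card_univ]
      omega
  rw [← prod_nonzero (F := F), ← h1, Finset.prod_insert hns, Finset.prod_image hinj, mul_comm]

/-- the determinant of three vectors -/
def det3 (a b c : Fin 3 → F) : F :=
  a 0 * (b 1 * c 2 - b 2 * c 1) - a 1 * (b 0 * c 2 - b 2 * c 0) + a 2 * (b 0 * c 1 - b 1 * c 0)

/-- the value of a linear form -/
def dot (f v : Fin 3 → F) : F := f 0 * v 0 + f 1 * v 1 + f 2 * v 2

omit [Fintype F] [DecidableEq F] in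
theorem det3_cyc (a b c : Fin 3 → F) : det3 a b c = det3 b c a := by
  unfold det3; ring

omit [Fintype F] [DecidableEq F] in
theorem det3_swap (a b c : Fin 3 → F) : det3 a b c = - det3 a c b := by
  unfold det3; ring

omit [Fintype F] [DecidableEq F] in
theorem dot_expand (f a b c v : Fin 3 → F) :
    dot f v * det3 a b c = dot f a * det3 v b c + dot f b * det3 a v c + dot f c * det3 a b v := by
  unfold det3 dot; ring

omit [Fintype F] [DecidableEq F] in
theorem plucker (x y z r s : Fin 3 → F) :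
    det3 x r z * det3 x y s - det3 x s z * det3 x y r = det3 x r s * det3 x y z := by
  unfold det3; ring

variable {ι : Type} (S : Finset ι) (w : ι → Fin 3 → F)

/-- `x` lies on no collinear triple -/
def Good (x : ι) : Prop :=
  x ∈ S ∧ ∀ r ∈ S, ∀ s ∈ S, r ≠ x → s ≠ x → r ≠ s → det3 (w x) (w r) (w s) ≠ 0

/-- `f` is a tangent at `x` -/
def Tan (x : ι) (f : Fin 3 → F) : Prop :=
  dot f (w x) = 0 ∧ ∀ r ∈ S, r ≠ x → dot f (w r) ≠ 0

theorem slope_prod {S : Finset ι} {w : ι → Fin 3 → F} {x y z : ι} {f : Fin 3 → F}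
    (hx : Good S w x) (hy : y ∈ S) (hz : z ∈ S)
    (hxy : y ≠ x) (hxz : z ≠ x) (hyz : y ≠ z) (hf : Tan S w x f) (T : Finset ι)
    (hT : ∀ r, r ∈ T ↔ r ∈ S ∧ r ≠ x ∧ r ≠ y ∧ r ≠ z) (hc : T.card + 2 = Fintype.card F) :
    (∏ r ∈ T, det3 (w x) (w r) (w z) / det3 (w x) (w y) (w r)) *
      (-(dot f (w z)) / dot f (w y)) = -1 := by
  have hD : det3 (w x) (w y) (w z) ≠ 0 := hx.2 y hy z hz hxy hxz hyz
  have hfy := hf.2 y hy hxy
  have hfz := hf.2 z hz hxz
  apply wilson T _ _ _ _ _ _ hc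
  · intro r hr s hs hrs
    have hr' := (hT r).mp hr
    have hs' := (hT s).mp hs
    by_contra hne
    have h1 : det3 (w x) (w y) (w r) ≠ 0 := hx.2 y hy r hr'.1 hxy hr'.2.1 (Ne.symm hr'.2.2.1)
    have h2 : det3 (w x) (w y) (w s) ≠ 0 := hx.2 y hy s hs'.1 hxy hs'.2.1 (Ne.symm hs'.2.2.1)
    have h3 := hx.2 r hr'.1 s hs'.1 hr'.2.1 hs'.2.1 hne
    simp only at hrs
    rw [div_eq_div_iff h1 h2] at hrs
    have h4 := plucker (w x) (w y) (w z) (w r) (w s)
    rw [hrs, sub_self] at h4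
    exact mul_ne_zero h3 hD h4.symm
  · intro r hr
    have hr' := (hT r).mp hr
    exact div_ne_zero (hx.2 r hr'.1 z hz hr'.2.1 hxz hr'.2.2.2)
      (hx.2 y hy r hr'.1 hxy hr'.2.1 (Ne.symm hr'.2.2.1))
  · exact div_ne_zero (neg_ne_zero.mpr hfz) hfy
  · intro r hr h
    have hr' := (hT r).mp hr
    have h1 : det3 (w x) (w y) (w r) ≠ 0 := hx.2 y hy r hr'.1 hxy hr'.2.1 (Ne.symm hr'.2.2.1)
    rw [div_eq_div_iff h1 hfy] at h
    have h2 := dot_expand f (w x) (w y) (w z) (w r)
    rw [hf.1, zero_mul, zero_add] at h2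
    have h3 : dot f (w r) * det3 (w x) (w y) (w z) = 0 := by
      rw [h2]; linear_combination h
    exact mul_ne_zero (hf.2 r hr'.1 hr'.2.1) hD h3

/-- Segre's lemma of tangents -/
theorem tangents {S : Finset ι} {w : ι → Fin 3 → F} {x y z : ι} {f g h : Fin 3 → F}
    (hx : Good S w x) (hy : Good S w y) (hz : Good S w z)
    (hxy : x ≠ y) (hxz : x ≠ z) (hyz : y ≠ z)
    (hf : Tan S w x f) (hg : Tan S w y g) (hh : Tan S w z h)
    (hc : S.card = Fintype.card F + 1) :
    dot f (w y) * dot g (w z) * dot h (w x) = dot f (w z) * dot g (w x) * dot h (w y) := by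
  classical
  set T := ((S.erase x).erase y).erase z with hTdef
  have hT : ∀ r, r ∈ T ↔ r ∈ S ∧ r ≠ x ∧ r ≠ y ∧ r ≠ z := by
    intro r
    rw [hTdef, Finset.mem_erase, Finset.mem_erase, Finset.mem_erase]
    tauto
  have hTc : T.card + 2 = Fintype.card F := by
    have h1 : (S.erase x).card + 1 = S.card := Finset.card_erase_add_one hx.1
    have h2 : ((S.erase x).erase y).card + 1 = (S.erase x).card :=
      Finset.card_erase_add_one (Finset.mem_erase.mpr ⟨hxy.symm, hy.1⟩)
    have h3 : T.card + 1 = ((S.erase x).erase y).card :=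
      Finset.card_erase_add_one (Finset.mem_erase.mpr ⟨hyz.symm, Finset.mem_erase.mpr ⟨hxz.symm, hz.1⟩⟩)
    omega
  have e1 := slope_prod hx hy.1 hz.1 hxy.symm hxz.symm hyz hf T hT hTc
  have e2 := slope_prod hy hz.1 hx.1 hyz.symm hxy hxz.symm hg T
    (fun r => by rw [hT]; tauto) hTc
  have e3 := slope_prod hz hx.1 hy.1 hxz hyz hxy hh T
    (fun r => by rw [hT]; tauto) hTc
  have hprod : (∏ r ∈ T, det3 (w x) (w r) (w z) / det3 (w x) (w y) (w r)) *
      (∏ r ∈ T, det3 (w y) (w r) (w x) / det3 (w y) (w z) (w r)) *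
      (∏ r ∈ T, det3 (w z) (w r) (w y) / det3 (w z) (w x) (w r)) = 1 := by
    rw [← Finset.prod_mul_distrib, ← Finset.prod_mul_distrib]
    apply Finset.prod_eq_one
    intro r hr
    have hr' := (hT r).mp hr
    have h1 : det3 (w x) (w y) (w r) ≠ 0 :=
      hx.2 y hy.1 r hr'.1 hxy.symm hr'.2.1 (Ne.symm hr'.2.2.1)
    have h2 : det3 (w y) (w z) (w r) ≠ 0 :=
      hy.2 z hz.1 r hr'.1 hyz.symm hr'.2.2.1 (Ne.symm hr'.2.2.2)
    have h3 : det3 (w z) (w x) (w r) ≠ 0 :=
      hz.2 x hx.1 r hr'.1 hxz hr'.2.2.2 (Ne.symm hr'.2.1)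
    have c1 : det3 (w y) (w r) (w x) = det3 (w x) (w y) (w r) := by unfold det3; ring
    have c2 : det3 (w x) (w r) (w z) = det3 (w z) (w x) (w r) := by unfold det3; ring
    have c3 : det3 (w z) (w r) (w y) = det3 (w y) (w z) (w r) := by unfold det3; ring
    rw [c1, c2, c3]
    field_simp
  have hfy := hf.2 y hy.1 hxy.symm
  have hfz := hf.2 z hz.1 hxz.symm
  have hgz := hg.2 z hz.1 hyz.symm
  have hgx := hg.2 x hx.1 hxy
  have hhx := hh.2 x hx.1 hxz
  have hhy := hh.2 y hy.1 hyz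
  have e4 : ((∏ r ∈ T, det3 (w x) (w r) (w z) / det3 (w x) (w y) (w r)) *
      (∏ r ∈ T, det3 (w y) (w r) (w x) / det3 (w y) (w z) (w r)) *
      (∏ r ∈ T, det3 (w z) (w r) (w y) / det3 (w z) (w x) (w r))) *
      ((-(dot f (w z)) / dot f (w y)) * (-(dot g (w x)) / dot g (w z)) *
        (-(dot h (w y)) / dot h (w x))) = -1 := by
    linear_combination ((∏ r ∈ T, det3 (w y) (w r) (w x) / det3 (w y) (w z) (w r)) *
      (-(dot g (w x)) / dot g (w z))) * ((∏ r ∈ T, det3 (w z) (w r) (w y) / det3 (w z) (w x) (w r)) *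
      (-(dot h (w y)) / dot h (w x))) * e1 - ((∏ r ∈ T, det3 (w z) (w r) (w y) / det3 (w z) (w x) (w r)) *
      (-(dot h (w y)) / dot h (w x))) * e2 + e3
  rw [hprod, one_mul] at e4
  field_simp at e4
  linear_combination e4

end Pool.Agent.H73G
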