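import Pool.Agent.H73G.Half

/-!
# The tangents at a point off the conic: the product formula
-/

set_option autoImplicit false
set_option linter.unusedSectionVars false

namespace Pool.Agent.H73G

variable {F : Type} [Field F] [Fintype F] [DecidableEq F] {ι : Type} {S : Finset ι}
  {w : ι → Fin 3 → F} {x y z : ι} {f g h : Fin 3 → F}

theorem Base.prop (H : Base S w x y z f g h) (htan : ∀ p, Good S w p → ∃ k, Tan S w p k)
    {p : ι} (hp : Good S w p) (hpx : p ≠ x) :
    ∃ k, Tan S w p k ∧ ∀ v, dot k v * (det3 (w x) (w y) (w z) ^ 2 * dot h (w x) * dot f (w p)) =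
      dot k (w x) * BB w x y z f h (w p) v := by
  have hD := H.D
  have g_x := H.hg.2 x H.hx.1 H.hxy
  by_cases hpy : p = y
  · subst hpy
    refine ⟨g, H.hg, fun v => ?_⟩
    linear_combination -(H.BY v)
  by_cases hpz : p = z
  · subst hpz
    refine ⟨h, H.hh, fun v => ?_⟩
    linear_combination -(dot h (w x)) * (H.BZ v)
  obtain ⟨k, hk⟩ := htan p hp
  refine ⟨k, hk, fun v => ?_⟩
  have t1 := H.tan
  have t2 := tangents H.hx H.hy hp H.hxy (Ne.symm hpx) (Ne.symm hpy) H.hf H.hg hk H.card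
  have t3 := tangents H.hx H.hz hp H.hxz (Ne.symm hpx) (Ne.symm hpz) H.hf H.hh hk H.card
  have e1 := H.ff (w p)
  have e2 := H.gg (w p)
  have e3 := H.hhh (w p)
  set D := det3 (w x) (w y) (w z) with hDdef
  set A := det3 (w p) (w y) (w z) with hA
  set Be := det3 (w x) (w p) (w z) with hBe
  set C := det3 (w x) (w y) (w p) with hC
  have h7 : dot g (w x) * (dot k v * (D ^ 2 * dot h (w x) * dot f (w p))) =
      dot g (w x) * (dot k (w x) * BB w x y z f h (w p) v) := by
    have e5 := dot_expand k (w x) (w y) (w z) v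
    rw [← hDdef] at e5
    unfold BB B
    rw [← hA, ← hBe, ← hC]
    linear_combination (D * dot h (w x) * dot f (w p) * dot g (w x)) * e5 +
        (dot k (w x) * det3 v (w y) (w z) * dot h (w x) * dot g (w x)) * e1 -
        (det3 (w x) v (w z) * D * dot h (w x)) * t2 +
        (det3 (w x) v (w z) * dot h (w x) * dot f (w y) * dot k (w x)) * e2 -
        (det3 (w x) (w y) v * D * dot g (w x)) * t3 +
        (det3 (w x) (w y) v * dot g (w x) * dot f (w z) * dot k (w x)) * e3 +
        (dot k (w x) * det3 (w x) v (w z) * C) * t1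
  exact mul_left_cancel₀ g_x h7

/-- the product formula at a point `o` of the set for the good points `x` and `p` -/
theorem Base.star (H : Base S w x y z f g h) (htan : ∀ p, Good S w p → ∃ k, Tan S w p k)
    {o : ι} (ho : o ∈ S) {p : ι} (hp : Good S w p) (hpx : p ≠ x) (hox : o ≠ x) (hop : o ≠ p)
    (T : Finset ι) (hT : ∀ r, r ∈ T ↔ r ∈ S ∧ r ≠ x ∧ r ≠ p ∧ r ≠ o)
    (hTc : T.card + 2 = Fintype.card F) :
    (∏ r ∈ T, det3 (w o) (w r) (w p) / det3 (w o) (w x) (w r)) * BB w x y z f h (w p) (w o) =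
      BB w x y z f h (w x) (w o) := by
  obtain ⟨k, hk, hkB⟩ := H.prop htan hp hpx
  have e1 := slope_prod H.hx hp.1 ho hpx hox (Ne.symm hop) H.hf T hT hTc
  have e2 := slope_prod hp ho H.hx.1 hop (Ne.symm hpx) hox hk T
    (fun r => by rw [hT]; tauto) hTc
  have hprod : (∏ r ∈ T, det3 (w x) (w r) (w o) / det3 (w x) (w p) (w r)) *
      (∏ r ∈ T, det3 (w p) (w r) (w x) / det3 (w p) (w o) (w r)) *
      (∏ r ∈ T, det3 (w o) (w r) (w p) / det3 (w o) (w x) (w r)) = 1 := by
    rw [← Finset.prod_mul_distrib, ← Finset.prod_mul_distrib]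
    apply Finset.prod_eq_one
    intro r hr
    have hr' := (hT r).mp hr
    have h1 : det3 (w x) (w p) (w r) ≠ 0 :=
      H.hx.2 p hp.1 r hr'.1 hpx hr'.2.1 (Ne.symm hr'.2.2.1)
    have h2 : det3 (w p) (w o) (w r) ≠ 0 :=
      hp.2 o ho r hr'.1 hop hr'.2.2.1 (Ne.symm hr'.2.2.2)
    have h3 : det3 (w o) (w x) (w r) ≠ 0 := by
      have := H.hx.2 r hr'.1 o ho hr'.2.1 hox hr'.2.2.2
      intro h; apply this; rw [← h]; unfold det3; ring
    have c1 : det3 (w p) (w r) (w x) = det3 (w x) (w p) (w r) := by unfold det3; ring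
    have c2 : det3 (w x) (w r) (w o) = det3 (w o) (w x) (w r) := by unfold det3; ring
    have c3 : det3 (w o) (w r) (w p) = det3 (w p) (w o) (w r) := by unfold det3; ring
    rw [c1, c2, c3]
    field_simp
  have f_p := H.hf.2 p hp.1 hpx
  have f_o := H.hf.2 o ho hox
  have k_x := hk.2 x H.hx.1 (Ne.symm hpx)
  have k_o := hk.2 o ho hop
  set P1 := ∏ r ∈ T, det3 (w x) (w r) (w o) / det3 (w x) (w p) (w r)
  set P2 := ∏ r ∈ T, det3 (w p) (w r) (w x) / det3 (w p) (w o) (w r)
  set P3 := ∏ r ∈ T, det3 (w o) (w r) (w p) / det3 (w o) (w x) (w r)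
  have e1' : P1 * dot f (w o) = dot f (w p) := by
    field_simp at e1
    linear_combination -e1
  have e2' : P2 * dot k (w x) = dot k (w o) := by
    field_simp at e2
    linear_combination -e2
  have e3 : P3 * (dot f (w p) * dot k (w o)) = dot f (w o) * dot k (w x) := by
    rw [← e1', ← e2']
    linear_combination dot f (w o) * dot k (w x) * hprod
  have hBX := H.BX (w o)
  have hB := hkB (w o)
  have h8 : dot k (w x) * (P3 * BB w x y z f h (w p) (w o)) =
      dot k (w x) * BB w x y z f h (w x) (w o) := by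
    rw [hBX]
    linear_combination -P3 * hB + (det3 (w x) (w y) (w z) ^ 2 * dot h (w x)) * e3
  exact mul_left_cancel₀ k_x h8

end Pool.Agent.H73G
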